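import Pool.Agent.Helper75.GF.L2
import Pool.Agent.Helper63.RP4.E6a

/-!
# Project GF, lattice part L9a: Riemann weights and cell masses
-/

open MeasureTheory Filter Topology

namespace GF.Lat

open RP4 (V avg Om dom cell mass mu Loc Deloc BdryPar wt)

private lemma wm_vol {δ : ℝ} (hδ : 0 < δ) (x : V) :
    (volume : Measure (ℝ × ℝ)) (cell δ x) = ENNReal.ofReal (δ ^ 2) := by
  unfold RP4.cell
  rw [Measure.volume_eq_prod, Measure.prod_prod, Real.volume_Ico, Real.volume_Ico,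
    ← ENNReal.ofReal_mul (by nlinarith)]
  congr 1
  ring

private lemma wm_one {f : Pl → ℝ} {C : NNReal} (hC : LipschitzWith C f) (hi : Integrable f) {δ : ℝ}
    (hδ : 0 < δ) (x : V) : |wt δ f x - mass δ f x| ≤ C * δ * δ ^ 2 := by
  have hv := wm_vol hδ x
  have hr : (volume : Measure (ℝ × ℝ)).real (cell δ x) = δ ^ 2 := by
    rw [Measure.real, hv, ENNReal.toReal_ofReal (by positivity)]
  have hfin : (volume : Measure (ℝ × ℝ)) (cell δ x) < ⊤ := by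
    rw [hv]; exact ENNReal.ofReal_lt_top
  have h1 : wt δ f x = ∫ _ in cell δ x, f (δ * x.1, δ * x.2) := by
    rw [setIntegral_const, hr]; rfl
  rw [h1]
  unfold RP4.mass
  have hc1 : IntegrableOn (fun _ : ℝ × ℝ => f (δ * x.1, δ * x.2)) (cell δ x) volume :=
    integrableOn_const hfin.ne
  have hc2 : IntegrableOn f (cell δ x) volume := hi.integrableOn
  rw [← integral_sub hc1 hc2, ← hr, ← Real.norm_eq_abs]
  refine norm_setIntegral_le_of_norm_le_const hfin fun y hy => ?_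
  have h2 := hC.dist_le_mul (δ * x.1, δ * x.2) y
  rw [Real.dist_eq] at h2
  rw [Real.norm_eq_abs]
  refine h2.trans (mul_le_mul_of_nonneg_left ?_ C.2)
  have h3 := hy.1
  have h4 := hy.2
  rw [Set.mem_Ico] at h3 h4
  rw [Prod.dist_eq, Real.dist_eq, Real.dist_eq, max_le_iff, abs_le, abs_le]
  refine ⟨⟨?_, ?_⟩, ⟨?_, ?_⟩⟩ <;> dsimp only <;> nlinarith [h3.1, h3.2, h4.1, h4.2]

private lemma wm_card {R δ : ℝ} (hR : 0 < R) (hδ : 0 < δ) :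
    ((win δ R).card : ℝ) ≤ (2 * R / δ + 5) ^ 2 := by
  have h0 : 0 ≤ ⌈R / δ⌉ := Int.ceil_nonneg (by positivity)
  have h1 : ((Finset.Icc (-(⌈R / δ⌉ + 1)) (⌈R / δ⌉ + 1)).card : ℝ) ≤ 2 * R / δ + 5 := by
    rw [Int.card_Icc]
    have h2 : (((⌈R / δ⌉ + 1 + 1 - -(⌈R / δ⌉ + 1)).toNat : ℤ) : ℝ) = 2 * ⌈R / δ⌉ + 3 := by
      rw [Int.toNat_of_nonneg (by omega)]
      push_cast; ring
    have h3 : ((⌈R / δ⌉ : ℤ) : ℝ) < R / δ + 1 := Int.ceil_lt_add_one _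
    have h4 : (((⌈R / δ⌉ + 1 + 1 - -(⌈R / δ⌉ + 1)).toNat : ℕ) : ℝ) =
        (((⌈R / δ⌉ + 1 + 1 - -(⌈R / δ⌉ + 1)).toNat : ℤ) : ℝ) := by norm_cast
    rw [h4, h2, mul_div_assoc]
    linarith
  unfold win
  rw [Finset.card_product, Nat.cast_mul, sq]
  exact mul_le_mul h1 h1 (Nat.cast_nonneg _) (by positivity)

/-- `wt δ f x = δ² f(δ x)` and the mass of the cell of `x` differ by `O(δ³)` (`f` is Lipschitz), on `O(δ⁻²)` sites -/
theorem wt_mass {f : Pl → ℝ} (hf : Cc f) {R : ℝ} (hR : 0 < R) (hfR : ∀ z, f z ≠ 0 → |z.1| ≤ R ∧ |z.2| ≤ R) :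
    ∃ B : ℝ, 0 ≤ B ∧ ∀ δ : ℝ, 0 < δ → δ < 1 → ∑ x ∈ win δ R, |wt δ f x - mass δ f x| ≤ B * δ := by
  obtain ⟨C, hC⟩ := hf.smooth.lipschitzWith_of_hasCompactSupport hf.supp (by simp)
  refine ⟨C * (2 * R + 5) ^ 2, by positivity, fun δ hδ hδ1 => ?_⟩
  have h1 : ∑ x ∈ win δ R, |wt δ f x - mass δ f x| ≤ ∑ _x ∈ win δ R, C * δ * δ ^ 2 :=
    Finset.sum_le_sum fun x _ => wm_one hC hf.integrable hδ x
  refine h1.trans ?_
  rw [Finset.sum_const, nsmul_eq_mul]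
  have h2 := wm_card hR hδ
  have h3 : (0 : ℝ) ≤ C * δ * δ ^ 2 := by positivity
  refine (mul_le_mul_of_nonneg_right h2 h3).trans ?_
  have h4 : (2 * R / δ + 5) ^ 2 * (C * δ * δ ^ 2) = C * (2 * R + 5 * δ) ^ 2 * δ := by
    field_simp
  rw [h4]
  have h5 : (2 * R + 5 * δ) ^ 2 ≤ (2 * R + 5) ^ 2 :=
    pow_le_pow_left₀ (by positivity) (by linarith) 2
  exact mul_le_mul_of_nonneg_right (mul_le_mul_of_nonneg_left h5 C.2) hδ.le

/-- the weights vanish off the window -/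
theorem wt_off {f : Pl → ℝ} {R δ : ℝ} (hδ : 0 < δ) (hR : 0 < R) (hfR : ∀ z, f z ≠ 0 → |z.1| ≤ R ∧ |z.2| ≤ R)
    {x : V} (hx : x ∉ win δ R) : wt δ f x = 0 := by
  unfold RP4.wt
  by_contra hc
  have h1 : f (δ * x.1, δ * x.2) ≠ 0 := fun h => hc (by rw [h, mul_zero])
  obtain ⟨h2, h3⟩ := hfR _ h1
  have key : ∀ a : ℤ, |δ * (a : ℝ)| ≤ R → a ∈ Finset.Icc (-(⌈R / δ⌉ + 1)) (⌈R / δ⌉ + 1) := by
    intro a ha
    have h4 := abs_le.1 ha
    have h5 : (a : ℝ) ≤ R / δ := by rw [le_div_iff₀ hδ]; linarith [h4.2]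
    have h6 : -(a : ℝ) ≤ R / δ := by rw [le_div_iff₀ hδ]; linarith [h4.1]
    have h7 := Int.le_ceil (R / δ)
    have h8 : (a : ℝ) ≤ ⌈R / δ⌉ := h5.trans h7
    have h9 : -(a : ℝ) ≤ ⌈R / δ⌉ := h6.trans h7
    have h10 : a ≤ ⌈R / δ⌉ := by exact_mod_cast h8
    have h11 : -a ≤ ⌈R / δ⌉ := by exact_mod_cast h9
    rw [Finset.mem_Icc]
    omega
  exact hx (Finset.mem_product.2 ⟨key _ h2, key _ h3⟩)

end GF.Lat
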