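import Pool.Agent.Helper75.GF.L5
import Pool.Agent.Helper75.GF.L9a

/-!
# Project GF, lattice part L9: the pairing `δ² ∑ f(δ x) (h x - h 0)` of the problem
-/

open MeasureTheory Filter Topology

namespace GF.Lat

open RP4 (V avg Om dom cell mass mu Loc Deloc BdryPar wt)

/-- the pairing of the problem -/
noncomputable def YY (f : Pl → ℝ) (i : Ix) : ℝ := ∑ x ∈ i.1.2, wt i.1.1 f x * ((i.2 x : ℝ) - i.2 0)

/-- the neutral weights of the difference -/
private noncomputable def cw (δ R : ℝ) (f : Pl → ℝ) (x : V) : ℝ :=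
  (wt δ f x - mass δ f x) - (if x = 0 then ∑ y ∈ win δ R, (wt δ f y - mass δ f y) else 0)

private lemma L9_zero {δ R : ℝ} (hδ : 0 < δ) (hR : 0 < R) : (0 : V) ∈ win δ R := by
  unfold win
  have h1 : 0 ≤ ⌈R / δ⌉ := Int.ceil_nonneg (by positivity)
  rw [Finset.mem_product, Finset.mem_Icc]
  refine ⟨⟨?_, ?_⟩, ?_⟩
  · show -(⌈R / δ⌉ + 1) ≤ (0 : ℤ)
    omega
  · show (0 : ℤ) ≤ ⌈R / δ⌉ + 1
    omega
  · rw [Finset.mem_Icc]
    constructor
    · show -(⌈R / δ⌉ + 1) ≤ (0 : ℤ)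
      omega
    · show (0 : ℤ) ≤ ⌈R / δ⌉ + 1
      omega

private lemma L9_sum {δ R : ℝ} (hδ : 0 < δ) (hR : 0 < R) (f : Pl → ℝ) :
    ∑ x ∈ win δ R, cw δ R f x = 0 := by
  unfold cw
  rw [Finset.sum_sub_distrib, Finset.sum_ite_eq' (win δ R) (0 : V), if_pos (L9_zero hδ hR), sub_self]

private lemma L9_abs {δ R : ℝ} (hδ : 0 < δ) (hR : 0 < R) (f : Pl → ℝ) :
    ∑ x ∈ win δ R, |cw δ R f x| ≤ 2 * ∑ x ∈ win δ R, |wt δ f x - mass δ f x| := by
  have h1 : ∀ x ∈ win δ R, |cw δ R f x| ≤ |wt δ f x - mass δ f x| +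
      (if x = 0 then ∑ y ∈ win δ R, |wt δ f y - mass δ f y| else 0) := by
    intro x _
    unfold cw
    by_cases hx : x = 0
    · rw [if_pos hx, if_pos hx]
      exact (abs_sub _ _).trans (add_le_add le_rfl (Finset.abs_sum_le_sum_abs _ _))
    · rw [if_neg hx, if_neg hx, sub_zero, add_zero]
  refine (Finset.sum_le_sum h1).trans ?_
  rw [Finset.sum_add_distrib, Finset.sum_ite_eq' (win δ R) (0 : V), if_pos (L9_zero hδ hR)]
  linarith

/-- the difference of the two pairings, for domains containing the window -/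
private lemma L9_diff {f : Pl → ℝ} (hf : Ne f) {R δ : ℝ} (hδ : 0 < δ) (hR : 0 < R)
    (hfR : ∀ z, f z ≠ 0 → |z.1| ≤ R ∧ |z.2| ≤ R) {D : Finset V} (hD : win δ R ⊆ D) (h : V → ℤ) :
    YY f ((δ, D), h) - XX f ((δ, D), h) = ∑ x ∈ win δ R, cw δ R f x * (h x : ℝ) := by
  have hi : Integrable f := hf.smooth.continuous.integrable_of_hasCompactSupport hf.supp
  have h0 : (0 : V) ∈ win δ R := L9_zero hδ hR
  have e1 : YY f ((δ, D), h) = ∑ x ∈ win δ R, wt δ f x * ((h x : ℝ) - h 0) := by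
    unfold YY
    symm
    refine Finset.sum_subset hD fun x _ hx => ?_
    rw [wt_off hδ hR hfR hx, zero_mul]
  have e2 : XX f ((δ, D), h) = ∑ x ∈ win δ R, mass δ f x * (h x : ℝ) := by
    unfold XX
    symm
    refine Finset.sum_subset hD fun x _ hx => ?_
    rw [mass_off hδ hR.le hfR hx, zero_mul]
  have e3 := sum_mass hδ hR.le hi hfR (Finset.Subset.refl _)
  rw [hf.zero] at e3
  have e4 : ∑ x ∈ win δ R, cw δ R f x * (h x : ℝ) =
      ∑ x ∈ win δ R, (wt δ f x - mass δ f x) * (h x : ℝ) -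
        (∑ y ∈ win δ R, (wt δ f y - mass δ f y)) * h 0 := by
    unfold cw
    have : ∀ x ∈ win δ R, ((wt δ f x - mass δ f x) -
        (if x = 0 then ∑ y ∈ win δ R, (wt δ f y - mass δ f y) else 0)) * (h x : ℝ) =
        (wt δ f x - mass δ f x) * (h x : ℝ) -
        (if x = 0 then (∑ y ∈ win δ R, (wt δ f y - mass δ f y)) * h 0 else 0) := by
      intro x _
      by_cases hx : x = 0
      · rw [if_pos hx, if_pos hx, hx]
        ring
      · rw [if_neg hx, if_neg hx]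
        ring
    rw [Finset.sum_congr rfl this, Finset.sum_sub_distrib, Finset.sum_ite_eq' (win δ R) (0 : V),
      if_pos h0]
  rw [e1, e2, e4]
  have e5 : ∑ x ∈ win δ R, wt δ f x * ((h x : ℝ) - h 0) =
      ∑ x ∈ win δ R, wt δ f x * (h x : ℝ) - (∑ x ∈ win δ R, wt δ f x) * h 0 := by
    rw [Finset.sum_mul, ← Finset.sum_sub_distrib]
    exact Finset.sum_congr rfl fun x _ => by ring
  have e6 : ∑ x ∈ win δ R, (wt δ f x - mass δ f x) * (h x : ℝ) =
      ∑ x ∈ win δ R, wt δ f x * (h x : ℝ) - ∑ x ∈ win δ R, mass δ f x * (h x : ℝ) := by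
    rw [← Finset.sum_sub_distrib]
    exact Finset.sum_congr rfl fun x _ => by ring
  rw [e5, e6, Finset.sum_sub_distrib, e3]
  ring

private lemma L9_loc {δ R : ℝ} (hδ : 0 < δ) (hR : 0 < R) (f : Pl → ℝ) :
    Loc (win δ R) (fun h => ∑ x ∈ win δ R, cw δ R f x * (h x : ℝ)) := by
  intro h h' hh
  show ∑ x ∈ win δ R, cw δ R f x * (h x : ℝ) = ∑ x ∈ win δ R, cw δ R f x * (h' x : ℝ)
  have h1 : ∀ x ∈ win δ R, cw δ R f x * (h x : ℝ) =
      cw δ R f x * (h' x : ℝ) + cw δ R f x * ((h 0 - h' 0 : ℤ) : ℝ) := by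
    intro x hx
    have h2 := hh x hx 0 (L9_zero hδ hR)
    have h3 : h x = h' x + (h 0 - h' 0) := by omega
    rw [h3, Int.cast_add, mul_add]
  rw [Finset.sum_congr rfl h1, Finset.sum_add_distrib, ← Finset.sum_mul, L9_sum hδ hR, zero_mul,
    add_zero]

private lemma L9_rep {f : Pl → ℝ} (hf : Ne f) {R : ℝ} (hR : 0 < R)
    (hfR : ∀ z, f z ≠ 0 → |z.1| ≤ R ∧ |z.2| ≤ R) :
    Rep (fun i => (YY f i - XX f i) ^ 2)
      (fun δ h => (∑ x ∈ win δ R, cw δ R f x * (h x : ℝ)) ^ 2) := by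
  filter_upwards [self_mem_nhdsWithin] with δ hδ
  have hδ' : 0 < δ := hδ
  refine ⟨⟨win δ R, (L9_loc hδ' hR f).comp (fun t => t ^ 2)⟩, ?_⟩
  refine RP4.eventually_dom.2 ⟨win δ R, fun D hD _ h _ => ?_⟩
  show (YY f ((δ, D), h) - XX f ((δ, D), h)) ^ 2 = _
  rw [L9_diff hf hδ' hR hfR hD]

private lemma L9_fst : Tendsto (fun p : ℝ × Finset V => p.1) itf (𝓝[>] (0 : ℝ)) := by
  intro S hS
  show ∀ᶠ p in itf, p.1 ∈ S
  rw [itf_eventually]
  filter_upwards [hS] with δ hδ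
  exact Eventually.of_forall fun _ => hδ

/-- the bound in infinite volume -/
private lemma L9_mu (hdl : Deloc) (hlog : LogBd) {f : Pl → ℝ} (hf : Ne f) {R : ℝ} (hR : 0 < R)
    (hfR : ∀ z, f z ≠ 0 → |z.1| ≤ R ∧ |z.2| ≤ R) :
    Tendsto (fun δ => mu (fun h => (∑ x ∈ win δ R, cw δ R f x * (h x : ℝ)) ^ 2)) (𝓝[>] (0 : ℝ))
      (𝓝 0) := by
  obtain ⟨B, hB0, hB⟩ := wt_mass hf.toCc hR hfR
  obtain ⟨C, hC0, hC⟩ := hlog
  have hup : ∀ᶠ δ in 𝓝[>] (0 : ℝ),
      mu (fun h => (∑ x ∈ win δ R, cw δ R f x * (h x : ℝ)) ^ 2) ≤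
        4 * B ^ 2 * C * (6 * δ ^ 2 + 2 * R * δ) := by
    filter_upwards [self_mem_nhdsWithin, Ioo_mem_nhdsGT (show (0 : ℝ) < 1 by norm_num)] with δ hδ hδ1
    have hδ' : 0 < δ := hδ
    have hbd : ∀ x ∈ win δ R, mu (fun h => ((h x : ℝ) - h 0) ^ 2) ≤ C * (6 + 2 * R / δ) := by
      intro x hx
      refine (hC x 0).trans (mul_le_mul_of_nonneg_left ?_ hC0)
      have h1 : (⌈R / δ⌉ : ℝ) ≤ R / δ + 1 := (Int.ceil_lt_add_one _).le
      unfold win at hx
      rw [Finset.mem_product, Finset.mem_Icc, Finset.mem_Icc] at hx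
      obtain ⟨⟨h2, h3⟩, h4, h5⟩ := hx
      have h2' : -((⌈R / δ⌉ : ℝ) + 1) ≤ x.1 := by exact_mod_cast h2
      have h3' : (x.1 : ℝ) ≤ ⌈R / δ⌉ + 1 := by exact_mod_cast h3
      have h4' : -((⌈R / δ⌉ : ℝ) + 1) ≤ x.2 := by exact_mod_cast h4
      have h5' : (x.2 : ℝ) ≤ ⌈R / δ⌉ + 1 := by exact_mod_cast h5
      have h6 : |(x.1 : ℝ) - ((0 : V).1 : ℝ)| ≤ R / δ + 2 := by
        have : ((0 : V).1 : ℝ) = 0 := by simp
        rw [this, sub_zero, abs_le]
        constructor <;> linarith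
      have h7 : |(x.2 : ℝ) - ((0 : V).2 : ℝ)| ≤ R / δ + 2 := by
        have : ((0 : V).2 : ℝ) = 0 := by simp
        rw [this, sub_zero, abs_le]
        constructor <;> linarith
      have h8 : 0 ≤ |(x.1 : ℝ) - ((0 : V).1 : ℝ)| := abs_nonneg _
      have h9 : 0 ≤ |(x.2 : ℝ) - ((0 : V).2 : ℝ)| := abs_nonneg _
      have h10 := Real.log_le_sub_one_of_pos
        (show 0 < 2 + |(x.1 : ℝ) - ((0 : V).1 : ℝ)| + |(x.2 : ℝ) - ((0 : V).2 : ℝ)| by linarith)
      have h11 : 2 * R / δ = 2 * (R / δ) := by ring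
      rw [h11]
      linarith
    have h1 := crude_lat hdl 0 (L9_zero hδ' hR) (cw δ R f) (L9_sum hδ' hR f) _ hbd
    refine h1.trans ?_
    have h2 : ∑ x ∈ win δ R, |cw δ R f x| ≤ 2 * (B * δ) :=
      (L9_abs hδ' hR f).trans (mul_le_mul_of_nonneg_left (hB δ hδ' hδ1.2) (by norm_num))
    have h3 : (∑ x ∈ win δ R, |cw δ R f x|) ^ 2 ≤ (2 * (B * δ)) ^ 2 :=
      pow_le_pow_left₀ (Finset.sum_nonneg fun _ _ => abs_nonneg _) h2 2
    have h4 : 0 ≤ C * (6 + 2 * R / δ) := by positivity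
    refine (mul_le_mul_of_nonneg_right h3 h4).trans (le_of_eq ?_)
    field_simp
    ring
  have hlo : ∀ᶠ δ in 𝓝[>] (0 : ℝ),
      0 ≤ mu (fun h => (∑ x ∈ win δ R, cw δ R f x * (h x : ℝ)) ^ 2) := by
    filter_upwards [self_mem_nhdsWithin] with δ hδ
    have hδ' : 0 < δ := hδ
    have h1 := RP4.mu_mono hdl (Loc.const (win δ R) 0)
      ((L9_loc hδ' hR f).comp (fun t => t ^ 2)) (fun g _ => by positivity)
    rwa [RP4.mu_const] at h1
  refine tendsto_of_tendsto_of_tendsto_of_le_of_le' tendsto_const_nhds ?_ hlo hup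
  have h1 : Tendsto (fun δ : ℝ => 4 * B ^ 2 * C * (6 * δ ^ 2 + 2 * R * δ)) (𝓝 0)
      (𝓝 (4 * B ^ 2 * C * (6 * 0 ^ 2 + 2 * R * 0))) := by
    refine Continuous.tendsto (by fun_prop) 0
  have h2 : 4 * B ^ 2 * C * (6 * (0 : ℝ) ^ 2 + 2 * R * 0) = 0 := by ring
  rw [h2] at h1
  exact h1.mono_left nhdsWithin_le_nhds

/-
Let `c_x = wt δ f x - mass δ f x`.  For `δ` small and `D` large (containing the window) `YY f - XX f = ∑_{x ∈ win} c_x (h x - h 0)`
(the masses are neutral, `sum_mass`).  This is a function local on the window; by Cauchy-Schwarz (as in `crude_lat`, which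
can be applied to the neutral weights `c_x - (∑ c) 1_{x = 0}`, of absolute mass `≤ 2 ∑ |c|`) and `LogBd` its second moment
under `mu` is `≤ (2 B δ)² C log (1/δ) → 0`.  `Rep.tendsto` transfers this to `ev`.
-/
theorem YY_second (hdl : Deloc) (hlog : LogBd) {f : Pl → ℝ} (hf : Ne f) :
    Tendsto (fun p : ℝ × Finset V => ev p (fun i => (YY f i - XX f i) ^ 2)) itf (𝓝 0) := by
  obtain ⟨R, hR, hfR⟩ := cc_box hf.toCc
  have h1 := Rep.tendsto hdl (L9_rep hf hR hfR)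
  have h2 := (L9_mu hdl hlog hf hR hfR).comp L9_fst
  have h3 := h1.add h2
  rw [add_zero] at h3
  refine h3.congr fun p => ?_
  simp only [Function.comp]
  ring

/-- moments of the difference: `GF.moments` for the weights `c_x - (∑ c) 1_{x = 0}` -/
theorem YY_ok (hdl : Deloc) (hlog : LogBd) {K : ℝ} (htwo : TwoPt K) {U : Filter (ℝ × Finset V)} (hU : U ≤ itf)
    {f : Pl → ℝ} (hf : Ne f) : OkU U (YY f) := by
  obtain ⟨R, hR, hfR⟩ := cc_box hf.toCc
  obtain ⟨B, hB0, hB⟩ := wt_mass hf.toCc hR hfR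
  have hd : OkU U (fun i => YY f i - XX f i) := by
    intro k
    obtain ⟨C, hC0, hC⟩ := GF.moments k
    refine ⟨C * (1 + 2 * B) ^ k, ?_⟩
    have h2 := (YY_second hdl hlog hf).eventually (gt_mem_nhds (show (0 : ℝ) < 1 by norm_num))
    have h3 : ∀ᶠ p in itf, 0 < p.1 ∧ p.1 < 1 ∧ win p.1 R ⊆ p.2 := by
      rw [itf_eventually]
      filter_upwards [self_mem_nhdsWithin, Ioo_mem_nhdsGT (show (0 : ℝ) < 1 by norm_num)] with δ hδ hδ1
      refine RP4.eventually_dom.2 ⟨win δ R, fun D hD _ => ⟨hδ, hδ1.2, hD⟩⟩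
    refine hU ?_
    filter_upwards [h2, h3, itf_nonempty] with p hp2 hp3 hp4
    obtain ⟨hδ, hδ1, hD⟩ := hp3
    have e1 : ∀ h : V → ℤ, YY f (p, h) - XX f (p, h) = GF.lin (win p.1 R) (cw p.1 R f) h :=
      fun h => L9_diff hf hδ hR hfR hD h
    have e2 : ev p (fun i => |YY f i - XX f i| ^ k) =
        avg (Om p.2) (fun h => |GF.lin (win p.1 R) (cw p.1 R f) h| ^ k) := by
      unfold ev
      congr 1
      funext h
      show |YY f (p, h) - XX f (p, h)| ^ k = _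
      rw [e1]
    have e3 : ev p (fun i => (YY f i - XX f i) ^ 2) =
        avg (Om p.2) (fun h => GF.lin (win p.1 R) (cw p.1 R f) h ^ 2) := by
      unfold ev
      congr 1
      funext h
      show (YY f (p, h) - XX f (p, h)) ^ 2 = _
      rw [e1]
    rw [e2]
    refine (hC p.2 (win p.1 R) (cw p.1 R f) hp4).trans (mul_le_mul_of_nonneg_left ?_ hC0)
    rw [e3] at hp2
    have h5 : ∑ x ∈ win p.1 R, |cw p.1 R f x| ≤ 2 * B := by
      refine (L9_abs hδ hR f).trans (mul_le_mul_of_nonneg_left ?_ (by norm_num))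
      refine (hB p.1 hδ hδ1).trans ?_
      nlinarith
    refine pow_le_pow_left₀ (add_nonneg (Real.sqrt_nonneg _)
      (Finset.sum_nonneg fun _ _ => abs_nonneg _)) (add_le_add ?_ h5) k
    rw [← Real.sqrt_one]
    exact Real.sqrt_le_sqrt hp2.le
  have h4 := hd.add (okU_XX hdl htwo hU hf)
  have h5 : (fun i => YY f i - XX f i + XX f i) = YY f := by
    funext i
    ring
  rwa [h5] at h4

theorem YY_close (hdl : Deloc) (hlog : LogBd) {U : Ultrafilter (ℝ × Finset V)}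
    (hU : (U : Filter (ℝ × Finset V)) ≤ itf) {f : Pl → ℝ} (hf : Ne f) :
    LU U (fun i => (YY f i - XX f i) ^ 2) = 0 :=
  LU_eq ((YY_second hdl hlog hf).mono_left hU)

end GF.Lat
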