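import Pool.Agent.Helper75.GF.Fldl
import Pool.Agent.Helper75.GF.L9
import Pool.Agent.Helper63.RP4.Two

/-!
# Project GF, lattice part: the limit field of square ice
-/

open MeasureTheory Filter Topology

namespace GF

open RP4 (V avg Om dom mass mu Deloc wt gfun)
open GF.Lat

theorem two_pt' (hd : Deloc) : ∃ K : ℝ, 0 ≤ K ∧
    Tendsto (fun x : V => gfun x / Real.log (Real.sqrt ((x.1 : ℝ) ^ 2 + (x.2 : ℝ) ^ 2))) cofinite
      (𝓝 (K / Real.pi)) ∧ TwoPt K := by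
  obtain ⟨K, hK, hlog, -, h2⟩ := RP4.two_pt hd
  exact ⟨K, hK, hlog, fun f g hf hg => h2 f g (hf.smooth.of_le (by simp)) hf.supp hf.zero
    (hg.smooth.of_le (by simp)) hg.supp hg.zero⟩

/-- the constant of the two point function -/
noncomputable def Kc (hd : Deloc) : ℝ := Classical.choose (two_pt' hd)

lemma Kc_nonneg (hd : Deloc) : 0 ≤ Kc hd := (Classical.choose_spec (two_pt' hd)).1

lemma Kc_log (hd : Deloc) :
    Tendsto (fun x : V => gfun x / Real.log (Real.sqrt ((x.1 : ℝ) ^ 2 + (x.2 : ℝ) ^ 2))) cofinite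
      (𝓝 (Kc hd / Real.pi)) := (Classical.choose_spec (two_pt' hd)).2.1

lemma Kc_two (hd : Deloc) : TwoPt (Kc hd) := (Classical.choose_spec (two_pt' hd)).2.2

lemma logBd (hd : Deloc) : LogBd := by
  obtain ⟨C, hC, h⟩ := RP4.gfun_log_le (Kc_nonneg hd) (Kc_log hd)
  refine ⟨C, hC.le, fun x y => ?_⟩
  have h1 := RP4.mu_sq hd x y
  have h2 := h (x - y)
  simp only [Int.cast_sub, Prod.fst_sub, Prod.snd_sub] at h1 h2
  rw [h1]
  exact h2

/-- the limit field along an ultrafilter finer than the iterated filter -/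
noncomputable def latFld (hd : Deloc) (U : Ultrafilter (ℝ × Finset V))
    (hU : (U : Filter (ℝ × Finset V)) ≤ (𝓝[>] (0 : ℝ)).curry dom) : Fld ((ℝ × Finset V) × (V → ℤ)) :=
  Lat.fld hd (logBd hd) (Kc_nonneg hd) (Kc_two hd) U hU

variable (hd : Deloc) (U : Ultrafilter (ℝ × Finset V))
  (hU : (U : Filter (ℝ × Finset V)) ≤ (𝓝[>] (0 : ℝ)).curry dom)

lemma latFld_K : (latFld hd U hU).K = Kc hd := rfl

lemma latFld_X (f : Pl → ℝ) (p : ℝ × Finset V) (h : V → ℤ) :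
    (latFld hd U hU).X f (p, h) = ∑ x ∈ p.2, mass p.1 f x * (h x : ℝ) := rfl

lemma latFld_L {A : (ℝ × Finset V) × (V → ℤ) → ℝ} (hA : (latFld hd U hU).Ok A) :
    Tendsto (fun p : ℝ × Finset V => avg (Om p.2) (fun h => A (p, h))) U
      (𝓝 ((latFld hd U hU).L A)) := LU_tendsto hA

lemma latFld_ok_of_bdd {A : (ℝ × Finset V) × (V → ℤ) → ℝ} {B : ℝ} (h : ∀ i, |A i| ≤ B) :
    (latFld hd U hU).Ok A := okU_bounded hU h

lemma latFld_ok_YY {f : Pl → ℝ} (hf : Ne f) : (latFld hd U hU).Ok (YY f) :=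
  YY_ok hd (logBd hd) (Kc_two hd) hU hf

lemma latFld_YY {f : Pl → ℝ} (hf : Ne f) :
    (latFld hd U hU).L (fun i => (YY f i - (latFld hd U hU).X f i) ^ 2) = 0 :=
  YY_close hd (logBd hd) hU hf

end GF
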