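import Pool.Agent.Helper75.GF.L2b

/-!
# Project GF, lattice part L2c: the infinite volume pairing
-/

open MeasureTheory Filter Topology

namespace GF.Lat

open RP4 (V avg Om dom cell mass mu Loc Deloc BdryPar)

lemma Xd_eq {f : Pl → ℝ} {R δ : ℝ} (hδ : 0 < δ) (hR : 0 ≤ R)
    (hf : ∀ z, f z ≠ 0 → |z.1| ≤ R ∧ |z.2| ≤ R) {s : Finset V} (hs : win δ R ⊆ s) (h : V → ℤ) :
    Xd δ f h = ∑ x ∈ s, mass δ f x * (h x : ℝ) := by
  unfold Xd
  refine tsum_eq_sum fun x hx => ?_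
  rw [mass_off hδ hR hf (fun h => hx (hs h)), zero_mul]

/-- for neutral `f` the pairing is a function of the height differences in the window -/
lemma Xd_loc {f : Pl → ℝ} {R δ : ℝ} (hδ : 0 < δ) (hR : 0 ≤ R) (hi : Integrable f) (h0 : ∫ z, f z = 0)
    (hf : ∀ z, f z ≠ 0 → |z.1| ≤ R ∧ |z.2| ≤ R) : Loc (win δ R) (Xd δ f) := by
  intro h h' hh
  rw [Xd_eq hδ hR hf (Finset.Subset.refl _), Xd_eq hδ hR hf (Finset.Subset.refl _)]
  rcases (win δ R).eq_empty_or_nonempty with he | ⟨x₀, hx₀⟩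
  · rw [he, Finset.sum_empty, Finset.sum_empty]
  · have h1 : ∀ x ∈ win δ R, mass δ f x * (h x : ℝ) =
        mass δ f x * (h' x : ℝ) + mass δ f x * ((h x₀ - h' x₀ : ℤ) : ℝ) := by
      intro x hx
      have h2 := hh x hx x₀ hx₀
      have h3 : h x = h' x + (h x₀ - h' x₀) := by omega
      rw [h3, Int.cast_add, mul_add]
    rw [Finset.sum_congr rfl h1, Finset.sum_add_distrib, ← Finset.sum_mul,
      sum_mass hδ hR hi hf (Finset.Subset.refl _), h0, zero_mul, add_zero]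

end GF.Lat
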