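import Pool.Agent.Helper75.GF.L5

/-!
# Project GF, lattice part L8: axioms `mid` and `moment`
-/

open MeasureTheory Filter Topology

namespace GF.Lat

open RP4 (V avg Om dom cell mass mu Loc Deloc BdryPar)

/-- bounded functions are observables -/
lemma okU_bounded {U : Filter (ℝ × Finset V)} (hU : U ≤ itf) {A : Ix → ℝ} {B : ℝ} (h : ∀ i, |A i| ≤ B) :
    OkU U A :=
  OkU.of_abs_le (fun i => (h i).trans (le_abs_self B)) (OkU.const hU B)

private lemma L8_gauss_le {n : ℕ} (x a : Fin n → ℝ) :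
    |Real.exp (-(1 / 2) * ∑ j, (x j - a j) ^ 2)| ≤ 1 := by
  rw [abs_of_pos (Real.exp_pos _)]
  refine Real.exp_le_one_iff.2 ?_
  have h1 : 0 ≤ ∑ j, (x j - a j) ^ 2 := Finset.sum_nonneg fun j _ => sq_nonneg _
  linarith

private lemma L8_pos {U : Ultrafilter (ℝ × Finset V)} (hU : (U : Filter (ℝ × Finset V)) ≤ itf) :
    ∀ᶠ p in (U : Filter (ℝ × Finset V)), 0 < p.1 := by
  have h1 : ∀ᶠ δ in 𝓝[>] (0 : ℝ), 0 < δ := self_mem_nhdsWithin
  have h2 : ∀ᶠ p in itf, 0 < p.1 :=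
    itf_eventually.2 (h1.mono fun δ hδ => Eventually.of_forall fun _ => hδ)
  exact hU h2

/-- `GF.mid_gauss` in the domain `p.2`, `sum_abs_mass`, then the limit -/
theorem mid_U {U : Ultrafilter (ℝ × Finset V)} (hU : (U : Filter (ℝ × Finset V)) ≤ itf) (n : ℕ)
    (F : Fin n → Pl → ℝ) (a b : Fin n → ℝ) (hF : ∀ j, Ne (F j)) :
    LU U (fun i => Real.exp (-(1 / 2) * ∑ j, (XX (F j) i - a j) ^ 2)) *
      LU U (fun i => Real.exp (-(1 / 2) * ∑ j, (XX (F j) i - b j) ^ 2)) ≤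
    Real.exp (∑ j, (∫ z, |F j z|) ^ 2) *
      LU U (fun i => Real.exp (-(1 / 2) * ∑ j, (XX (F j) i - (a j + b j) / 2) ^ 2)) ^ 2 := by
  have ok : ∀ c : Fin n → ℝ, OkU (U : Filter (ℝ × Finset V))
      (fun i => Real.exp (-(1 / 2) * ∑ j, (XX (F j) i - c j) ^ 2)) := fun c =>
    okU_bounded hU (B := 1) fun i => L8_gauss_le (fun j => XX (F j) i) c
  have t1 := LU_tendsto (ok a)
  have t2 := LU_tendsto (ok b)
  have t3 := LU_tendsto (ok (fun j => (a j + b j) / 2))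
  refine le_of_tendsto_of_tendsto (t1.mul t2) ((t3.pow 2).const_mul _) ?_
  refine (L8_pos hU).mono fun p hp => ?_
  have h1 := GF.mid_gauss p.2 p.2 n (fun j => mass p.1 (F j)) a b
  have h2 : Real.exp (∑ j, (∑ x ∈ p.2, |mass p.1 (F j) x|) ^ 2) ≤
      Real.exp (∑ j, (∫ z, |F j z|) ^ 2) := by
    refine Real.exp_le_exp.2 (Finset.sum_le_sum fun j _ => ?_)
    exact pow_le_pow_left₀ (Finset.sum_nonneg fun x _ => abs_nonneg _)
      (sum_abs_mass hp (hF j).toCc.integrable p.2) 2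
  exact h1.trans (mul_le_mul_of_nonneg_right h2 (sq_nonneg _))

private lemma L8_pow {U : Filter (ℝ × Finset V)} {A : Ix → ℝ} (hA : OkU U A) (n : ℕ) :
    OkU U (fun i => |A i| ^ n) := by
  intro k
  obtain ⟨C, hC⟩ := hA (n * k)
  refine ⟨C, hC.mono fun p hp => ?_⟩
  refine le_trans (ev_mono p fun g _ => ?_) hp
  rw [abs_of_nonneg (pow_nonneg (abs_nonneg _) n), ← pow_mul]

/-- `ev_moment` in the limit (`0 ≤ K`): `√(K e) + l ≤ (√K + 1) (√e + l)` -/
theorem moment_U (hdl : Deloc) {K : ℝ} (hK : 0 ≤ K) (htwo : TwoPt K) {U : Ultrafilter (ℝ × Finset V)}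
    (hU : (U : Filter (ℝ × Finset V)) ≤ itf) (n : ℕ) :
    ∃ C : ℝ, ∀ f, Ne f → LU U (fun i => |XX f i| ^ n) ≤ C * nrm f ^ n := by
  obtain ⟨C, hC0, hC⟩ := ev_moment n
  refine ⟨C * (Real.sqrt K + 1) ^ n, fun f hf => ?_⟩
  have ok := okU_XX hdl htwo hU hf
  have ok2 : OkU (U : Filter (ℝ × Finset V)) (fun i => XX f i ^ 2) := by
    have h1 := ok.mul ok
    simp only [← pow_two] at h1
    exact h1
  have t1 := LU_tendsto (L8_pow ok n)
  have t2 := LU_tendsto ok2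
  have e2 : LU U (fun i => XX f i ^ 2) = K * energy2 f f := by
    rw [← LU_two hdl htwo hU hf hf]
    simp only [pow_two]
  rw [e2] at t2
  have t3 : Tendsto (fun p => C * (Real.sqrt (ev p (fun i => XX f i ^ 2)) + ∫ z, |f z|) ^ n)
      (U : Filter (ℝ × Finset V)) (𝓝 (C * (Real.sqrt (K * energy2 f f) + ∫ z, |f z|) ^ n)) :=
    (((t2.sqrt).add_const _).pow n).const_mul C
  have h3 : LU U (fun i => |XX f i| ^ n) ≤ C * (Real.sqrt (K * energy2 f f) + ∫ z, |f z|) ^ n := by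
    refine le_of_tendsto_of_tendsto t1 t3 ?_
    have hne : ∀ᶠ p in (U : Filter (ℝ × Finset V)), (Om p.2).Nonempty := hU itf_nonempty
    filter_upwards [L8_pos hU, hne] with p hp hp2
    exact hC p hp hp2 f hf.toCc.integrable
  refine h3.trans ?_
  rw [mul_assoc, ← mul_pow]
  refine mul_le_mul_of_nonneg_left ?_ hC0
  have hl : 0 ≤ ∫ z, |f z| := integral_nonneg fun z => abs_nonneg _
  have hs : 0 ≤ Real.sqrt (energy2 f f) := Real.sqrt_nonneg _
  have hk : 0 ≤ Real.sqrt K := Real.sqrt_nonneg _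
  refine pow_le_pow_left₀ (by positivity) ?_ n
  rw [Real.sqrt_mul hK]
  unfold nrm
  nlinarith [mul_nonneg hk hl]

end GF.Lat
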