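import Pool.Agent.Helper27.GF.Ax
import Pool.Agent.Helper63.RP4.T3
import Pool.Agent.Helper63.RP4.H0
import Pool.Agent.Helper63.RP4.Mu

/-!
# Project GF (MP_973bc8_pr), lattice part: definitions
-/

open MeasureTheory Filter Topology

namespace GF.Lat

open RP4 (V avg Om dom cell mass mu Loc Deloc BdryPar)

/-- the index type: scale, domain, height function -/
abbrev Ix := (ℝ × Finset V) × (V → ℤ)

/-- expectation at scale `p.1` in the domain `p.2` -/
noncomputable def ev (p : ℝ × Finset V) (A : Ix → ℝ) : ℝ := avg (Om p.2) (fun h => A (p, h))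

/-- the iterated filter: `D ↑ ℤ²` first, then `δ → 0+` -/
noncomputable def itf : Filter (ℝ × Finset V) := (𝓝[>] (0 : ℝ)).curry dom

/-- observables: all moments are eventually bounded -/
def OkU (U : Filter (ℝ × Finset V)) (A : Ix → ℝ) : Prop :=
  ∀ k : ℕ, ∃ C : ℝ, ∀ᶠ p in U, ev p (fun i => |A i| ^ k) ≤ C

/-- the limit functional -/
noncomputable def LU (U : Filter (ℝ × Finset V)) (A : Ix → ℝ) : ℝ := limUnder U (fun p => ev p A)

/-- the field: pairing of the height function at scale `δ` with `f` -/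
noncomputable def XX (f : Pl → ℝ) (i : Ix) : ℝ := ∑ x ∈ i.1.2, mass i.1.1 f x * (i.2 x : ℝ)

/-- the pairing in infinite volume -/
noncomputable def Xd (δ : ℝ) (f : Pl → ℝ) (h : V → ℤ) : ℝ := ∑' x : V, mass δ f x * (h x : ℝ)

/-- the window of the lattice sites whose cells meet `[-R, R]²` -/
noncomputable def win (δ R : ℝ) : Finset V :=
  Finset.Icc (-(⌈R / δ⌉ + 1)) (⌈R / δ⌉ + 1) ×ˢ Finset.Icc (-(⌈R / δ⌉ + 1)) (⌈R / δ⌉ + 1)

/-- `A` is represented by the local functions `F δ` -/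
def Rep (A : Ix → ℝ) (F : ℝ → (V → ℤ) → ℝ) : Prop :=
  ∀ᶠ δ in 𝓝[>] (0 : ℝ), (∃ s, Loc s (F δ)) ∧ ∀ᶠ D in dom, ∀ h ∈ Om D, A ((δ, D), h) = F δ h

/-- lattice height of a site in direction `d` -/
def ld (d : ℤ × ℤ) (x : V) : ℤ := d.1 * x.1 + d.2 * x.2

/-- the eight lattice directions -/
def DirZ (d : ℤ × ℤ) : Prop :=
  d = (1, 0) ∨ d = (-1, 0) ∨ d = (0, 1) ∨ d = (0, -1) ∨ d = (1, 1) ∨ d = (-1, -1) ∨ d = (1, -1) ∨ d = (-1, 1)

/-- a lattice direction as a vector of the plane -/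
def dr (d : ℤ × ℤ) : Pl := ((d.1 : ℝ), (d.2 : ℝ))

/-- reflection in the lattice line `ld d x = m` (the division is exact for the eight directions) -/
def lref (d : ℤ × ℤ) (m : ℤ) (x : V) : V :=
  (x.1 - 2 * (ld d x - m) / (d.1 ^ 2 + d.2 ^ 2) * d.1,
    x.2 - 2 * (ld d x - m) / (d.1 ^ 2 + d.2 ^ 2) * d.2)

end GF.Lat
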