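import Pool.Agent.Helper75.GF.L3c

/-!
# Project GF, lattice part L3d: the Cauchy-Schwarz inequality across a line
-/

open MeasureTheory Filter Topology

namespace GF.Lat

open RP4 (V avg Om dom cell mass mu Loc Deloc BdryPar)

private lemma cs_two {a₁ a₂ A₁ A₂ B₁ B₂ : ℝ} (hA₁ : 0 ≤ A₁) (hA₂ : 0 ≤ A₂) (hB₁ : 0 ≤ B₁)
    (hB₂ : 0 ≤ B₂) (h₁ : a₁ ^ 2 ≤ A₁ * B₁) (h₂ : a₂ ^ 2 ≤ A₂ * B₂) :
    (a₁ + a₂) ^ 2 ≤ (A₁ + A₂) * (B₁ + B₂) := by
  have h3 : (2 * (a₁ * a₂)) ^ 2 ≤ (A₁ * B₂ + A₂ * B₁) ^ 2 := by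
    have h4 : (a₁ * a₂) ^ 2 ≤ (A₁ * B₁) * (A₂ * B₂) := by
      rw [mul_pow]
      exact mul_le_mul h₁ h₂ (sq_nonneg _) (mul_nonneg hA₁ hB₁)
    nlinarith [sq_nonneg (A₁ * B₂ - A₂ * B₁)]
  have h5 : 2 * (a₁ * a₂) ≤ A₁ * B₂ + A₂ * B₁ :=
    le_trans (le_abs_self _) (abs_le_of_sq_le_sq h3 (by positivity))
  nlinarith

/-
Two component Cauchy-Schwarz inequality: with `⟨F, G⟩ = mu (F * G ∘ θ)`,
`(⟨F₁, G₁⟩ + ⟨F₂, G₂⟩)² ≤ (⟨F₁, F₁⟩ + ⟨F₂, F₂⟩) (⟨G₁, G₁⟩ + ⟨G₂, G₂⟩)`; from `mu_cs`, `mu_rp`.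
-/
theorem mu_cs_pair (hdl : Deloc) {d : ℤ × ℤ} (hd : DirZ d) (m : ℤ) {s : Finset V}
    (hs : ∀ x ∈ s, ld d x ≤ m) {F₁ F₂ G₁ G₂ : (V → ℤ) → ℝ} (hF₁ : Loc s F₁) (hF₂ : Loc s F₂)
    (hG₁ : Loc s G₁) (hG₂ : Loc s G₂) :
    (mu (fun h => F₁ h * G₁ (fun v => h (lref d m v)) + F₂ h * G₂ (fun v => h (lref d m v)))) ^ 2 ≤
      mu (fun h => F₁ h * F₁ (fun v => h (lref d m v)) + F₂ h * F₂ (fun v => h (lref d m v))) *
        mu (fun h => G₁ h * G₁ (fun v => h (lref d m v)) + G₂ h * G₂ (fun v => h (lref d m v))) := by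
  have hl : ∀ {F G : (V → ℤ) → ℝ}, Loc s F → Loc s G →
      Loc (s ∪ s.image (lref d m)) (fun h => F h * G (fun v => h (lref d m v))) := fun hF hG =>
    (hF.mono Finset.subset_union_left).mul ((loc_map hG (lref d m)).mono Finset.subset_union_right)
  rw [RP4.mu_add hdl (hl hF₁ hG₁) (hl hF₂ hG₂), RP4.mu_add hdl (hl hF₁ hF₁) (hl hF₂ hF₂),
    RP4.mu_add hdl (hl hG₁ hG₁) (hl hG₂ hG₂)]
  exact cs_two (mu_rp hdl hd m hs hF₁) (mu_rp hdl hd m hs hF₂) (mu_rp hdl hd m hs hG₁)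
    (mu_rp hdl hd m hs hG₂) (mu_cs hdl hd m hs hF₁ hG₁) (mu_cs hdl hd m hs hF₂ hG₂)

/-
Axiom `rp1` on the lattice.  `F, G` live behind the line, `H` ahead.  `H = Ĥ ∘ θ` with `Ĥ h = H (h ∘ θ)` local on `θ sp`.
`sin (G + H) = sin G * cos H + cos G * sin H`: `mu_cs_pair` with `F₁ = F sin G`, `F₂ = F cos G`, `G₁ = cos Ĥ`,
`G₂ = sin Ĥ`; the first factor is `mu (F * F ∘ θ * cos (G - G ∘ θ))`, the second is `mu (cos (Ĥ - Ĥ ∘ θ)) ≤ 1`.
-/
theorem rp1_lat (hdl : Deloc) {d : ℤ × ℤ} (hd : DirZ d) (m : ℤ) {sm sp : Finset V}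
    (hsm : ∀ x ∈ sm, ld d x ≤ m) (hsp : ∀ x ∈ sp, m ≤ ld d x) {F G H : (V → ℤ) → ℝ}
    (hF : Loc sm F) (hG : Loc sm G) (hH : Loc sp H) :
    (mu (fun h => F h * Real.sin (G h + H h))) ^ 2 ≤
      mu (fun h => F h * F (fun v => h (lref d m v)) *
        Real.cos (G h - G (fun v => h (lref d m v)))) := by
  classical
  set s : Finset V := sm ∪ sp.image (lref d m) with hsdef
  have hs : ∀ x ∈ s, ld d x ≤ m := by
    intro x hx
    rcases Finset.mem_union.mp hx with h1 | h1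
    · exact hsm x h1
    · obtain ⟨y, hy, rfl⟩ := Finset.mem_image.mp h1
      have h2 := hsp y hy
      rw [ld_lref hd]
      omega
  have hFs : Loc s F := hF.mono Finset.subset_union_left
  have hGs : Loc s G := hG.mono Finset.subset_union_left
  have hHs : Loc s (fun h => H (fun v => h (lref d m v))) :=
    (loc_map hH (lref d m)).mono Finset.subset_union_right
  have hback : ∀ h : V → ℤ, H (fun v => (fun u => h (lref d m u)) (lref d m v)) = H h := by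
    intro h
    congr 1
    funext v
    simp only [lref_lref hd]
  have key := mu_cs_pair hdl hd m hs (hFs.mul (hGs.comp Real.sin)) (hFs.mul (hGs.comp Real.cos))
    (hHs.comp Real.cos) (hHs.comp Real.sin)
  have e1 : (fun h : V → ℤ => F h * Real.sin (G h + H h)) = fun h =>
      F h * Real.sin (G h) * Real.cos (H (fun v => (fun u => h (lref d m u)) (lref d m v))) +
        F h * Real.cos (G h) *
          Real.sin (H (fun v => (fun u => h (lref d m u)) (lref d m v))) := by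
    funext h
    rw [hback h, Real.sin_add]
    ring
  have e2 : (fun h : V → ℤ => F h * F (fun v => h (lref d m v)) *
      Real.cos (G h - G (fun v => h (lref d m v)))) = fun h =>
      F h * Real.sin (G h) * (F (fun v => h (lref d m v)) *
        Real.sin (G (fun v => h (lref d m v)))) +
        F h * Real.cos (G h) * (F (fun v => h (lref d m v)) *
          Real.cos (G (fun v => h (lref d m v)))) := by
    funext h
    rw [Real.cos_sub]
    ring
  rw [e1, e2]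
  refine key.trans ?_
  have hl : ∀ {F G : (V → ℤ) → ℝ}, Loc s F → Loc s G →
      Loc (s ∪ s.image (lref d m)) (fun h => F h * G (fun v => h (lref d m v))) := fun hF hG =>
    (hF.mono Finset.subset_union_left).mul ((loc_map hG (lref d m)).mono Finset.subset_union_right)
  have h1 := mu_rp hdl hd m hs (hFs.mul (hGs.comp Real.sin))
  have h2 := mu_rp hdl hd m hs (hFs.mul (hGs.comp Real.cos))
  have h3 := RP4.mu_add hdl (hl (hFs.mul (hGs.comp Real.sin)) (hFs.mul (hGs.comp Real.sin)))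
    (hl (hFs.mul (hGs.comp Real.cos)) (hFs.mul (hGs.comp Real.cos)))
  have h4 : mu (fun h => Real.cos (H (fun v => h (lref d m v))) *
      Real.cos (H (fun v => (fun u => h (lref d m u)) (lref d m v))) +
      Real.sin (H (fun v => h (lref d m v))) *
        Real.sin (H (fun v => (fun u => h (lref d m u)) (lref d m v)))) ≤ 1 := by
    rw [← RP4.mu_const 1]
    refine RP4.mu_mono hdl ((hl (hHs.comp Real.cos) (hHs.comp Real.cos)).add
      (hl (hHs.comp Real.sin) (hHs.comp Real.sin))) (Loc.const _ 1) (fun g _ => ?_)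
    rw [← Real.cos_sub]
    exact Real.cos_le_one _
  refine mul_le_of_le_one_right ?_ h4
  rw [h3]
  exact add_nonneg h1 h2

end GF.Lat
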