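import Pool.Agent.Helper75.GF.L1c

/-!
# Project GF, lattice part L1: the functional as a `Lim`
-/

open MeasureTheory Filter Topology

namespace GF.Lat

open RP4 (V avg Om dom cell mass mu Loc Deloc BdryPar)

/-- the positive normalised functional -/
noncomputable def limU (U : Ultrafilter (ℝ × Finset V)) (hU : (U : Filter (ℝ × Finset V)) ≤ itf) :
    Lim Ix where
  Ok := OkU U
  L := LU U
  ok_const := fun c => OkU.const hU c
  ok_add := fun _ _ hA hB => hA.add hB
  ok_mul := fun _ _ hA hB => hA.mul hB
  ok_of_abs_le := fun _ _ h hB => OkU.of_abs_le h hB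
  L_add := fun _ _ hA hB => LU_add hA hB
  L_smul := fun c _ hA => LU_smul c hA
  L_mono := fun _ _ hA hB h => LU_mono hA hB h
  L_one := LU_one hU

end GF.Lat
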