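import Pool.Agent.Helper75.GF.L2

/-!
# Project GF, lattice part L3a: reflections
-/

open MeasureTheory Filter Topology

namespace GF.Lat

open RP4 (V avg Om dom cell mass mu Loc Deloc BdryPar)

lemma dr_dir {d : ℤ × ℤ} (hd : DirZ d) : Dir (dr d) := by
  unfold Dir dr
  rcases hd with rfl | rfl | rfl | rfl | rfl | rfl | rfl | rfl <;> simp

lemma dir_eq {d : Pl} (hd : Dir d) : ∃ e : ℤ × ℤ, DirZ e ∧ d = dr e := by
  rcases hd with rfl | rfl | rfl | rfl | rfl | rfl | rfl | rfl
  · exact ⟨(1, 0), by unfold DirZ; simp, by unfold dr; simp⟩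
  · exact ⟨(-1, 0), by unfold DirZ; simp, by unfold dr; simp⟩
  · exact ⟨(0, 1), by unfold DirZ; simp, by unfold dr; simp⟩
  · exact ⟨(0, -1), by unfold DirZ; simp, by unfold dr; simp⟩
  · exact ⟨(1, 1), by unfold DirZ; simp, by unfold dr; simp⟩
  · exact ⟨(-1, -1), by unfold DirZ; simp, by unfold dr; simp⟩
  · exact ⟨(1, -1), by unfold DirZ; simp, by unfold dr; simp⟩
  · exact ⟨(-1, 1), by unfold DirZ; simp, by unfold dr; simp⟩

/-- the value of the lattice reflection: with `q = 2 (ld d x - m) / |d|²` one has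
`q |d|² = 2 (ld d x - m)` -/
private lemma lref_spec {d : ℤ × ℤ} (hd : DirZ d) (m : ℤ) (x : V) :
    ∃ q : ℤ, q * (d.1 ^ 2 + d.2 ^ 2) = 2 * (ld d x - m) ∧
      lref d m x = (x.1 - q * d.1, x.2 - q * d.2) := by
  refine ⟨2 * (ld d x - m) / (d.1 ^ 2 + d.2 ^ 2), ?_, rfl⟩
  rcases hd with rfl | rfl | rfl | rfl | rfl | rfl | rfl | rfl <;> norm_num <;> omega

private lemma dir_sq {d : ℤ × ℤ} (hd : DirZ d) : d.1 ^ 2 + d.2 ^ 2 = 1 ∨ d.1 ^ 2 + d.2 ^ 2 = 2 := by
  rcases hd with rfl | rfl | rfl | rfl | rfl | rfl | rfl | rfl <;> norm_num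

private lemma ld_lref' {d : ℤ × ℤ} (hd : DirZ d) (m : ℤ) (x : V) :
    ld d (lref d m x) = 2 * m - ld d x := by
  obtain ⟨q, hq, hx⟩ := lref_spec hd m x
  rw [hx]
  unfold ld at hq ⊢
  simp only
  linarith

lemma lref_lref {d : ℤ × ℤ} (hd : DirZ d) (m : ℤ) (x : V) : lref d m (lref d m x) = x := by
  obtain ⟨q, hq, hx⟩ := lref_spec hd m x
  obtain ⟨r, hr, hy⟩ := lref_spec hd m (lref d m x)
  have h1 : r = -q := by
    rw [ld_lref' hd] at hr
    rcases dir_sq hd with h | h
    · rw [h] at hq hr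
      linarith
    · rw [h] at hq hr
      linarith
  rw [hy, hx, h1]
  ext
  · simp
  · simp

/-- height of the reflected site -/
lemma ld_lref {d : ℤ × ℤ} (hd : DirZ d) (m : ℤ) (x : V) : ld d (lref d m x) = 2 * m - ld d x :=
  ld_lref' hd m x

/-- sites on the line are fixed -/
lemma lref_fix {d : ℤ × ℤ} (_hd : DirZ d) {m : ℤ} {x : V} (hx : ld d x = m) : lref d m x = x := by
  unfold lref
  rw [hx, sub_self, mul_zero, Int.zero_ediv, zero_mul, zero_mul, sub_zero, sub_zero]

/-- there are sites on every line -/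
lemma exists_line {d : ℤ × ℤ} (hd : DirZ d) (m : ℤ) : ∃ w : V, ld d w = m := by
  unfold ld
  rcases hd with rfl | rfl | rfl | rfl | rfl | rfl | rfl | rfl
  · exact ⟨(m, 0), by simp⟩
  · exact ⟨(-m, 0), by simp⟩
  · exact ⟨(0, m), by simp⟩
  · exact ⟨(0, -m), by simp⟩
  · exact ⟨(m, 0), by simp⟩
  · exact ⟨(-m, 0), by simp⟩
  · exact ⟨(m, 0), by simp⟩
  · exact ⟨(-m, 0), by simp⟩

/-- `refl` on `δ ℤ²` is the lattice reflection -/
lemma refl_lattice {d : ℤ × ℤ} (hd : DirZ d) (δ : ℝ) (m : ℤ) (x : V) :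
    refl (dr d) (δ * m) (δ * x.1, δ * x.2) = (δ * (lref d m x).1, δ * (lref d m x).2) := by
  obtain ⟨q, hq, hx⟩ := lref_spec hd m x
  rw [hx]
  have hq' : (q : ℝ) * ((d.1 : ℝ) ^ 2 + (d.2 : ℝ) ^ 2) =
      2 * ((d.1 : ℝ) * x.1 + d.2 * x.2 - m) := by
    unfold ld at hq
    exact_mod_cast hq
  have hn : ((d.1 : ℝ) ^ 2 + (d.2 : ℝ) ^ 2) ≠ 0 := by
    rcases dir_sq hd with h | h
    · have : ((d.1 : ℝ) ^ 2 + (d.2 : ℝ) ^ 2) = 1 := by exact_mod_cast h
      rw [this]; norm_num
    · have : ((d.1 : ℝ) ^ 2 + (d.2 : ℝ) ^ 2) = 2 := by exact_mod_cast h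
      rw [this]; norm_num
  have h1 : 2 * (ell (dr d) (δ * x.1, δ * x.2) - δ * m) / ((dr d).1 ^ 2 + (dr d).2 ^ 2) =
      δ * q := by
    unfold ell dr
    simp only
    rw [div_eq_iff hn, mul_assoc, hq']
    ring
  unfold refl
  rw [h1]
  unfold dr
  ext
  · simp only
    push_cast
    ring
  · simp only
    push_cast
    ring

/-- `refl (dr d) s` preserves Lebesgue measure -/
lemma refl_measurePreserving {d : ℤ × ℤ} (hd : DirZ d) (s : ℝ) :
    MeasurePreserving (refl (dr d) s) (volume : Measure Pl) volume := by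
  have hs : ∀ c : ℝ, MeasurePreserving (fun t : ℝ => c - t) volume volume := fun c =>
    Measure.measurePreserving_sub_left volume c
  have ha : ∀ c : ℝ, MeasurePreserving (fun t : ℝ => t + c) volume volume := fun c =>
    measurePreserving_add_right volume c
  have hid : MeasurePreserving (fun t : ℝ => t) volume volume := MeasurePreserving.id _
  have hsw : MeasurePreserving (fun z : Pl => ((z.2, z.1) : Pl)) volume volume :=
    Measure.measurePreserving_swap
  have hp : ∀ {f g : ℝ → ℝ}, MeasurePreserving f volume volume →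
      MeasurePreserving g volume volume →
      MeasurePreserving (fun z : Pl => ((f z.1, g z.2) : Pl)) volume volume :=
    fun hf hg => hf.prod hg
  have hq : ∀ {f g : ℝ → ℝ}, MeasurePreserving f volume volume →
      MeasurePreserving g volume volume →
      MeasurePreserving (fun z : Pl => ((f z.2, g z.1) : Pl)) volume volume :=
    fun hf hg => (hp hf hg).comp hsw
  have hc : ∀ {F H : Pl → Pl}, MeasurePreserving H volume volume → (∀ z, F z = H z) →
      MeasurePreserving F volume volume := by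
    intro F H h1 h2
    have : F = H := funext h2
    rw [this]
    exact h1
  rcases hd with rfl | rfl | rfl | rfl | rfl | rfl | rfl | rfl
  · refine hc (hp (hs (2 * s)) hid) fun z => ?_
    ext
    · simp [refl, ell, dr]; ring
    · simp [refl, ell, dr]
  · refine hc (hp (hs (-2 * s)) hid) fun z => ?_
    ext
    · simp [refl, ell, dr]; ring
    · simp [refl, ell, dr]
  · refine hc (hp hid (hs (2 * s))) fun z => ?_
    ext
    · simp [refl, ell, dr]
    · simp [refl, ell, dr]; ring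
  · refine hc (hp hid (hs (-2 * s))) fun z => ?_
    ext
    · simp [refl, ell, dr]
    · simp [refl, ell, dr]; ring
  · refine hc (hq (hs s) (hs s)) fun z => ?_
    ext
    · simp [refl, ell, dr]; ring
    · simp [refl, ell, dr]; ring
  · refine hc (hq (hs (-s)) (hs (-s))) fun z => ?_
    ext
    · simp [refl, ell, dr]; ring
    · simp [refl, ell, dr]; ring
  · refine hc (hq (ha s) (ha (-s))) fun z => ?_
    ext
    · simp [refl, ell, dr]; ring
    · simp [refl, ell, dr]; ring
  · refine hc (hq (ha (-s)) (ha s)) fun z => ?_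
    ext
    · simp [refl, ell, dr]; ring
    · simp [refl, ell, dr]; ring

lemma refl_refl {d : ℤ × ℤ} (hd : DirZ d) (s : ℝ) (z : Pl) :
    refl (dr d) s (refl (dr d) s z) = z := by
  rcases hd with rfl | rfl | rfl | rfl | rfl | rfl | rfl | rfl <;> ext <;>
    simp [refl, ell, dr] <;> ring

end GF.Lat
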