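import Pool.Agent.Helper75.GF.L5

/-!
# Project GF, lattice part L7: axiom `rp2`
-/

open MeasureTheory Filter Topology

namespace GF.Lat

open RP4 (V avg Om dom cell mass mu Loc Deloc BdryPar)

private lemma L7_loc {d : ℤ × ℤ} {δ R : ℝ} (hδ : 0 < δ) (hR : 0 ≤ R) {f : Pl → ℝ} (hf : Ne f)
    (hfR : ∀ z, f z ≠ 0 → |z.1| ≤ R ∧ |z.2| ≤ R) {m : ℤ} (hm : ∀ x, mass δ f x ≠ 0 → ld d x ≤ m) :
    Loc ((win δ R).filter (fun x => ld d x ≤ m)) (Xd δ f) := by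
  have hi : Integrable f := hf.toCc.integrable
  have h1 : ∀ h : V → ℤ, Xd δ f h =
      ∑ x ∈ (win δ R).filter (fun x => ld d x ≤ m), mass δ f x * (h x : ℝ) := by
    intro h
    rw [Xd_eq hδ hR hfR (Finset.Subset.refl _) h]
    refine (Finset.sum_filter_of_ne fun x _ hx => hm x fun h0 => hx ?_).symm
    rw [h0, zero_mul]
  have h0 : ∑ x ∈ (win δ R).filter (fun x => ld d x ≤ m), mass δ f x = 0 := by
    rw [Finset.sum_filter_of_ne fun x _ hx => hm x hx,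
      sum_mass hδ hR hi hfR (Finset.Subset.refl _), hf.zero]
  intro h h' hh
  rw [h1 h, h1 h']
  rcases ((win δ R).filter (fun x => ld d x ≤ m)).eq_empty_or_nonempty with he | ⟨w, hw⟩
  · rw [he, Finset.sum_empty, Finset.sum_empty]
  · have h2 : ∀ g : V → ℤ, ∑ x ∈ (win δ R).filter (fun x => ld d x ≤ m), mass δ f x * (g x : ℝ) =
        ∑ x ∈ (win δ R).filter (fun x => ld d x ≤ m), mass δ f x * ((g x : ℝ) - g w) := by
      intro g
      have h3 : ∑ x ∈ (win δ R).filter (fun x => ld d x ≤ m), mass δ f x * ((g x : ℝ) - g w) =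
          ∑ x ∈ (win δ R).filter (fun x => ld d x ≤ m), mass δ f x * (g x : ℝ) -
            (∑ x ∈ (win δ R).filter (fun x => ld d x ≤ m), mass δ f x) * (g w : ℝ) := by
        rw [Finset.sum_mul, ← Finset.sum_sub_distrib]
        exact Finset.sum_congr rfl fun x _ => by ring
      rw [h3, h0, zero_mul, sub_zero]
    rw [h2 h, h2 h']
    refine Finset.sum_congr rfl fun x hx => ?_
    have h4 := hh x hx w hw
    have h5 : (h x : ℝ) - h w = (h' x : ℝ) - h' w := by exact_mod_cast h4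
    rw [h5]

private lemma L7_alat {d : ℤ × ℤ} {δ R : ℝ} {f g : Pl → ℝ} {m : ℤ}
    (hm : ∀ x, mass δ g x ≠ 0 → ld d x ≤ m) (j : ℤ) :
    mu (fun h => Xd δ f h * Xd δ f (fun v => h (lref d j v)) *
      Real.cos (∑ x ∈ win δ R, mass δ g x * ((h x : ℝ) - h (lref d j x)))) =
      alat d (Xd δ f) (mass δ g) ((win δ R).filter (fun x => ld d x ≤ m)) j := by
  unfold alat
  congr 1
  funext h
  rw [Finset.sum_filter_of_ne fun x _ hx => hm x fun h0 => hx ?_]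
  rw [h0, zero_mul]

private lemma L7_floor {δ : ℝ} (hδ : 0 < δ) (s : ℝ) :
    δ * (⌊s / δ⌋ : ℝ) ≤ s ∧ s < δ * (⌊s / δ⌋ : ℝ) + δ := by
  have h1 := Int.floor_le (s / δ)
  have h2 := Int.lt_floor_add_one (s / δ)
  rw [le_div_iff₀ hδ] at h1
  rw [div_lt_iff₀ hδ] at h2
  constructor
  · linarith
  · linarith

/-
Let `a = ⌊s / δ⌋`, `b = ⌊t / δ⌋`, `k = (b - a) / 2` (integer division), `p = a + k`.  Then `δ (p - k) = δ a`, `δ (p + k)`,
`δ p` differ from `s`, `t`, `(s + t) / 2` by at most `2 δ`.  The masses of `lap f`, `g` live at sites with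
`ld d x ≤ a = p - k` (`mass_behind`), so `rp2_lat` applies to `F = Xd δ (lap f)` (local on these sites of the window), the
weights `mass δ g` and the set `s` of these sites (the sum over the window in `AA_rep` is the same).  Let `δ → 0` along `U`:
`AA_rep`, `AA_close`, `Rep.sq_le_mul`.
-/
theorem rp2_U (hdl : Deloc) (hlog : LogBd) {K : ℝ} (htwo : TwoPt K) {U : Ultrafilter (ℝ × Finset V)}
    (hU : (U : Filter (ℝ × Finset V)) ≤ itf) {d : ℤ × ℤ} (hd : DirZ d) (s t : ℝ) (hst : s ≤ t) {f g : Pl → ℝ}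
    (hf : Cc f) (hg : Cc g) (h1 : tsupport f ⊆ {z | ell (dr d) z < s})
    (h2 : tsupport g ⊆ {z | ell (dr d) z < s}) :
    LU U (AA d f g (fun _ => (s + t) / 2)) ^ 2 ≤
      LU U (AA d f g (fun _ => s)) * LU U (AA d f g (fun _ => t)) := by
  obtain ⟨R₁, hR₁, hf₁⟩ := cc_box hf.lap
  obtain ⟨R₂, hR₂, hg₂⟩ := cc_box hg
  have hR : 0 < max R₁ R₂ := lt_max_of_lt_left hR₁
  have hfR : ∀ z, lap f z ≠ 0 → |z.1| ≤ max R₁ R₂ ∧ |z.2| ≤ max R₁ R₂ := fun z hz =>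
    ⟨(hf₁ z hz).1.trans (le_max_left _ _), (hf₁ z hz).2.trans (le_max_left _ _)⟩
  have hgR : ∀ z, g z ≠ 0 → |z.1| ≤ max R₁ R₂ ∧ |z.2| ≤ max R₁ R₂ := fun z hz =>
    ⟨(hg₂ z hz).1.trans (le_max_right _ _), (hg₂ z hz).2.trans (le_max_right _ _)⟩
  set k : ℝ → ℤ := fun δ => (⌊t / δ⌋ - ⌊s / δ⌋) / 2 with hk
  set p : ℝ → ℤ := fun δ => ⌊s / δ⌋ + k δ with hp
  have hpos : ∀ᶠ δ in 𝓝[>] (0 : ℝ), 0 < δ := self_mem_nhdsWithin
  have hkb : ∀ δ : ℝ, ⌊t / δ⌋ - ⌊s / δ⌋ - 1 ≤ 2 * k δ ∧ 2 * k δ ≤ ⌊t / δ⌋ - ⌊s / δ⌋ := by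
    intro δ
    simp only [hk]
    omega
  have hkr : ∀ δ : ℝ, (⌊t / δ⌋ : ℝ) - ⌊s / δ⌋ - 1 ≤ 2 * (k δ : ℝ) ∧
      2 * (k δ : ℝ) ≤ (⌊t / δ⌋ : ℝ) - ⌊s / δ⌋ := by
    intro δ
    have h := hkb δ
    constructor
    · exact_mod_cast h.1
    · exact_mod_cast h.2
  have hrs : ∀ᶠ δ in 𝓝[>] (0 : ℝ), |δ * ((p δ - k δ : ℤ) : ℝ) - s| ≤ 2 * δ := by
    filter_upwards [hpos] with δ hδ
    have h3 := L7_floor hδ s
    have h4 : ((p δ - k δ : ℤ) : ℝ) = (⌊s / δ⌋ : ℝ) := by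
      simp only [hp]
      push_cast
      ring
    rw [h4, abs_le]
    constructor <;> linarith
  have hrt : ∀ᶠ δ in 𝓝[>] (0 : ℝ), |δ * ((p δ + k δ : ℤ) : ℝ) - t| ≤ 2 * δ := by
    filter_upwards [hpos] with δ hδ
    have h3 := L7_floor hδ t
    have h5 := hkr δ
    have h4 : ((p δ + k δ : ℤ) : ℝ) = (⌊s / δ⌋ : ℝ) + 2 * (k δ : ℝ) := by
      simp only [hp]
      push_cast
      ring
    have h6 : δ * ((⌊s / δ⌋ : ℝ) + 2 * (k δ : ℝ)) ≤ δ * (⌊t / δ⌋ : ℝ) :=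
      mul_le_mul_of_nonneg_left (by linarith) hδ.le
    have h7 : δ * ((⌊t / δ⌋ : ℝ) - 1) ≤ δ * ((⌊s / δ⌋ : ℝ) + 2 * (k δ : ℝ)) :=
      mul_le_mul_of_nonneg_left (by linarith) hδ.le
    rw [h4, abs_le]
    constructor <;> linarith
  have hrm : ∀ᶠ δ in 𝓝[>] (0 : ℝ), |δ * (p δ : ℝ) - (s + t) / 2| ≤ 2 * δ := by
    filter_upwards [hpos] with δ hδ
    have h3 := L7_floor hδ s
    have h3' := L7_floor hδ t
    have h5 := hkr δ
    have h4 : (p δ : ℝ) = (⌊s / δ⌋ : ℝ) + (k δ : ℝ) := by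
      simp only [hp]
      push_cast
      ring
    have h6 : δ * ((⌊s / δ⌋ : ℝ) + 2 * (k δ : ℝ)) ≤ δ * (⌊t / δ⌋ : ℝ) :=
      mul_le_mul_of_nonneg_left (by linarith) hδ.le
    have h7 : δ * ((⌊t / δ⌋ : ℝ) - 1) ≤ δ * ((⌊s / δ⌋ : ℝ) + 2 * (k δ : ℝ)) :=
      mul_le_mul_of_nonneg_left (by linarith) hδ.le
    rw [h4, abs_le]
    constructor <;> nlinarith
  have cm := AA_close hdl hlog htwo hd hf hg (fun δ => δ * (p δ : ℝ)) ((s + t) / 2) hrm hU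
  have cs := AA_close hdl hlog htwo hd hf hg (fun δ => δ * ((p δ - k δ : ℤ) : ℝ)) s hrs hU
  have ct := AA_close hdl hlog htwo hd hf hg (fun δ => δ * ((p δ + k δ : ℤ) : ℝ)) t hrt hU
  rw [← cm.2, ← cs.2, ← ct.2]
  refine Rep.sq_le_mul hdl hU (AA_rep hd hf hg hR hfR hgR p _ hrm)
    (AA_rep hd hf hg hR hfR hgR (fun δ => p δ - k δ) _ hrs)
    (AA_rep hd hf hg hR hfR hgR (fun δ => p δ + k δ) _ hrt) cm.1 cs.1 ct.1 ?_
  have hbf := mass_behind hd hf.lap ((tsupport_lap f).trans h1)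
  have hbg := mass_behind hd hg h2
  filter_upwards [hpos, hbf, hbg] with δ hδ hδf hδg
  rw [L7_alat hδg, L7_alat hδg, L7_alat hδg]
  refine rp2_lat hdl hd (p δ) (k δ) ?_ (fun x hx => ?_)
    (L7_loc hδ hR.le hf.ne_lap hfR hδf) (mass δ g)
  · have h3 : ⌊s / δ⌋ ≤ ⌊t / δ⌋ := Int.floor_le_floor (div_le_div_of_nonneg_right hst hδ.le)
    have h4 := hkb δ
    omega
  · have h3 := (Finset.mem_filter.1 hx).2
    have h4 : p δ - k δ = ⌊s / δ⌋ := by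
      simp only [hp]
      ring
    rw [h4]
    exact h3

end GF.Lat
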