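import Pool.Agent.Helper75.GF.L6
import Pool.Agent.Helper75.GF.L7
import Pool.Agent.Helper75.GF.L8

/-!
# Project GF, lattice part: the limit field
-/

open MeasureTheory Filter Topology

namespace GF.Lat

open RP4 (V avg Om dom cell mass mu Loc Deloc BdryPar)

/-- the limit field along an ultrafilter finer than the iterated filter -/
noncomputable def fld (hdl : Deloc) (hlog : LogBd) {K : ℝ} (hK : 0 ≤ K) (htwo : TwoPt K)
    (U : Ultrafilter (ℝ × Finset V)) (hU : (U : Filter (ℝ × Finset V)) ≤ itf) : Fld Ix where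
  toLim := limU U hU
  X := XX
  K := K
  K_nonneg := hK
  X_add := fun _ _ hf hg i => XX_add hf.toCc.integrable hg.toCc.integrable i
  X_smul := fun c f _ i => XX_smul c f i
  ok_X := fun _ hf => okU_XX hdl htwo hU hf
  two := fun _ _ hf hg => LU_two hdl htwo hU hf hg
  odd := fun f _ => LU_odd U f
  moment := fun n => moment_U hdl hK htwo hU n
  rp1 := by
    intro d s f gm gp hd hf hgm hgp h0 h1 h2 h3
    obtain ⟨e, he, rfl⟩ := dir_eq hd
    exact rp1_U hdl hlog htwo hU he s hf hgm hgp h0 h1 h2 h3
  rp2 := by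
    intro d s t f g hd hf hg hst h1 h2
    obtain ⟨e, he, rfl⟩ := dir_eq hd
    exact rp2_U hdl hlog htwo hU he s t hst hf hg h1 h2
  mid := fun n F a b hF => mid_U hU n F a b hF

end GF.Lat
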