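import Pool.Agent.Helper75.GF.L0

/-!
# Project GF, lattice part L1a: the iterated filter and averages
-/

open MeasureTheory Filter Topology

namespace GF.Lat

open RP4 (V avg Om dom cell mass mu Loc Deloc BdryPar)

/-- `Filter.eventually_curry_iff` -/
lemma itf_eventually {S : ℝ × Finset V → Prop} :
    (∀ᶠ p in itf, S p) ↔ ∀ᶠ δ in 𝓝[>] (0 : ℝ), ∀ᶠ D in dom, S (δ, D) := by
  unfold itf
  exact eventually_curry_iff

/-- the iterated filter is proper (`RP4.diam_tendsto` shows that `dom` is proper) -/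
lemma itf_neBot : itf.NeBot := by
  unfold itf
  have hd : dom.NeBot := RP4.dom_neBot
  refine ⟨fun h => ?_⟩
  have h1 : ∀ᶠ p in (𝓝[>] (0 : ℝ)).curry dom, False := by
    rw [h]
    exact eventually_bot
  rw [eventually_curry_iff] at h1
  obtain ⟨δ, h2⟩ := h1.exists
  obtain ⟨D, h3⟩ := h2.exists
  exact h3

/-- the zero boundary height functions exist: `v ↦ par v mod 2` on `D`.  `dom` is supported by `BdryPar D 0`. -/
lemma dom_nonempty : ∀ᶠ D in dom, (Om D).Nonempty := by
  rw [RP4.eventually_dom]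
  exact ⟨∅, fun D _ hD => RP4.Om_nonempty hD⟩

lemma itf_nonempty : ∀ᶠ p in itf, (Om p.2).Nonempty := by
  rw [itf_eventually]; exact Eventually.of_forall fun _ => dom_nonempty

lemma ev_add (p : ℝ × Finset V) (A B : Ix → ℝ) : ev p (fun i => A i + B i) = ev p A + ev p B := by
  unfold ev avg
  rw [Finset.sum_add_distrib, add_div]

lemma ev_smul (p : ℝ × Finset V) (c : ℝ) (A : Ix → ℝ) : ev p (fun i => c * A i) = c * ev p A := by
  unfold ev avg
  rw [← Finset.mul_sum, mul_div_assoc]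

lemma ev_mono (p : ℝ × Finset V) {A B : Ix → ℝ} (h : ∀ g ∈ Om p.2, A (p, g) ≤ B (p, g)) :
    ev p A ≤ ev p B := by
  unfold ev avg
  exact div_le_div_of_nonneg_right (Finset.sum_le_sum h) (Nat.cast_nonneg _)

lemma ev_const {p : ℝ × Finset V} (hp : (Om p.2).Nonempty) (c : ℝ) : ev p (fun _ => c) = c := by
  unfold ev avg
  rw [Finset.sum_const, nsmul_eq_mul]
  have h : ((Om p.2).card : ℝ) ≠ 0 := by
    exact_mod_cast (Finset.card_pos.2 hp).ne'
  field_simp

lemma ev_congr (p : ℝ × Finset V) {A B : Ix → ℝ} (h : ∀ g ∈ Om p.2, A (p, g) = B (p, g)) :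
    ev p A = ev p B := by
  unfold ev avg
  rw [Finset.sum_congr rfl h]

/-- Cauchy-Schwarz -/
lemma ev_cs (p : ℝ × Finset V) (A B : Ix → ℝ) :
    (ev p (fun i => A i * B i)) ^ 2 ≤ ev p (fun i => A i ^ 2) * ev p (fun i => B i ^ 2) := by
  unfold ev avg
  have h := Finset.sum_mul_sq_le_sq_mul_sq (Om p.2) (fun g => A (p, g)) (fun g => B (p, g))
  rw [div_pow, div_mul_div_comm, ← pow_two ((Om p.2).card : ℝ)]
  exact div_le_div_of_nonneg_right h (by positivity)

end GF.Lat
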