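import Pool.Agent.Helper75.GF.L1a

/-!
# Project GF, lattice part L1b: algebra of observables
-/

open MeasureTheory Filter Topology

namespace GF.Lat

open RP4 (V avg Om dom cell mass mu Loc Deloc BdryPar)

variable {U : Filter (ℝ × Finset V)}

lemma OkU.const (hU : U ≤ itf) (c : ℝ) : OkU U (fun _ => c) := by
  intro k
  have h1 : ∀ᶠ p in U, (Om p.2).Nonempty := hU itf_nonempty
  refine ⟨|c| ^ k, h1.mono fun p hp => ?_⟩
  exact (ev_const hp (|c| ^ k)).le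

/-- `(|A| + |B|)^k ≤ 2^k (|A|^k + |B|^k)` -/
lemma OkU.add {A B : Ix → ℝ} (hA : OkU U A) (hB : OkU U B) : OkU U (fun i => A i + B i) := by
  intro k
  obtain ⟨a, ha⟩ := hA k
  obtain ⟨b, hb⟩ := hB k
  refine ⟨2 ^ (k - 1) * (a + b), ?_⟩
  filter_upwards [ha, hb] with p h1 h2
  calc ev p (fun i => |A i + B i| ^ k)
      ≤ ev p (fun i => 2 ^ (k - 1) * (|A i| ^ k + |B i| ^ k)) := by
        refine ev_mono p fun g _ => ?_
        exact (pow_le_pow_left₀ (abs_nonneg _) (abs_add_le _ _) k).trans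
          (add_pow_le (abs_nonneg _) (abs_nonneg _) k)
    _ = 2 ^ (k - 1) * (ev p (fun i => |A i| ^ k) + ev p (fun i => |B i| ^ k)) := by
        rw [ev_smul p (2 ^ (k - 1)) (fun i => |A i| ^ k + |B i| ^ k),
          ev_add p (fun i => |A i| ^ k) (fun i => |B i| ^ k)]
    _ ≤ 2 ^ (k - 1) * (a + b) := by gcongr

/-- `|A B|^k ≤ |A|^(2k) + |B|^(2k)` -/
lemma OkU.mul {A B : Ix → ℝ} (hA : OkU U A) (hB : OkU U B) : OkU U (fun i => A i * B i) := by
  intro k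
  obtain ⟨a, ha⟩ := hA (2 * k)
  obtain ⟨b, hb⟩ := hB (2 * k)
  refine ⟨a + b, ?_⟩
  filter_upwards [ha, hb] with p h1 h2
  calc ev p (fun i => |A i * B i| ^ k)
      ≤ ev p (fun i => |A i| ^ (2 * k) + |B i| ^ (2 * k)) := by
        refine ev_mono p fun g _ => ?_
        rw [abs_mul, mul_pow, pow_mul' |A (p, g)| 2 k, pow_mul' |B (p, g)| 2 k]
        nlinarith [sq_nonneg (|A (p, g)| ^ k - |B (p, g)| ^ k), sq_nonneg (|A (p, g)| ^ k),
          sq_nonneg (|B (p, g)| ^ k)]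
    _ = ev p (fun i => |A i| ^ (2 * k)) + ev p (fun i => |B i| ^ (2 * k)) :=
        ev_add p (fun i => |A i| ^ (2 * k)) (fun i => |B i| ^ (2 * k))
    _ ≤ a + b := by gcongr

lemma OkU.of_abs_le {A B : Ix → ℝ} (h : ∀ i, |A i| ≤ |B i|) (hB : OkU U B) : OkU U A := by
  intro k
  obtain ⟨b, hb⟩ := hB k
  refine ⟨b, hb.mono fun p h1 => ?_⟩
  refine le_trans (ev_mono p fun g _ => ?_) h1
  exact pow_le_pow_left₀ (abs_nonneg _) (h _) k

/-- eventually equal observables -/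
lemma OkU.congr {A B : Ix → ℝ} (h : ∀ᶠ p in U, ∀ g ∈ Om p.2, A (p, g) = B (p, g)) (hB : OkU U B) :
    OkU U A := by
  intro k
  obtain ⟨b, hb⟩ := hB k
  refine ⟨b, ?_⟩
  filter_upwards [h, hb] with p h1 h2
  refine le_trans (ev_mono p fun g hg => ?_) h2
  show |A (p, g)| ^ k ≤ |B (p, g)| ^ k
  rw [h1 g hg]

end GF.Lat
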