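import Pool.Agent.Helper75.GF.L1b

/-!
# Project GF, lattice part L1c: the limit functional along an ultrafilter
-/

open MeasureTheory Filter Topology

namespace GF.Lat

open RP4 (V avg Om dom cell mass mu Loc Deloc BdryPar)

variable {U : Filter (ℝ × Finset V)}

/-- along an ultrafilter the bounded function `p ↦ ev p A` converges -/
lemma LU_tendsto {U : Ultrafilter (ℝ × Finset V)} {A : Ix → ℝ} (hA : OkU U A) :
    Tendsto (fun p => ev p A) U (𝓝 (LU U A)) := by
  obtain ⟨C, hC⟩ := hA 1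
  have h1 : ∀ᶠ p in (U : Filter (ℝ × Finset V)), ev p A ∈ Set.Icc (-C) C := by
    filter_upwards [hC] with p hp
    have h2 : ev p A ≤ ev p (fun i => |A i| ^ 1) := ev_mono p fun g _ => by
      rw [pow_one]; exact le_abs_self _
    have h3 : ev p (fun i => -1 * A i) ≤ ev p (fun i => |A i| ^ 1) := ev_mono p fun g _ => by
      rw [pow_one, neg_one_mul]; exact neg_le_abs _
    rw [ev_smul] at h3
    constructor <;> linarith
  have h4 : Set.Icc (-C) C ∈ Ultrafilter.map (fun p => ev p A) U := h1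
  obtain ⟨x, -, hx⟩ := isCompact_Icc.ultrafilter_le_nhds' _ h4
  exact tendsto_nhds_limUnder ⟨x, hx⟩

lemma LU_eq {U : Ultrafilter (ℝ × Finset V)} {A : Ix → ℝ} {c : ℝ}
    (h : Tendsto (fun p => ev p A) U (𝓝 c)) : LU U A = c := h.limUnder_eq

lemma LU_congr {A B : Ix → ℝ} (h : ∀ᶠ p in U, ∀ g ∈ Om p.2, A (p, g) = B (p, g)) :
    LU U A = LU U B := by
  unfold LU limUnder
  rw [Filter.map_congr (h.mono fun p hp => ev_congr p hp)]

lemma LU_add {U : Ultrafilter (ℝ × Finset V)} {A B : Ix → ℝ} (hA : OkU U A) (hB : OkU U B) :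
    LU U (fun i => A i + B i) = LU U A + LU U B := by
  refine LU_eq (((LU_tendsto hA).add (LU_tendsto hB)).congr fun p => ?_)
  rw [ev_add]

lemma LU_smul {U : Ultrafilter (ℝ × Finset V)} {A : Ix → ℝ} (c : ℝ) (hA : OkU U A) :
    LU U (fun i => c * A i) = c * LU U A := by
  refine LU_eq (((LU_tendsto hA).const_mul c).congr fun p => ?_)
  rw [ev_smul]

lemma LU_mono {U : Ultrafilter (ℝ × Finset V)} {A B : Ix → ℝ} (hA : OkU U A) (hB : OkU U B)
    (h : ∀ i, A i ≤ B i) : LU U A ≤ LU U B :=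
  le_of_tendsto_of_tendsto' (LU_tendsto hA) (LU_tendsto hB) fun p => ev_mono p fun g _ => h _

lemma LU_one {U : Ultrafilter (ℝ × Finset V)} (hU : (U : Filter (ℝ × Finset V)) ≤ itf) :
    LU U (fun _ => 1) = 1 := by
  refine LU_eq (tendsto_const_nhds.congr' ?_)
  filter_upwards [hU itf_nonempty] with p hp
  rw [ev_const hp]

private lemma ok_sq {U : Filter (ℝ × Finset V)} {A : Ix → ℝ} (hA : OkU U A) :
    OkU U (fun i => A i ^ 2) := by
  have h : (fun i => A i ^ 2) = fun i => A i * A i := by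
    funext i; rw [sq]
  rw [h]; exact hA.mul hA

/-- Cauchy-Schwarz in the limit -/
lemma LU_cs {U : Ultrafilter (ℝ × Finset V)} {A B : Ix → ℝ} (hA : OkU U A) (hB : OkU U B) :
    (LU U (fun i => A i * B i)) ^ 2 ≤ LU U (fun i => A i ^ 2) * LU U (fun i => B i ^ 2) :=
  le_of_tendsto_of_tendsto' ((LU_tendsto (hA.mul hB)).pow 2)
    ((LU_tendsto (ok_sq hA)).mul (LU_tendsto (ok_sq hB))) fun p => ev_cs p A B

/-- observables which are close in mean square give the same limits -/
lemma LU_close {U : Ultrafilter (ℝ × Finset V)} {A A' B : Ix → ℝ} (hA : OkU U A) (hA' : OkU U A')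
    (hB : OkU U B) (h : LU U (fun i => (A i - A' i) ^ 2) = 0) :
    LU U (fun i => A i * B i) = LU U (fun i => A' i * B i) := by
  have hn : OkU U (fun i => -A' i) := OkU.of_abs_le (fun i => by rw [abs_neg]) hA'
  have hd : OkU U (fun i => A i - A' i) := by
    have h1 : (fun i => A i - A' i) = fun i => A i + -A' i := by
      funext i; ring
    rw [h1]; exact hA.add hn
  have h2 := LU_cs hd hB
  rw [h, zero_mul] at h2
  have h3 : LU U (fun i => (A i - A' i) * B i) = 0 := by
    have := sq_nonneg (LU U (fun i => (A i - A' i) * B i))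
    exact pow_eq_zero_iff two_ne_zero |>.1 (le_antisymm h2 this)
  have h4 := LU_add (hd.mul hB) (hA'.mul hB)
  rw [h3, zero_add] at h4
  rw [← h4]
  congr 1
  funext i; ring

end GF.Lat
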