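import Pool.Agent.Helper75.GF.L2d

/-!
# Project GF, lattice part L2: passing to the limit
-/

open MeasureTheory Filter Topology

namespace GF.Lat

open RP4 (V avg Om dom cell mass mu Loc Deloc BdryPar)

/-- inequalities between infinite volume expectations pass to the limit -/
lemma Rep.sq_le_mul (hd : Deloc) {U : Ultrafilter (ℝ × Finset V)}
    (hU : (U : Filter (ℝ × Finset V)) ≤ itf) {A B C : Ix → ℝ} {F G H : ℝ → (V → ℤ) → ℝ}
    (hA : Rep A F) (hB : Rep B G) (hC : Rep C H) (okA : OkU U A) (okB : OkU U B) (okC : OkU U C)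
    (h : ∀ᶠ δ in 𝓝[>] (0 : ℝ), mu (F δ) ^ 2 ≤ mu (G δ) * mu (H δ)) :
    LU U A ^ 2 ≤ LU U B * LU U C := by
  have h1 := (Rep.lim hd hU hA okA).pow 2
  have h2 := (Rep.lim hd hU hB okB).mul (Rep.lim hd hU hC okC)
  refine le_of_tendsto_of_tendsto h1 h2 ?_
  have h3 : ∀ᶠ p : ℝ × Finset V in itf, mu (F p.1) ^ 2 ≤ mu (G p.1) * mu (H p.1) := by
    unfold itf
    rw [eventually_curry_iff]
    exact h.mono fun δ hδ => Eventually.of_forall fun _ => hδ
  exact hU h3

/-- the symmetry `h ↦ -h` of `Om D` (`RP4.avg_neg_Om`) -/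
lemma ev_odd (p : ℝ × Finset V) (f : Pl → ℝ) : ev p (fun i => Real.sin (XX f i)) = 0 := by
  have h1 := RP4.avg_neg_Om (D := p.2) (fun h => Real.sin (XX f (p, h)))
  have h2 : ∀ h : V → ℤ, Real.sin (XX f (p, -h)) = -Real.sin (XX f (p, h)) := by
    intro h
    have h3 : XX f (p, -h) = -XX f (p, h) := by
      unfold XX
      rw [← Finset.sum_neg_distrib]
      refine Finset.sum_congr rfl fun x _ => ?_
      simp only [Pi.neg_apply, Int.cast_neg, mul_neg]
    rw [h3, Real.sin_neg]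
  simp only [h2] at h1
  unfold ev
  have h4 : avg (Om p.2) (fun h => -Real.sin (XX f (p, h))) =
      -avg (Om p.2) (fun h => Real.sin (XX f (p, h))) := by
    unfold avg
    rw [Finset.sum_neg_distrib, neg_div]
  rw [h4] at h1
  linarith

lemma LU_odd (U : Ultrafilter (ℝ × Finset V)) (f : Pl → ℝ) :
    LU U (fun i => Real.sin (XX f i)) = 0 := by
  unfold LU
  simp only [ev_odd]
  exact (tendsto_const_nhds (x := (0 : ℝ)) (f := (U : Filter (ℝ × Finset V)))).limUnder_eq

end GF.Lat
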