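import Pool.Agent.Helper75.GF.L1
import Pool.Agent.Helper43.GF.Calc

/-!
# Project GF, lattice part L2a: cell masses
-/

open MeasureTheory Filter Topology

namespace GF.Lat

open RP4 (V avg Om dom cell mass mu Loc Deloc BdryPar)

lemma mass_add (δ : ℝ) {f g : Pl → ℝ} (hf : Integrable f) (hg : Integrable g) (x : V) :
    mass δ (fun z => f z + g z) x = mass δ f x + mass δ g x := by
  unfold mass
  exact integral_add hf.integrableOn hg.integrableOn

lemma mass_smul (δ c : ℝ) (f : Pl → ℝ) (x : V) :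
    mass δ (fun z => c * f z) x = c * mass δ f x := by
  unfold mass
  exact integral_const_mul c f

lemma XX_add {f g : Pl → ℝ} (hf : Integrable f) (hg : Integrable g) (i : Ix) :
    XX (fun z => f z + g z) i = XX f i + XX g i := by
  unfold XX
  rw [← Finset.sum_add_distrib]
  refine Finset.sum_congr rfl fun x _ => ?_
  rw [mass_add _ hf hg]
  ring

lemma XX_smul (c : ℝ) (f : Pl → ℝ) (i : Ix) : XX (fun z => c * f z) i = c * XX f i := by
  unfold XX
  rw [Finset.mul_sum]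
  refine Finset.sum_congr rfl fun x _ => ?_
  rw [mass_smul]
  ring

/-- a function with compact support vanishes off a square -/
lemma cc_box {f : Pl → ℝ} (hf : Cc f) : ∃ R : ℝ, 0 < R ∧ ∀ z, f z ≠ 0 → |z.1| ≤ R ∧ |z.2| ≤ R := by
  obtain ⟨r, hr⟩ := hf.supp.isCompact.isBounded.subset_closedBall (0 : Pl)
  refine ⟨max r 1, lt_max_of_lt_right one_pos, fun z hz => ?_⟩
  have h1 : z ∈ Metric.closedBall (0 : Pl) r := hr (subset_tsupport f hz)
  rw [mem_closedBall_zero_iff] at h1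
  have h2 : |z.1| ≤ ‖z‖ := norm_fst_le z
  have h3 : |z.2| ≤ ‖z‖ := norm_snd_le z
  exact ⟨(h2.trans h1).trans (le_max_left _ _), (h3.trans h1).trans (le_max_left _ _)⟩

private lemma L2a_off {R δ a : ℝ} {x : ℤ} (hδ : 0 < δ)
    (ha : a ∈ Set.Ico (δ * (x - 1 / 2)) (δ * (x + 1 / 2))) (h : |a| ≤ R) :
    x ∈ Set.Icc (-(⌈R / δ⌉ + 1)) (⌈R / δ⌉ + 1) := by
  have h1 : R ≤ δ * ⌈R / δ⌉ := by
    have := Int.le_ceil (R / δ)
    rw [div_le_iff₀ hδ] at this
    linarith
  have h2 := abs_le.1 h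
  constructor
  · by_contra hc
    push Not at hc
    have h3 : x ≤ -(⌈R / δ⌉ + 1) - 1 := by omega
    have h4 : (x : ℝ) ≤ -(⌈R / δ⌉ + 1) - 1 := by exact_mod_cast h3
    have h5 := ha.2
    nlinarith
  · by_contra hc
    push Not at hc
    have h3 : ⌈R / δ⌉ + 1 + 1 ≤ x := by omega
    have h4 : (⌈R / δ⌉ : ℝ) + 1 + 1 ≤ x := by exact_mod_cast h3
    have h5 := ha.1
    nlinarith

/-- masses vanish off the window -/
lemma mass_off {f : Pl → ℝ} {R δ : ℝ} (hδ : 0 < δ) (hR : 0 ≤ R) (hf : ∀ z, f z ≠ 0 → |z.1| ≤ R ∧ |z.2| ≤ R)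
    {x : V} (hx : x ∉ win δ R) : mass δ f x = 0 := by
  unfold mass
  refine setIntegral_eq_zero_of_forall_eq_zero fun y hy => ?_
  by_contra hc
  obtain ⟨h1, h2⟩ := hf y hc
  apply hx
  unfold win
  rw [Finset.mem_product, Finset.mem_Icc, Finset.mem_Icc]
  exact ⟨L2a_off hδ hy.1 h1, L2a_off hδ hy.2 h2⟩

end GF.Lat
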