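import Pool.Agent.Helper75.GF.L2a

/-!
# Project GF, lattice part L2b: sums of cell masses
-/

open MeasureTheory Filter Topology

namespace GF.Lat

open RP4 (V avg Om dom cell mass mu Loc Deloc BdryPar)

private lemma SM_meas (δ : ℝ) (x : V) : MeasurableSet (cell δ x) :=
  measurableSet_Ico.prod measurableSet_Ico

private lemma SM_int {δ : ℝ} (hδ : 0 < δ) {a b : ℤ} {t : ℝ}
    (ha : t ∈ Set.Ico (δ * (a - 1 / 2)) (δ * (a + 1 / 2)))
    (hb : t ∈ Set.Ico (δ * (b - 1 / 2)) (δ * (b + 1 / 2))) : a = b := by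
  have h1 : δ * ((a : ℝ) - 1 / 2) < δ * (b + 1 / 2) := lt_of_le_of_lt ha.1 hb.2
  have h2 : δ * ((b : ℝ) - 1 / 2) < δ * (a + 1 / 2) := lt_of_le_of_lt hb.1 ha.2
  have h3 := lt_of_mul_lt_mul_left h1 hδ.le
  have h4 := lt_of_mul_lt_mul_left h2 hδ.le
  have h5 : (a : ℝ) < b + 1 := by linarith
  have h6 : (b : ℝ) < a + 1 := by linarith
  have h7 : a < b + 1 := by exact_mod_cast h5
  have h8 : b < a + 1 := by exact_mod_cast h6
  omega

private lemma SM_disj {δ : ℝ} (hδ : 0 < δ) : Pairwise (Function.onFun Disjoint (cell δ)) := by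
  intro x y hxy
  refine Set.disjoint_left.2 fun z hx hy => hxy ?_
  exact Prod.ext (SM_int hδ hx.1 hy.1) (SM_int hδ hx.2 hy.2)

private lemma SM_floor {δ : ℝ} (hδ : 0 < δ) (t : ℝ) :
    t ∈ Set.Ico (δ * ((⌊t / δ + 1 / 2⌋ : ℤ) - 1 / 2 : ℝ)) (δ * ((⌊t / δ + 1 / 2⌋ : ℤ) + 1 / 2 : ℝ)) := by
  have h1 := Int.floor_le (t / δ + 1 / 2)
  have h2 := Int.lt_floor_add_one (t / δ + 1 / 2)
  have h3 : δ * (t / δ) = t := by
    field_simp
  constructor
  · have h4 : ((⌊t / δ + 1 / 2⌋ : ℤ) - 1 / 2 : ℝ) ≤ t / δ := by linarith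
    calc _ ≤ δ * (t / δ) := mul_le_mul_of_nonneg_left h4 hδ.le
      _ = t := h3
  · have h4 : t / δ < ((⌊t / δ + 1 / 2⌋ : ℤ) + 1 / 2 : ℝ) := by linarith
    calc t = δ * (t / δ) := h3.symm
      _ < _ := mul_lt_mul_of_pos_left h4 hδ

private lemma SM_win {δ R t : ℝ} (hδ : 0 < δ) (ht : |t| ≤ R) :
    ⌊t / δ + 1 / 2⌋ ∈ Finset.Icc (-(⌈R / δ⌉ + 1)) (⌈R / δ⌉ + 1) := by
  have h1 := Int.floor_le (t / δ + 1 / 2)
  have h2 := Int.lt_floor_add_one (t / δ + 1 / 2)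
  have h3 := Int.le_ceil (R / δ)
  have h4 : t / δ ≤ R / δ := div_le_div_of_nonneg_right (abs_le.1 ht).2 hδ.le
  have h5 : -(R / δ) ≤ t / δ := by
    rw [← neg_div]
    exact div_le_div_of_nonneg_right (abs_le.1 ht).1 hδ.le
  rw [Finset.mem_Icc]
  constructor
  · have h6 : (-(⌈R / δ⌉ + 1) : ℝ) < (⌊t / δ + 1 / 2⌋ : ℝ) + 1 := by linarith
    have h7 : (-(⌈R / δ⌉ + 1) : ℤ) < ⌊t / δ + 1 / 2⌋ + 1 := by exact_mod_cast h6
    omega
  · have h6 : (⌊t / δ + 1 / 2⌋ : ℝ) < (⌈R / δ⌉ : ℝ) + 1 := by linarith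
    have h7 : ⌊t / δ + 1 / 2⌋ < ⌈R / δ⌉ + 1 := by exact_mod_cast h6
    omega

/-- the cells partition the plane: total mass.  `s` = any finite set containing the window -/
lemma sum_mass {f : Pl → ℝ} {R δ : ℝ} (hδ : 0 < δ) (hR : 0 ≤ R) (hi : Integrable f)
    (hf : ∀ z, f z ≠ 0 → |z.1| ≤ R ∧ |z.2| ≤ R) {s : Finset V} (hs : win δ R ⊆ s) :
    ∑ x ∈ s, mass δ f x = ∫ z, f z := by
  unfold RP4.mass
  rw [← integral_biUnion_finset s (fun x _ => SM_meas δ x) (fun x _ y _ h => SM_disj hδ h)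
    (fun x _ => hi.integrableOn)]
  refine setIntegral_eq_integral_of_forall_compl_eq_zero fun z hz => ?_
  by_contra h
  obtain ⟨h1, h2⟩ := hf z h
  refine hz (Set.mem_iUnion₂.2 ⟨(⌊z.1 / δ + 1 / 2⌋, ⌊z.2 / δ + 1 / 2⌋), hs ?_, ?_⟩)
  · unfold win
    exact Finset.mem_product.2 ⟨SM_win hδ h1, SM_win hδ h2⟩
  · exact ⟨SM_floor hδ z.1, SM_floor hδ z.2⟩

/-- for every finite set of sites, the masses have total absolute value at most the `L¹` norm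
(the cells are disjoint) -/
lemma sum_abs_mass {f : Pl → ℝ} {δ : ℝ} (hδ : 0 < δ) (hi : Integrable f) (s : Finset V) :
    ∑ x ∈ s, |mass δ f x| ≤ ∫ z, |f z| := by
  unfold RP4.mass
  have h1 : ∑ x ∈ s, |∫ y in cell δ x, f y| ≤ ∑ x ∈ s, ∫ y in cell δ x, |f y| :=
    Finset.sum_le_sum fun x _ => abs_integral_le_integral_abs
  refine h1.trans ?_
  rw [← integral_biUnion_finset s (fun x _ => SM_meas δ x) (fun x _ y _ h => SM_disj hδ h)
    (fun x _ => hi.abs.integrableOn)]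
  exact setIntegral_le_integral hi.abs (Filter.Eventually.of_forall fun z => abs_nonneg _)

end GF.Lat
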