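import Pool.Agent.Helper75.GF.L2c

/-!
# Project GF, lattice part L2d: representation of observables by local functions
-/

open MeasureTheory Filter Topology

namespace GF.Lat

open RP4 (V avg Om dom cell mass mu Loc Deloc BdryPar)

/-- the field is represented by `Xd` -/
lemma rep_XX {f : Pl → ℝ} (hf : Ne f) : Rep (XX f) (fun δ => Xd δ f) := by
  obtain ⟨R, hR, hfR⟩ := cc_box hf.toCc
  have hi : Integrable f := hf.smooth.continuous.integrable_of_hasCompactSupport hf.supp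
  filter_upwards [self_mem_nhdsWithin] with δ hδ
  have hδ' : 0 < δ := hδ
  refine ⟨⟨win δ R, Xd_loc hδ' hR.le hi hf.zero hfR⟩, ?_⟩
  refine RP4.eventually_dom.2 ⟨win δ R, fun D hD _ h _ => ?_⟩
  exact (Xd_eq hδ' hR.le hfR hD h).symm

lemma Rep.add {A B : Ix → ℝ} {F G : ℝ → (V → ℤ) → ℝ} (hA : Rep A F) (hB : Rep B G) :
    Rep (fun i => A i + B i) (fun δ h => F δ h + G δ h) := by
  classical
  filter_upwards [hA, hB] with δ h1 h2
  obtain ⟨⟨s, hs⟩, h1'⟩ := h1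
  obtain ⟨⟨t, ht⟩, h2'⟩ := h2
  refine ⟨⟨s ∪ t, (hs.mono Finset.subset_union_left).add (ht.mono Finset.subset_union_right)⟩, ?_⟩
  filter_upwards [h1', h2'] with D h3 h4 h hh
  simp only [h3 h hh, h4 h hh]

lemma Rep.mul {A B : Ix → ℝ} {F G : ℝ → (V → ℤ) → ℝ} (hA : Rep A F) (hB : Rep B G) :
    Rep (fun i => A i * B i) (fun δ h => F δ h * G δ h) := by
  classical
  filter_upwards [hA, hB] with δ h1 h2
  obtain ⟨⟨s, hs⟩, h1'⟩ := h1
  obtain ⟨⟨t, ht⟩, h2'⟩ := h2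
  refine ⟨⟨s ∪ t, (hs.mono Finset.subset_union_left).mul (ht.mono Finset.subset_union_right)⟩, ?_⟩
  filter_upwards [h1', h2'] with D h3 h4 h hh
  simp only [h3 h hh, h4 h hh]

lemma Rep.comp {A : Ix → ℝ} {F : ℝ → (V → ℤ) → ℝ} (hA : Rep A F) (φ : ℝ → ℝ) :
    Rep (fun i => φ (A i)) (fun δ h => φ (F δ h)) := by
  filter_upwards [hA] with δ h1
  obtain ⟨⟨s, hs⟩, h1'⟩ := h1
  refine ⟨⟨s, hs.comp φ⟩, ?_⟩
  filter_upwards [h1'] with D h3 h hh
  simp only [h3 h hh]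

/-- `RP4.mu_tendsto` for each `δ`, `RP4.avg` only sees `h ∈ Om D` -/
lemma Rep.tendsto (hd : Deloc) {A : Ix → ℝ} {F : ℝ → (V → ℤ) → ℝ} (hA : Rep A F) :
    Tendsto (fun p : ℝ × Finset V => ev p A - mu (F p.1)) itf (𝓝 0) := by
  rw [Metric.tendsto_nhds]
  intro ε hε
  rw [itf_eventually]
  filter_upwards [hA] with δ h1
  obtain ⟨⟨s, hs⟩, h1'⟩ := h1
  have h2 := (Metric.tendsto_nhds.1 (RP4.mu_tendsto hd hs)) ε hε
  filter_upwards [h1', h2] with D h3 h4
  have h5 : ev (δ, D) A = avg (Om D) (F δ) := by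
    unfold ev avg
    rw [Finset.sum_congr rfl fun h hh => h3 h hh]
  rw [h5, Real.dist_eq, sub_zero]
  rw [Real.dist_eq] at h4
  exact h4

/-- the limit functional in terms of the infinite volume expectations -/
lemma Rep.lim (hd : Deloc) {U : Ultrafilter (ℝ × Finset V)} (hU : (U : Filter (ℝ × Finset V)) ≤ itf)
    {A : Ix → ℝ} {F : ℝ → (V → ℤ) → ℝ} (hA : Rep A F) (hok : OkU U A) :
    Tendsto (fun p : ℝ × Finset V => mu (F p.1)) U (𝓝 (LU U A)) := by
  have h1 := (LU_tendsto hok).sub ((Rep.tendsto hd hA).mono_left hU)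
  rw [sub_zero] at h1
  refine h1.congr fun p => ?_
  ring

end GF.Lat
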