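import Pool.Agent.Helper75.GF.L3d

/-!
# Project GF, lattice part L3e: log-convexity in the position of the line
-/

open MeasureTheory Filter Topology

namespace GF.Lat

open RP4 (V avg Om dom cell mass mu Loc Deloc BdryPar)

/-- the function of the position `j` of the line in axiom `rp2` -/
noncomputable def alat (d : ℤ × ℤ) (F : (V → ℤ) → ℝ) (g : V → ℝ) (s : Finset V) (j : ℤ) : ℝ :=
  mu (fun h => F h * F (fun v => h (lref d j v)) *
    Real.cos (∑ x ∈ s, g x * ((h x : ℝ) - h (lref d j x))))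

private lemma L3e_ld_add (d : ℤ × ℤ) (x y : V) : ld d (x + y) = ld d x + ld d y := by
  simp only [ld, Prod.fst_add, Prod.snd_add]
  ring

private lemma L3e_shift (d : ℤ × ℤ) (p q : ℤ) (x u : V) (h : ld d u = p - q) :
    lref d p (x + u) = lref d q x + u := by
  have h1 : 2 * (ld d (x + u) - p) = 2 * (ld d x - q) := by
    rw [L3e_ld_add, h]
    ring
  unfold lref
  rw [h1]
  ext
  · simp only [Prod.fst_add]
    ring
  · simp only [Prod.snd_add]
    ring

private lemma L3e_cross {d : ℤ × ℤ} (hd : DirZ d) (p : ℤ) (x u : V) :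
    lref d p (x + lref d 0 u) = lref d p x + u := by
  rcases hd with rfl | rfl | rfl | rfl | rfl | rfl | rfl | rfl <;>
  · simp only [lref, ld, Prod.fst_add, Prod.snd_add]
    norm_num
    ext <;> simp only [Prod.fst_add, Prod.snd_add] <;> omega

private lemma L3e_phi_loc (d : ℤ × ℤ) {F : (V → ℤ) → ℝ} (g : V → ℝ) {s : Finset V} (hF : Loc s F)
    (j : ℤ) : Loc (s ∪ s.image (lref d j)) (fun h => F h * F (fun v => h (lref d j v)) *
      Real.cos (∑ x ∈ s, g x * ((h x : ℝ) - h (lref d j x)))) := by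
  classical
  intro h h' hh
  have h1 : ∀ x ∈ s, x ∈ s ∪ s.image (lref d j) := fun x hx => Finset.mem_union_left _ hx
  have h2 : ∀ x ∈ s, lref d j x ∈ s ∪ s.image (lref d j) := fun x hx =>
    Finset.mem_union_right _ (Finset.mem_image_of_mem _ hx)
  have e1 : F h = F h' := hF _ _ fun x hx y hy => hh x (h1 x hx) y (h1 y hy)
  have e2 : F (fun v => h (lref d j v)) = F (fun v => h' (lref d j v)) :=
    hF _ _ fun x hx y hy => hh _ (h2 x hx) _ (h2 y hy)
  have e3 : ∑ x ∈ s, g x * ((h x : ℝ) - h (lref d j x)) =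
      ∑ x ∈ s, g x * ((h' x : ℝ) - h' (lref d j x)) := by
    refine Finset.sum_congr rfl fun x hx => ?_
    have e4 := hh x (h1 x hx) _ (h2 x hx)
    have e5 : (h x : ℝ) - h (lref d j x) = (h' x : ℝ) - h' (lref d j x) := by exact_mod_cast e4
    rw [e5]
  change F h * F (fun v => h (lref d j v)) * Real.cos _ =
    F h' * F (fun v => h' (lref d j v)) * Real.cos _
  rw [e1, e2, e3]

private lemma L3e_alat (hdl : Deloc) (d : ℤ × ℤ) {F : (V → ℤ) → ℝ} (g : V → ℝ) {s : Finset V}
    (hF : Loc s F) (j : ℤ) (u : V) :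
    mu (fun h => F (fun v => h (v + u)) * F (fun v => h (lref d j v + u)) *
      Real.cos (∑ x ∈ s, g x * ((h (x + u) : ℝ) - h (lref d j x + u)))) = alat d F g s j :=
  RP4.mu_trans hdl (L3e_phi_loc d g hF j) u

private lemma L3e_shift_loc {s t : Finset V} {F : (V → ℤ) → ℝ} (hF : Loc s F) (g : V → ℝ) (u w : V)
    (hst : ∀ x ∈ s, x + u ∈ t) (hw : w ∈ t) (φ : ℝ → ℝ) :
    Loc t (fun h => F (fun v => h (v + u)) * φ (∑ x ∈ s, g x * ((h (x + u) : ℝ) - h w))) := by
  intro h h' hh
  have e1 : F (fun v => h (v + u)) = F (fun v => h' (v + u)) :=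
    hF _ _ fun x hx y hy => hh _ (hst x hx) _ (hst y hy)
  have e3 : ∑ x ∈ s, g x * ((h (x + u) : ℝ) - h w) =
      ∑ x ∈ s, g x * ((h' (x + u) : ℝ) - h' w) := by
    refine Finset.sum_congr rfl fun x hx => ?_
    have e4 := hh _ (hst x hx) _ hw
    have e5 : (h (x + u) : ℝ) - h w = (h' (x + u) : ℝ) - h' w := by exact_mod_cast e4
    rw [e5]
  change F (fun v => h (v + u)) * φ _ = F (fun v => h' (v + u)) * φ _
  rw [e1, e3]

private lemma L3e_comb (a b x y : ℝ) :
    (a * Real.cos x) * (b * Real.cos y) + (a * Real.sin x) * (b * Real.sin y) =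
      a * b * Real.cos (x - y) := by
  rw [Real.cos_sub]
  ring

/-
Axiom `rp2` on the lattice.  Choose `u` with `ld d u = k` (`exists_line`), `u' = lref d 0 u` (`ld d u' = -k`), `w` on the
line `p`.  Let `F₁ h = F (fun v => h (v + u))`, `G₁ h = ∑ x ∈ s, g x (h (x + u) - h w)`, `F₂, G₂` the same with `u'`.  All
are local behind the line `p`.  `mu_cs_pair` with `(F₁ cos G₁, F₁ sin G₁)` and `(F₂ cos G₂, F₂ sin G₂)`:
`mu (F₁ * F₂ ∘ θ * cos (G₁ - G₂ ∘ θ))² ≤ …`.  Identities `lref d p (x + u') = lref d p x + u`,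
`lref d p (x + u) = lref d (p - k) x + u`, `lref d p (x + u') = lref d (p + k) x + u'`; then `mu_trans` by `u` or `u'`.
-/
theorem rp2_lat (hdl : Deloc) {d : ℤ × ℤ} (hd : DirZ d) (p k : ℤ) (hk : 0 ≤ k) {s : Finset V}
    (hs : ∀ x ∈ s, ld d x ≤ p - k) {F : (V → ℤ) → ℝ} (hF : Loc s F) (g : V → ℝ) :
    (alat d F g s p) ^ 2 ≤ alat d F g s (p - k) * alat d F g s (p + k) := by
  classical
  obtain ⟨u, hu⟩ := exists_line hd k
  obtain ⟨w, hw⟩ := exists_line hd p
  set u' : V := lref d 0 u with hu'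
  have hlu' : ld d u' = -k := by
    rw [hu', ld_lref hd, hu]
    ring
  set t : Finset V := insert w (s.image (fun x => x + u) ∪ s.image (fun x => x + u')) with ht
  have ht1 : ∀ x ∈ s, x + u ∈ t := fun x hx =>
    Finset.mem_insert_of_mem (Finset.mem_union_left _ (Finset.mem_image_of_mem _ hx))
  have ht2 : ∀ x ∈ s, x + u' ∈ t := fun x hx =>
    Finset.mem_insert_of_mem (Finset.mem_union_right _ (Finset.mem_image_of_mem _ hx))
  have htw : w ∈ t := Finset.mem_insert_self _ _
  have hlt : ∀ x ∈ t, ld d x ≤ p := by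
    intro x hx
    rw [ht, Finset.mem_insert, Finset.mem_union, Finset.mem_image, Finset.mem_image] at hx
    rcases hx with rfl | ⟨y, hy, rfl⟩ | ⟨y, hy, rfl⟩
    · exact hw.le
    · have := hs y hy
      rw [L3e_ld_add, hu]
      linarith
    · have := hs y hy
      rw [L3e_ld_add, hlu']
      linarith
  have hfw : lref d p w = w := lref_fix hd hw
  have key := mu_cs_pair hdl hd p hlt
    (L3e_shift_loc hF g u w ht1 htw Real.cos) (L3e_shift_loc hF g u w ht1 htw Real.sin)
    (L3e_shift_loc hF g u' w ht2 htw Real.cos) (L3e_shift_loc hF g u' w ht2 htw Real.sin)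
  simp only [L3e_comb, hfw] at key
  have e1 : ∀ x : V, lref d p (x + u) = lref d (p - k) x + u := fun x =>
    L3e_shift d p (p - k) x u (by rw [hu]; ring)
  have e2 : ∀ x : V, lref d p (x + u') = lref d (p + k) x + u' := fun x =>
    L3e_shift d p (p + k) x u' (by rw [hlu']; ring)
  have e3 : ∀ x : V, lref d p (x + u') = lref d p x + u := fun x => L3e_cross hd p x u
  have c1 : ∀ (h : V → ℤ) (a b : V → V), (∑ x ∈ s, g x * ((h (a x) : ℝ) - h w)) -
      ∑ x ∈ s, g x * ((h (b x) : ℝ) - h w) = ∑ x ∈ s, g x * ((h (a x) : ℝ) - h (b x)) := by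
    intro h a b
    rw [← Finset.sum_sub_distrib]
    exact Finset.sum_congr rfl fun x _ => by ring
  have k1 := L3e_alat hdl d g hF p u
  have k2 := L3e_alat hdl d g hF (p - k) u
  have k3 := L3e_alat hdl d g hF (p + k) u'
  rw [← k1, ← k2, ← k3]
  convert key using 3
  · funext h
    rw [c1 h (fun x => x + u) (fun x => lref d p (x + u'))]
    simp only [e3]
  · funext h
    rw [c1 h (fun x => x + u) (fun x => lref d p (x + u))]
    simp only [e1]
  · funext h
    rw [c1 h (fun x => x + u') (fun x => lref d p (x + u'))]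
    simp only [e2]

end GF.Lat
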