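import Pool.Agent.Helper75.GF.L3a

/-!
# Project GF, lattice part L3b: masses of reflected functions
-/

open MeasureTheory Filter Topology

namespace GF.Lat

open RP4 (V avg Om dom cell mass mu Loc Deloc BdryPar)

/-- the open cell -/
private def oc (δ : ℝ) (x : V) : Set Pl :=
  Set.Ioo (δ * (x.1 - 1 / 2)) (δ * (x.1 + 1 / 2)) ×ˢ Set.Ioo (δ * (x.2 - 1 / 2)) (δ * (x.2 + 1 / 2))

private lemma oc_ae (δ : ℝ) (x : V) : cell δ x =ᵐ[(volume : Measure Pl)] oc δ x := by
  have h1 : (volume : Measure Pl) = (volume : Measure ℝ).prod volume := rfl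
  rw [h1]
  exact (Measure.set_prod_ae_eq Ioo_ae_eq_Ico Ioo_ae_eq_Ico).symm

private lemma refl_mem_oc {d : ℤ × ℤ} (hd : DirZ d) {δ : ℝ} (m : ℤ) (x : V) {z : Pl}
    (hz : z ∈ oc δ x) : refl (dr d) (δ * m) z ∈ oc δ (lref d m x) := by
  obtain ⟨x1, x2⟩ := x
  obtain ⟨z1, z2⟩ := z
  obtain ⟨⟨h1, h2⟩, h3, h4⟩ := hz
  simp only at h1 h2 h3 h4
  rcases hd with h | h | h | h | h | h | h | h <;> subst h <;>
    refine ⟨⟨?_, ?_⟩, ?_, ?_⟩ <;> simp only [refl, ell, dr, lref, ld] <;>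
    norm_num <;> nlinarith

private lemma refl_oc {d : ℤ × ℤ} (hd : DirZ d) {δ : ℝ} (m : ℤ) (x : V) :
    refl (dr d) (δ * m) ⁻¹' oc δ (lref d m x) = oc δ x := by
  ext z
  refine ⟨fun hz => ?_, fun hz => refl_mem_oc hd m x hz⟩
  have h := refl_mem_oc hd m (lref d m x) hz
  rwa [refl_refl hd, lref_lref hd] at h

/-- masses of the reflected function: the cells are reflected up to their boundaries -/
lemma mass_rf {d : ℤ × ℤ} (hd : DirZ d) {δ : ℝ} (hδ : 0 < δ) (m : ℤ) (f : Pl → ℝ) (x : V) :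
    mass δ (rf (dr d) (δ * m) f) x = mass δ f (lref d m x) := by
  have hmp := refl_measurePreserving hd (δ * (m : ℝ))
  have hinv : Function.Involutive (refl (dr d) (δ * (m : ℝ))) := refl_refl hd _
  have hemb : MeasurableEmbedding (refl (dr d) (δ * (m : ℝ))) :=
    (MeasurableEquiv.ofInvolutive _ hinv hmp.measurable).measurableEmbedding
  have h := hmp.setIntegral_preimage_emb hemb f (oc δ (lref d m x))
  rw [refl_oc hd m x] at h
  unfold mass
  rw [setIntegral_congr_set (oc_ae δ x), setIntegral_congr_set (oc_ae δ (lref d m x)), ← h]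
  rfl

/-- the field of the reflected function -/
lemma Xd_rf {d : ℤ × ℤ} (hd : DirZ d) {δ : ℝ} (hδ : 0 < δ) (m : ℤ) (f : Pl → ℝ) (h : V → ℤ) :
    Xd δ (rf (dr d) (δ * m) f) h = Xd δ f (fun v => h (lref d m v)) := by
  have hinv : Function.Involutive (lref d m) := lref_lref hd m
  unfold Xd
  rw [← Equiv.tsum_eq (hinv.toPerm (lref d m))]
  refine tsum_congr fun v => ?_
  rw [mass_rf hd hδ, Function.Involutive.coe_toPerm, hinv v]

end GF.Lat
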