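import Pool.Agent.Helper75.GF.L3a

/-!
# Project GF, lattice part L3c: reflection positivity for all lines
-/

open MeasureTheory Filter Topology

namespace GF.Lat

open RP4 (V avg Om dom cell mass mu Loc Deloc BdryPar)

/-- locality of translated and reflected functions -/
lemma loc_map {s : Finset V} {F : (V → ℤ) → ℝ} (hF : Loc s F) (θ : V → V) :
    Loc (s.image θ) (fun h => F (fun v => h (θ v))) := fun _ _ hh =>
  hF _ _ fun _ hx _ hy => hh _ (Finset.mem_image_of_mem θ hx) _ (Finset.mem_image_of_mem θ hy)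

/-- the infinite volume state is invariant under `τ` -/
private def Iv (τ : V → V) : Prop :=
  ∀ (s : Finset V) (F : (V → ℤ) → ℝ), Loc s F → mu (fun h => F (fun v => h (τ v))) = mu F

private lemma Iv.comp {τ σ : V → V} (h1 : Iv τ) (h2 : Iv σ) : Iv (fun v => τ (σ v)) := by
  intro s F hF
  have h3 := h1 _ (fun h => F (fun v => h (σ v))) (loc_map hF σ)
  exact h3.trans (h2 s F hF)

private lemma Iv.congr {τ σ : V → V} (h1 : Iv τ) (h : ∀ v, τ v = σ v) : Iv σ := by
  have : τ = σ := funext h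
  rw [← this]
  exact h1

private lemma iv_trans (hdl : Deloc) (u : V) : Iv (fun v => v + u) := fun _ _ hF =>
  RP4.mu_trans hdl hF u

private lemma iv_refl1 (hdl : Deloc) : Iv (fun v => (-v.1, v.2)) := fun _ _ hF =>
  RP4.mu_refl1 hdl hF

private lemma iv_swap (hdl : Deloc) : Iv (fun v => (v.2, v.1)) := fun _ _ hF =>
  RP4.mu_swap hdl hF

private lemma key {d : ℤ × ℤ} {m : ℤ} {θ τ : V → V}
    (h2 : ∀ v, τ (lref d m v) = θ (τ v)) (hI : Iv τ) {s : Finset V} (A B : (V → ℤ) → ℝ)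
    (hA : Loc s A) (hB : Loc s B) :
      mu (fun h => A h * B (fun v => h (lref d m v))) =
        mu (fun h => A (fun v => h (τ v)) * B (fun v => h (θ (τ v)))) := by
  have hK : Loc (s ∪ s.image (lref d m)) (fun h => A h * B (fun v => h (lref d m v))) :=
    (hA.mono Finset.subset_union_left).mul
      ((loc_map hB (lref d m)).mono Finset.subset_union_right)
  have h3 := hI _ _ hK
  rw [← h3]
  congr 1
  funext h
  simp only [h2]

private lemma red_cs {d : ℤ × ℤ} {m : ℤ} {θ τ : V → V} {H : V → Prop}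
    (h2 : ∀ v, τ (lref d m v) = θ (τ v)) (hH : ∀ v, ld d v ≤ m → H (τ v)) (hI : Iv τ)
    (hcs : ∀ (s : Finset V) (F G : (V → ℤ) → ℝ), Loc s F → Loc s G → (∀ x ∈ s, H x) →
      (mu (fun h => F h * G (fun v => h (θ v)))) ^ 2 ≤
        mu (fun h => F h * F (fun v => h (θ v))) * mu (fun h => G h * G (fun v => h (θ v))))
    {s : Finset V} (hs : ∀ x ∈ s, ld d x ≤ m) {F G : (V → ℤ) → ℝ} (hF : Loc s F) (hG : Loc s G) :
    (mu (fun h => F h * G (fun v => h (lref d m v)))) ^ 2 ≤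
      mu (fun h => F h * F (fun v => h (lref d m v))) *
        mu (fun h => G h * G (fun v => h (lref d m v))) := by
  have h := hcs (s.image τ) (fun g => F (fun v => g (τ v))) (fun g => G (fun v => g (τ v)))
    (loc_map hF τ) (loc_map hG τ) (by
      intro x hx
      obtain ⟨y, hy, rfl⟩ := Finset.mem_image.1 hx
      exact hH y (hs y hy))
  have e1 := key h2 hI F G hF hG
  have e2 := key h2 hI F F hF hF
  have e3 := key h2 hI G G hG hG
  rw [e1, e2, e3]
  exact h

private lemma red_rp {d : ℤ × ℤ} {m : ℤ} {θ τ : V → V} {H : V → Prop}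
    (h2 : ∀ v, τ (lref d m v) = θ (τ v)) (hH : ∀ v, ld d v ≤ m → H (τ v)) (hI : Iv τ)
    (hrp : ∀ (s : Finset V) (F : (V → ℤ) → ℝ), Loc s F → (∀ x ∈ s, H x) →
      0 ≤ mu (fun h => F h * F (fun v => h (θ v))))
    {s : Finset V} (hs : ∀ x ∈ s, ld d x ≤ m) {F : (V → ℤ) → ℝ} (hF : Loc s F) :
    0 ≤ mu (fun h => F h * F (fun v => h (lref d m v))) := by
  have h := hrp (s.image τ) (fun g => F (fun v => g (τ v)))
    (loc_map hF τ) (by
      intro x hx
      obtain ⟨y, hy, rfl⟩ := Finset.mem_image.1 hx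
      exact hH y (hs y hy))
  have e2 := key h2 hI F F hF hF
  rw [e2]
  exact h

private lemma iv_d1 (hdl : Deloc) (m : ℤ) : Iv (fun v => ((m - v.1, v.2) : V)) := by
  have h := (iv_refl1 hdl).comp (iv_trans hdl (-m, 0))
  refine h.congr fun v => ?_
  refine Prod.ext ?_ ?_
  · simp only [Prod.fst_add, Prod.snd_add]
    try ring
  · simp only [Prod.fst_add, Prod.snd_add]
    try ring

private lemma rf_d1 (m : ℤ) (v : V) :
    (fun v => ((m - v.1, v.2) : V)) (lref (1, 0) m v) =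
      (fun v : V => ((-v.1, v.2) : V)) ((fun v => ((m - v.1, v.2) : V)) v) := by
  refine Prod.ext ?_ ?_
  · simp only [lref, ld]
    omega
  · simp only [lref, ld]
    omega

private lemma hp_d1 (m : ℤ) (v : V) (hv : ld (1, 0) v ≤ m) :
    (fun v : V => 0 ≤ v.1) ((fun v => ((m - v.1, v.2) : V)) v) := by
  simp only [ld] at hv ⊢
  omega

private lemma iv_d2 (hdl : Deloc) (m : ℤ) : Iv (fun v => ((v.1 + m, v.2) : V)) := by
  have h := iv_trans hdl (m, 0)
  refine h.congr fun v => ?_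
  refine Prod.ext ?_ ?_
  · simp only [Prod.fst_add, Prod.snd_add]
    try ring
  · simp only [Prod.fst_add, Prod.snd_add]
    try ring

private lemma rf_d2 (m : ℤ) (v : V) :
    (fun v => ((v.1 + m, v.2) : V)) (lref (-1, 0) m v) =
      (fun v : V => ((-v.1, v.2) : V)) ((fun v => ((v.1 + m, v.2) : V)) v) := by
  refine Prod.ext ?_ ?_
  · simp only [lref, ld]
    omega
  · simp only [lref, ld]
    omega

private lemma hp_d2 (m : ℤ) (v : V) (hv : ld (-1, 0) v ≤ m) :
    (fun v : V => 0 ≤ v.1) ((fun v => ((v.1 + m, v.2) : V)) v) := by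
  simp only [ld] at hv ⊢
  omega

private lemma iv_d3 (hdl : Deloc) (m : ℤ) : Iv (fun v => ((m - v.2, v.1) : V)) := by
  have h := (iv_refl1 hdl).comp ((iv_swap hdl).comp (iv_trans hdl (0, -m)))
  refine h.congr fun v => ?_
  refine Prod.ext ?_ ?_
  · simp only [Prod.fst_add, Prod.snd_add]
    try ring
  · simp only [Prod.fst_add, Prod.snd_add]
    try ring

private lemma rf_d3 (m : ℤ) (v : V) :
    (fun v => ((m - v.2, v.1) : V)) (lref (0, 1) m v) =
      (fun v : V => ((-v.1, v.2) : V)) ((fun v => ((m - v.2, v.1) : V)) v) := by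
  refine Prod.ext ?_ ?_
  · simp only [lref, ld]
    omega
  · simp only [lref, ld]
    omega

private lemma hp_d3 (m : ℤ) (v : V) (hv : ld (0, 1) v ≤ m) :
    (fun v : V => 0 ≤ v.1) ((fun v => ((m - v.2, v.1) : V)) v) := by
  simp only [ld] at hv ⊢
  omega

private lemma iv_d4 (hdl : Deloc) (m : ℤ) : Iv (fun v => ((v.2 + m, v.1) : V)) := by
  have h := (iv_swap hdl).comp (iv_trans hdl (0, m))
  refine h.congr fun v => ?_
  refine Prod.ext ?_ ?_
  · simp only [Prod.fst_add, Prod.snd_add]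
    try ring
  · simp only [Prod.fst_add, Prod.snd_add]
    try ring

private lemma rf_d4 (m : ℤ) (v : V) :
    (fun v => ((v.2 + m, v.1) : V)) (lref (0, -1) m v) =
      (fun v : V => ((-v.1, v.2) : V)) ((fun v => ((v.2 + m, v.1) : V)) v) := by
  refine Prod.ext ?_ ?_
  · simp only [lref, ld]
    omega
  · simp only [lref, ld]
    omega

private lemma hp_d4 (m : ℤ) (v : V) (hv : ld (0, -1) v ≤ m) :
    (fun v : V => 0 ≤ v.1) ((fun v => ((v.2 + m, v.1) : V)) v) := by
  simp only [ld] at hv ⊢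
  omega

private lemma iv_d5 (hdl : Deloc) (m : ℤ) : Iv (fun v => ((m - v.1, -v.2) : V)) := by
  have h := ((iv_refl1 hdl).comp ((iv_swap hdl).comp ((iv_refl1 hdl).comp (iv_swap hdl)))).comp (iv_trans hdl (-m, 0))
  refine h.congr fun v => ?_
  refine Prod.ext ?_ ?_
  · simp only [Prod.fst_add, Prod.snd_add]
    try ring
  · simp only [Prod.fst_add, Prod.snd_add]
    try ring

private lemma rf_d5 (m : ℤ) (v : V) :
    (fun v => ((m - v.1, -v.2) : V)) (lref (1, 1) m v) =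
      (fun v : V => ((-v.2, -v.1) : V)) ((fun v => ((m - v.1, -v.2) : V)) v) := by
  refine Prod.ext ?_ ?_
  · simp only [lref, ld]
    omega
  · simp only [lref, ld]
    omega

private lemma hp_d5 (m : ℤ) (v : V) (hv : ld (1, 1) v ≤ m) :
    (fun v : V => 0 ≤ v.1 + v.2) ((fun v => ((m - v.1, -v.2) : V)) v) := by
  simp only [ld] at hv ⊢
  omega

private lemma iv_d6 (hdl : Deloc) (m : ℤ) : Iv (fun v => ((v.1 + m, v.2) : V)) := by
  have h := iv_trans hdl (m, 0)
  refine h.congr fun v => ?_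
  refine Prod.ext ?_ ?_
  · simp only [Prod.fst_add, Prod.snd_add]
    try ring
  · simp only [Prod.fst_add, Prod.snd_add]
    try ring

private lemma rf_d6 (m : ℤ) (v : V) :
    (fun v => ((v.1 + m, v.2) : V)) (lref (-1, -1) m v) =
      (fun v : V => ((-v.2, -v.1) : V)) ((fun v => ((v.1 + m, v.2) : V)) v) := by
  refine Prod.ext ?_ ?_
  · simp only [lref, ld]
    omega
  · simp only [lref, ld]
    omega

private lemma hp_d6 (m : ℤ) (v : V) (hv : ld (-1, -1) v ≤ m) :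
    (fun v : V => 0 ≤ v.1 + v.2) ((fun v => ((v.1 + m, v.2) : V)) v) := by
  simp only [ld] at hv ⊢
  omega

private lemma iv_d7 (hdl : Deloc) (m : ℤ) : Iv (fun v => ((m - v.1, v.2) : V)) := by
  have h := (iv_refl1 hdl).comp (iv_trans hdl (-m, 0))
  refine h.congr fun v => ?_
  refine Prod.ext ?_ ?_
  · simp only [Prod.fst_add, Prod.snd_add]
    try ring
  · simp only [Prod.fst_add, Prod.snd_add]
    try ring

private lemma rf_d7 (m : ℤ) (v : V) :
    (fun v => ((m - v.1, v.2) : V)) (lref (1, -1) m v) =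
      (fun v : V => ((-v.2, -v.1) : V)) ((fun v => ((m - v.1, v.2) : V)) v) := by
  refine Prod.ext ?_ ?_
  · simp only [lref, ld]
    omega
  · simp only [lref, ld]
    omega

private lemma hp_d7 (m : ℤ) (v : V) (hv : ld (1, -1) v ≤ m) :
    (fun v : V => 0 ≤ v.1 + v.2) ((fun v => ((m - v.1, v.2) : V)) v) := by
  simp only [ld] at hv ⊢
  omega

private lemma iv_d8 (hdl : Deloc) (m : ℤ) : Iv (fun v => ((m - v.2, v.1) : V)) := by
  have h := (iv_refl1 hdl).comp ((iv_swap hdl).comp (iv_trans hdl (0, -m)))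
  refine h.congr fun v => ?_
  refine Prod.ext ?_ ?_
  · simp only [Prod.fst_add, Prod.snd_add]
    try ring
  · simp only [Prod.fst_add, Prod.snd_add]
    try ring

private lemma rf_d8 (m : ℤ) (v : V) :
    (fun v => ((m - v.2, v.1) : V)) (lref (-1, 1) m v) =
      (fun v : V => ((-v.2, -v.1) : V)) ((fun v => ((m - v.2, v.1) : V)) v) := by
  refine Prod.ext ?_ ?_
  · simp only [lref, ld]
    omega
  · simp only [lref, ld]
    omega

private lemma hp_d8 (m : ℤ) (v : V) (hv : ld (-1, 1) v ≤ m) :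
    (fun v : V => 0 ≤ v.1 + v.2) ((fun v => ((m - v.2, v.1) : V)) v) := by
  simp only [ld] at hv ⊢
  omega

/-
Reflection positivity (Cauchy-Schwarz form) for the line `ld d x = m`.  Move the line to the origin by `RP4.mu_trans`
(vector `w` with `ld d w = m`), then `RP4.mu_cs1` for `d = (-1, 0)` and `RP4.mu_csd` for `d = (-1, -1)` (there the half
plane is `0 ≤ x.1`, `0 ≤ x.1 + x.2`, i.e. `ld d x ≤ 0`), the other directions by composing with `(x₁, x₂) ↦ (-x₁, x₂)`
and `(x₁, x₂) ↦ (x₂, x₁)` (`RP4.mu_refl1`, `RP4.mu_swap`).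
-/
theorem mu_cs (hdl : Deloc) {d : ℤ × ℤ} (hd : DirZ d) (m : ℤ) {s : Finset V}
    (hs : ∀ x ∈ s, ld d x ≤ m) {F G : (V → ℤ) → ℝ} (hF : Loc s F) (hG : Loc s G) :
    (mu (fun h => F h * G (fun v => h (lref d m v)))) ^ 2 ≤
      mu (fun h => F h * F (fun v => h (lref d m v))) *
        mu (fun h => G h * G (fun v => h (lref d m v))) := by
  rcases hd with rfl | rfl | rfl | rfl | rfl | rfl | rfl | rfl
  · exact red_cs (rf_d1 m) (hp_d1 m) (iv_d1 hdl m)
      (fun _ _ _ hF hG hs => RP4.mu_cs1 hdl hF hG hs) hs hF hG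
  · exact red_cs (rf_d2 m) (hp_d2 m) (iv_d2 hdl m)
      (fun _ _ _ hF hG hs => RP4.mu_cs1 hdl hF hG hs) hs hF hG
  · exact red_cs (rf_d3 m) (hp_d3 m) (iv_d3 hdl m)
      (fun _ _ _ hF hG hs => RP4.mu_cs1 hdl hF hG hs) hs hF hG
  · exact red_cs (rf_d4 m) (hp_d4 m) (iv_d4 hdl m)
      (fun _ _ _ hF hG hs => RP4.mu_cs1 hdl hF hG hs) hs hF hG
  · exact red_cs (rf_d5 m) (hp_d5 m) (iv_d5 hdl m)
      (fun _ _ _ hF hG hs => RP4.mu_csd hdl hF hG hs) hs hF hG
  · exact red_cs (rf_d6 m) (hp_d6 m) (iv_d6 hdl m)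
      (fun _ _ _ hF hG hs => RP4.mu_csd hdl hF hG hs) hs hF hG
  · exact red_cs (rf_d7 m) (hp_d7 m) (iv_d7 hdl m)
      (fun _ _ _ hF hG hs => RP4.mu_csd hdl hF hG hs) hs hF hG
  · exact red_cs (rf_d8 m) (hp_d8 m) (iv_d8 hdl m)
      (fun _ _ _ hF hG hs => RP4.mu_csd hdl hF hG hs) hs hF hG

/-- `mu_cs` with `G = 1` after adding multiples, or directly from `mu_rp1`, `mu_rpd` as in `mu_cs` -/
theorem mu_rp (hdl : Deloc) {d : ℤ × ℤ} (hd : DirZ d) (m : ℤ) {s : Finset V}
    (hs : ∀ x ∈ s, ld d x ≤ m) {F : (V → ℤ) → ℝ} (hF : Loc s F) :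
    0 ≤ mu (fun h => F h * F (fun v => h (lref d m v))) := by
  rcases hd with rfl | rfl | rfl | rfl | rfl | rfl | rfl | rfl
  · exact red_rp (rf_d1 m) (hp_d1 m) (iv_d1 hdl m)
      (fun _ _ hF hs => RP4.mu_rp1 hdl hF hs) hs hF
  · exact red_rp (rf_d2 m) (hp_d2 m) (iv_d2 hdl m)
      (fun _ _ hF hs => RP4.mu_rp1 hdl hF hs) hs hF
  · exact red_rp (rf_d3 m) (hp_d3 m) (iv_d3 hdl m)
      (fun _ _ hF hs => RP4.mu_rp1 hdl hF hs) hs hF
  · exact red_rp (rf_d4 m) (hp_d4 m) (iv_d4 hdl m)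
      (fun _ _ hF hs => RP4.mu_rp1 hdl hF hs) hs hF
  · exact red_rp (rf_d5 m) (hp_d5 m) (iv_d5 hdl m)
      (fun _ _ hF hs => RP4.mu_rpd hdl hF hs) hs hF
  · exact red_rp (rf_d6 m) (hp_d6 m) (iv_d6 hdl m)
      (fun _ _ hF hs => RP4.mu_rpd hdl hF hs) hs hF
  · exact red_rp (rf_d7 m) (hp_d7 m) (iv_d7 hdl m)
      (fun _ _ hF hs => RP4.mu_rpd hdl hF hs) hs hF
  · exact red_rp (rf_d8 m) (hp_d8 m) (iv_d8 hdl m)
      (fun _ _ hF hs => RP4.mu_rpd hdl hF hs) hs hF

end GF.Lat
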