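import Pool.Agent.Helper75.GF.L2
import Pool.Agent.Helper27.GF.M5

/-!
# Project GF, lattice part L4a: moments of the field
-/

open MeasureTheory Filter Topology

namespace GF.Lat

open RP4 (V avg Om dom cell mass mu Loc Deloc BdryPar)

/-- the pairing is a linear functional with the cell masses as weights -/
lemma XX_lin (f : Pl → ℝ) (p : ℝ × Finset V) (h : V → ℤ) : XX f (p, h) = lin p.2 (mass p.1 f) h := rfl

/-- `GF.moments` and `sum_abs_mass` -/
theorem ev_moment (n : ℕ) : ∃ C : ℝ, 0 ≤ C ∧ ∀ (p : ℝ × Finset V), 0 < p.1 → (Om p.2).Nonempty →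
    ∀ f : Pl → ℝ, Integrable f → ev p (fun i => |XX f i| ^ n) ≤
      C * (Real.sqrt (ev p (fun i => XX f i ^ 2)) + ∫ z, |f z|) ^ n := by
  obtain ⟨C, hC0, hC⟩ := moments n
  refine ⟨C, hC0, fun p hp hne f hf => ?_⟩
  have h1 := hC p.2 p.2 (mass p.1 f) hne
  refine h1.trans (mul_le_mul_of_nonneg_left ?_ hC0)
  have h2 := sum_abs_mass hp hf p.2
  refine pow_le_pow_left₀ (add_nonneg (Real.sqrt_nonneg _) (Finset.sum_nonneg fun x _ => abs_nonneg _)) ?_ n
  exact add_le_add le_rfl h2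

/-- a field of functions depending on the scale is an observable if its second moments are bounded -/
theorem okU_of_second {U : Filter (ℝ × Finset V)} (hU : U ≤ itf) (φ : ℝ → Pl → ℝ) (B : ℝ)
    (hi : ∀ᶠ δ in 𝓝[>] (0 : ℝ), Integrable (φ δ) ∧ ∫ z, |φ δ z| ≤ B)
    (h2 : ∀ᶠ p in U, ev p (fun i => XX (φ i.1.1) i ^ 2) ≤ B) :
    OkU U (fun i => XX (φ i.1.1) i) := by
  intro k
  obtain ⟨C, hC0, hC⟩ := ev_moment k
  refine ⟨C * (Real.sqrt B + B) ^ k, ?_⟩
  have hpos : ∀ᶠ p in itf, 0 < p.1 ∧ Integrable (φ p.1) ∧ ∫ z, |φ p.1 z| ≤ B := by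
    rw [itf_eventually]
    filter_upwards [hi, self_mem_nhdsWithin] with δ h1 h2
    exact Eventually.of_forall fun _ => ⟨h2, h1⟩
  filter_upwards [hU hpos, hU itf_nonempty, h2] with p h1 h3 h4
  have h5 := hC p h1.1 h3 (φ p.1) h1.2.1
  have e1 : ev p (fun i => |XX (φ i.1.1) i| ^ k) = ev p (fun i => |XX (φ p.1) i| ^ k) := rfl
  have e2 : ev p (fun i => XX (φ i.1.1) i ^ 2) = ev p (fun i => XX (φ p.1) i ^ 2) := rfl
  rw [e2] at h4
  rw [e1]
  refine h5.trans (mul_le_mul_of_nonneg_left ?_ hC0)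
  refine pow_le_pow_left₀ (add_nonneg (Real.sqrt_nonneg _) (integral_nonneg fun z => abs_nonneg _)) ?_ k
  exact add_le_add (Real.sqrt_le_sqrt h4) h1.2.2

end GF.Lat
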