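import Pool.Agent.Helper75.GF.L2

/-!
# Project GF, lattice part L4b: the crude bound for the second moment of a neutral charge
-/

open MeasureTheory Filter Topology

namespace GF.Lat

open RP4 (V avg Om dom cell mass mu Loc Deloc BdryPar)

/-- logarithmic bound of the variogram -/
def LogBd : Prop := ∃ C : ℝ, 0 ≤ C ∧ ∀ x y : V,
  mu (fun h => ((h x : ℝ) - h y) ^ 2) ≤ C * Real.log (2 + |(x.1 : ℝ) - y.1| + |(x.2 : ℝ) - y.2|)

private lemma L4b_loc_sum {s t : Finset V} {F : V → (V → ℤ) → ℝ} (hF : ∀ x ∈ t, Loc s (F x)) :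
    Loc s (fun h => ∑ x ∈ t, F x h) := by
  intro h h' hh
  exact Finset.sum_congr rfl fun x hx => hF x hx h h' hh

private lemma L4b_mu_sum (hdl : Deloc) {s : Finset V} {F : V → (V → ℤ) → ℝ} (t : Finset V)
    (hF : ∀ x ∈ t, Loc s (F x)) :
    mu (fun h => ∑ x ∈ t, F x h) = ∑ x ∈ t, mu (F x) := by
  classical
  induction t using Finset.induction_on with
  | empty =>
    simp only [Finset.sum_empty]
    exact RP4.mu_const 0
  | insert a t ha ih =>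
    have h1 : (fun h : V → ℤ => ∑ x ∈ insert a t, F x h) = fun h => F a h + ∑ x ∈ t, F x h := by
      funext h
      exact Finset.sum_insert ha
    rw [h1, Finset.sum_insert ha,
      RP4.mu_add hdl (hF a (Finset.mem_insert_self a t))
        (L4b_loc_sum fun x hx => hF x (Finset.mem_insert_of_mem hx)),
      ih fun x hx => hF x (Finset.mem_insert_of_mem hx)]

/-
Fix `w` in the window.  As `∑ m_x = 0`, `∑ m_x h_x = ∑ m_x (h_x - h_w)` and by Cauchy-Schwarz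
`(∑ m_x (h_x - h_w))² ≤ (∑ |m_x|) ∑ |m_x| (h_x - h_w)²`.  (`mu_mono`, `mu_add`, `mu_smul`, finite sums.)
-/
theorem crude_lat (hdl : Deloc) {s : Finset V} (w : V) (hw : w ∈ s) (m : V → ℝ) (h0 : ∑ x ∈ s, m x = 0) (B : ℝ)
    (hB : ∀ x ∈ s, mu (fun h => ((h x : ℝ) - h w) ^ 2) ≤ B) :
    mu (fun h => (∑ x ∈ s, m x * (h x : ℝ)) ^ 2) ≤ (∑ x ∈ s, |m x|) ^ 2 * B := by
  have e1 : ∀ h : V → ℤ, ∑ x ∈ s, m x * (h x : ℝ) = ∑ x ∈ s, m x * ((h x : ℝ) - h w) := by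
    intro h
    simp only [mul_sub]
    rw [Finset.sum_sub_distrib, ← Finset.sum_mul, h0, zero_mul, sub_zero]
  have hloc : ∀ x ∈ s, Loc s (fun h : V → ℤ => ((h x : ℝ) - h w) ^ 2) := by
    intro x hx h h' hh
    have h1 : (h x : ℝ) - h w = (h' x : ℝ) - h' w := by exact_mod_cast hh x hx w hw
    simp only [h1]
  have hlocm : ∀ x ∈ s, Loc s (fun h : V → ℤ => |m x| * ((h x : ℝ) - h w) ^ 2) := by
    intro x hx h h' hh
    have h1 := hloc x hx h h' hh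
    simp only at h1 ⊢
    rw [h1]
  have hlocF : Loc s (fun h : V → ℤ => (∑ x ∈ s, m x * (h x : ℝ)) ^ 2) := by
    intro h h' hh
    have h1 : ∑ x ∈ s, m x * (h x : ℝ) = ∑ x ∈ s, m x * (h' x : ℝ) := by
      rw [e1 h, e1 h']
      refine Finset.sum_congr rfl fun x hx => ?_
      have h1 : (h x : ℝ) - h w = (h' x : ℝ) - h' w := by exact_mod_cast hh x hx w hw
      rw [h1]
    simp only [h1]
  have hlocG : Loc s (fun h : V → ℤ => (∑ x ∈ s, |m x|) * ∑ x ∈ s, |m x| * ((h x : ℝ) - h w) ^ 2) := by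
    intro h h' hh
    have h1 := L4b_loc_sum hlocm h h' hh
    simp only at h1 ⊢
    rw [h1]
  have hle : ∀ h : V → ℤ, (∑ x ∈ s, m x * (h x : ℝ)) ^ 2 ≤
      (∑ x ∈ s, |m x|) * ∑ x ∈ s, |m x| * ((h x : ℝ) - h w) ^ 2 := by
    intro h
    rw [e1 h]
    have h1 : |∑ x ∈ s, m x * ((h x : ℝ) - h w)| ≤ ∑ x ∈ s, |m x| * |(h x : ℝ) - h w| := by
      refine (Finset.abs_sum_le_sum_abs _ _).trans (le_of_eq ?_)
      exact Finset.sum_congr rfl fun x _ => abs_mul _ _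
    have h2 : (∑ x ∈ s, |m x| * |(h x : ℝ) - h w|) ^ 2 ≤
        (∑ x ∈ s, |m x|) * ∑ x ∈ s, |m x| * ((h x : ℝ) - h w) ^ 2 := by
      have h3 := Finset.sum_mul_sq_le_sq_mul_sq s (fun x => Real.sqrt |m x|)
        (fun x => Real.sqrt |m x| * |(h x : ℝ) - h w|)
      have h4 : ∀ x, Real.sqrt |m x| * (Real.sqrt |m x| * |(h x : ℝ) - h w|) =
          |m x| * |(h x : ℝ) - h w| := by
        intro x
        rw [← mul_assoc, Real.mul_self_sqrt (abs_nonneg _)]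
      have h5 : ∀ x, Real.sqrt |m x| ^ 2 = |m x| := fun x => Real.sq_sqrt (abs_nonneg _)
      have h6 : ∀ x, (Real.sqrt |m x| * |(h x : ℝ) - h w|) ^ 2 = |m x| * ((h x : ℝ) - h w) ^ 2 := by
        intro x
        rw [mul_pow, h5, sq_abs]
      simp only [h4, h5, h6] at h3
      exact h3
    have h3 := pow_le_pow_left₀ (abs_nonneg _) h1 2
    rw [sq_abs] at h3
    exact h3.trans h2
  refine (RP4.mu_mono hdl hlocF hlocG fun g _ => hle g).trans ?_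
  rw [RP4.mu_smul hdl (L4b_loc_sum hlocm), L4b_mu_sum hdl s hlocm]
  have h7 : ∑ x ∈ s, mu (fun h : V → ℤ => |m x| * ((h x : ℝ) - h w) ^ 2) ≤ ∑ x ∈ s, |m x| * B := by
    refine Finset.sum_le_sum fun x hx => ?_
    rw [RP4.mu_smul hdl (hloc x hx)]
    exact mul_le_mul_of_nonneg_left (hB x hx) (abs_nonneg _)
  rw [← Finset.sum_mul] at h7
  have h8 : 0 ≤ ∑ x ∈ s, |m x| := Finset.sum_nonneg fun x _ => abs_nonneg _
  calc (∑ x ∈ s, |m x|) * ∑ x ∈ s, mu (fun h : V → ℤ => |m x| * ((h x : ℝ) - h w) ^ 2)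
      ≤ (∑ x ∈ s, |m x|) * ((∑ x ∈ s, |m x|) * B) := mul_le_mul_of_nonneg_left h7 h8
    _ = (∑ x ∈ s, |m x|) ^ 2 * B := by ring

private lemma L4b_win {R δ : ℝ} (hR : 0 < R) (hδ : 0 < δ) : ((0, 0) : V) ∈ win δ R := by
  have h1 : 0 ≤ ⌈R / δ⌉ := Int.ceil_nonneg (div_nonneg hR.le hδ.le)
  unfold win
  refine Finset.mem_product.2 ⟨Finset.mem_Icc.2 ⟨?_, ?_⟩, Finset.mem_Icc.2 ⟨?_, ?_⟩⟩ <;> simp only <;> omega

private lemma L4b_abs {R δ : ℝ} {x : V} (hx : x ∈ win δ R) :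
    |(x.1 : ℝ)| ≤ R / δ + 2 ∧ |(x.2 : ℝ)| ≤ R / δ + 2 := by
  unfold win at hx
  rw [Finset.mem_product, Finset.mem_Icc, Finset.mem_Icc] at hx
  have h2 : (⌈R / δ⌉ : ℝ) < R / δ + 1 := Int.ceil_lt_add_one _
  obtain ⟨⟨h3, h4⟩, h5, h6⟩ := hx
  have h3' : (-(⌈R / δ⌉ + 1) : ℝ) ≤ x.1 := by exact_mod_cast h3
  have h4' : (x.1 : ℝ) ≤ ⌈R / δ⌉ + 1 := by exact_mod_cast h4
  have h5' : (-(⌈R / δ⌉ + 1) : ℝ) ≤ x.2 := by exact_mod_cast h5
  have h6' : (x.2 : ℝ) ≤ ⌈R / δ⌉ + 1 := by exact_mod_cast h6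
  rw [abs_le, abs_le]
  refine ⟨⟨?_, ?_⟩, ?_, ?_⟩ <;> linarith

/-
`crude_lat` for the window, `w = 0`; the window has diameter `O(1/δ)`, so `B = C log (2 + 2 (R/δ + 2)) ≤ C' log (1/δ)`
for `δ` small.
-/
theorem crude (hdl : Deloc) (hlog : LogBd) (R : ℝ) (hR : 0 < R) : ∃ C : ℝ, 0 ≤ C ∧ ∀ᶠ δ in 𝓝[>] (0 : ℝ),
    ∀ φ : Pl → ℝ, Integrable φ → ∫ z, φ z = 0 → (∀ z, φ z ≠ 0 → |z.1| ≤ R ∧ |z.2| ≤ R) →
      mu (fun h => Xd δ φ h ^ 2) ≤ C * Real.log (1 / δ) * (∫ z, |φ z|) ^ 2 := by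
  obtain ⟨C, hC, hlog⟩ := hlog
  have hl : 0 ≤ Real.log (6 + 2 * R) := Real.log_nonneg (by linarith)
  refine ⟨C * (Real.log (6 + 2 * R) + 1), by positivity, ?_⟩
  have h1 : ∀ᶠ δ in 𝓝[>] (0 : ℝ), δ < Real.exp (-1) := by
    have := Ioo_mem_nhdsGT (Real.exp_pos (-1))
    filter_upwards [this] with δ hδ
    exact hδ.2
  filter_upwards [h1, self_mem_nhdsWithin] with δ hδ1 hδ0 φ hi h0 hs
  have hδ : 0 < δ := hδ0
  have hδ1' : δ ≤ 1 := by
    have : Real.exp (-1) ≤ 1 := Real.exp_le_one_iff.2 (by norm_num)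
    linarith
  have hL : 1 ≤ Real.log (1 / δ) := by
    rw [one_div, Real.log_inv]
    have h2 := Real.log_lt_log hδ hδ1
    rw [Real.log_exp] at h2
    linarith
  have hX : (fun h : V → ℤ => Xd δ φ h ^ 2) =
      fun h => (∑ x ∈ win δ R, mass δ φ x * (h x : ℝ)) ^ 2 := by
    funext h
    rw [Xd_eq hδ hR.le hs (Finset.Subset.refl _)]
  have hm0 : ∑ x ∈ win δ R, mass δ φ x = 0 := by
    rw [sum_mass hδ hR.le hi hs (Finset.Subset.refl _), h0]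
  have hB : ∀ x ∈ win δ R, mu (fun h => ((h x : ℝ) - h ((0, 0) : V)) ^ 2) ≤
      C * ((Real.log (6 + 2 * R) + 1) * Real.log (1 / δ)) := by
    intro x hx
    refine (hlog x (0, 0)).trans (mul_le_mul_of_nonneg_left ?_ hC)
    obtain ⟨h2, h3⟩ := L4b_abs hx
    have h4 : 2 + |(x.1 : ℝ) - ((0 : ℤ) : ℝ)| + |(x.2 : ℝ) - ((0 : ℤ) : ℝ)| ≤ (6 + 2 * R) / δ := by
      rw [Int.cast_zero, sub_zero, sub_zero]
      have h5 : (6 + 2 * R) / δ = 6 / δ + 2 * (R / δ) := by ring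
      have h6 : 6 ≤ 6 / δ := by
        rw [le_div_iff₀ hδ]
        linarith
      linarith
    have h5 : 0 < 2 + |(x.1 : ℝ) - ((0 : ℤ) : ℝ)| + |(x.2 : ℝ) - ((0 : ℤ) : ℝ)| := by positivity
    refine (Real.log_le_log h5 h4).trans ?_
    have h6 : (6 + 2 * R) / δ = (6 + 2 * R) * (1 / δ) := by ring
    rw [h6, Real.log_mul (by linarith) (by positivity)]
    nlinarith
  rw [hX]
  refine (crude_lat hdl (0, 0) (L4b_win hR hδ) _ hm0 _ hB).trans ?_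
  have h7 : 0 ≤ ∑ x ∈ win δ R, |mass δ φ x| := Finset.sum_nonneg fun x _ => abs_nonneg _
  have h8 := sum_abs_mass hδ hi (win δ R)
  have h9 : (∑ x ∈ win δ R, |mass δ φ x|) ^ 2 ≤ (∫ z, |φ z|) ^ 2 := by
    apply pow_le_pow_left₀ h7 h8
  have h10 : 0 ≤ C * ((Real.log (6 + 2 * R) + 1) * Real.log (1 / δ)) := by
    have : 0 ≤ Real.log (1 / δ) := by linarith
    positivity
  calc (∑ x ∈ win δ R, |mass δ φ x|) ^ 2 * (C * ((Real.log (6 + 2 * R) + 1) * Real.log (1 / δ)))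
      ≤ (∫ z, |φ z|) ^ 2 * (C * ((Real.log (6 + 2 * R) + 1) * Real.log (1 / δ))) :=
        mul_le_mul_of_nonneg_right h9 h10
    _ = C * (Real.log (6 + 2 * R) + 1) * Real.log (1 / δ) * (∫ z, |φ z|) ^ 2 := by ring

end GF.Lat
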