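import Pool.Agent.Helper75.GF.L4a
import Pool.Agent.Helper75.GF.L4b

/-!
# Project GF, lattice part L4c: small charges do not contribute; closeness of products
-/

open MeasureTheory Filter Topology

namespace GF.Lat

open RP4 (V avg Om dom cell mass mu Loc Deloc BdryPar)

/-- a neutral charge in a fixed square depending on the scale -/
structure Chg (R : ℝ) (φ : ℝ → Pl → ℝ) : Prop where
  int : ∀ᶠ δ in 𝓝[>] (0 : ℝ), Integrable (φ δ)
  zero : ∀ᶠ δ in 𝓝[>] (0 : ℝ), ∫ z, φ δ z = 0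
  supp : ∀ᶠ δ in 𝓝[>] (0 : ℝ), ∀ z, φ δ z ≠ 0 → |z.1| ≤ R ∧ |z.2| ≤ R

/-- `Rep` for a scale dependent charge (as `rep_XX`) -/
lemma Chg.rep {R : ℝ} (hR : 0 < R) {φ : ℝ → Pl → ℝ} (h : Chg R φ) :
    Rep (fun i => XX (φ i.1.1) i) (fun δ => Xd δ (φ δ)) := by
  filter_upwards [self_mem_nhdsWithin, h.int, h.zero, h.supp] with δ hδ hi h0 hs
  have hδ' : 0 < δ := hδ
  refine ⟨⟨win δ R, Xd_loc hδ' hR.le hi h0 hs⟩, ?_⟩
  refine RP4.eventually_dom.2 ⟨win δ R, fun D hD _ g _ => ?_⟩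
  exact (Xd_eq hδ' hR.le hs hD g).symm

/-- `δ² log (1/δ) → 0` -/
private lemma L4c_lim (K : ℝ) :
    Tendsto (fun δ : ℝ => K * (Real.log (1 / δ) * δ ^ 2)) (𝓝[>] (0 : ℝ)) (𝓝 0) := by
  have h1 : Tendsto (fun δ : ℝ => Real.log δ * δ ^ (2 : ℝ)) (𝓝[>] (0 : ℝ)) (𝓝 0) :=
    tendsto_log_mul_rpow_nhdsGT_zero two_pos
  have h2 := h1.const_mul (-K)
  rw [mul_zero] at h2
  refine h2.congr fun δ => ?_
  rw [one_div, Real.log_inv, Real.rpow_two]
  ring

/-- charges of total absolute mass `O(δ)` vanish in the limit: `crude`, `δ² log (1/δ) → 0` -/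
theorem small_field (hdl : Deloc) (hlog : LogBd) {R : ℝ} (hR : 0 < R) {φ : ℝ → Pl → ℝ} (h : Chg R φ) (B : ℝ)
    (hB : ∀ᶠ δ in 𝓝[>] (0 : ℝ), ∫ z, |φ δ z| ≤ B * δ) {U : Ultrafilter (ℝ × Finset V)}
    (hU : (U : Filter (ℝ × Finset V)) ≤ itf) :
    OkU U (fun i => XX (φ i.1.1) i) ∧ LU U (fun i => XX (φ i.1.1) i ^ 2) = 0 := by
  obtain ⟨C, hC, hcr⟩ := crude hdl hlog R hR
  have hlt : ∀ᶠ δ in 𝓝[>] (0 : ℝ), δ < 1 :=
    (eventually_lt_nhds (a := (0 : ℝ)) (b := 1) one_pos).filter_mono nhdsWithin_le_nhds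
  have hpos : ∀ᶠ δ in 𝓝[>] (0 : ℝ), 0 < δ := self_mem_nhdsWithin
  -- the second moment in infinite volume
  have hmu : ∀ᶠ δ in 𝓝[>] (0 : ℝ),
      mu (fun g => Xd δ (φ δ) g ^ 2) ≤ C * B ^ 2 * (Real.log (1 / δ) * δ ^ 2) := by
    filter_upwards [hcr, h.int, h.zero, h.supp, hB, hlt, hpos] with δ h1 hi h0 hs h2 h3 h4
    refine (h1 (φ δ) hi h0 hs).trans ?_
    have h5 : 0 ≤ Real.log (1 / δ) := Real.log_nonneg (by rw [le_div_iff₀ h4]; linarith)
    have h6 : 0 ≤ ∫ z, |φ δ z| := integral_nonneg fun z => abs_nonneg _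
    have h7 : (∫ z, |φ δ z|) ^ 2 ≤ (B * δ) ^ 2 := pow_le_pow_left₀ h6 h2 2
    calc C * Real.log (1 / δ) * (∫ z, |φ δ z|) ^ 2 ≤ C * Real.log (1 / δ) * (B * δ) ^ 2 :=
          mul_le_mul_of_nonneg_left h7 (mul_nonneg hC h5)
      _ = C * B ^ 2 * (Real.log (1 / δ) * δ ^ 2) := by ring
  have hrep : Rep (fun i => XX (φ i.1.1) i ^ 2) (fun δ g => Xd δ (φ δ) g ^ 2) :=
    (Chg.rep hR h).comp fun x => x ^ 2
  have ht := (Rep.tendsto hdl hrep).mono_left hU
  have hfst : Tendsto (fun p : ℝ × Finset V => p.1) itf (𝓝[>] (0 : ℝ)) := by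
    intro s hs
    have hs' : ∀ᶠ δ in 𝓝[>] (0 : ℝ), δ ∈ s := hs
    exact itf_eventually.2 (hs'.mono fun δ hδ => Eventually.of_forall fun _ => hδ)
  have hl := ((L4c_lim (C * B ^ 2)).comp hfst).mono_left hU
  have hsum := ht.add hl
  rw [add_zero] at hsum
  have hle : ∀ᶠ p in (U : Filter (ℝ × Finset V)), ev p (fun i => XX (φ i.1.1) i ^ 2) ≤
      (ev p (fun i => XX (φ i.1.1) i ^ 2) - mu (fun g => Xd p.1 (φ p.1) g ^ 2)) +
        C * B ^ 2 * (Real.log (1 / p.1) * p.1 ^ 2) := by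
    filter_upwards [(hfst.mono_left hU).eventually hmu] with p hp
    linarith
  have hge : ∀ᶠ p in (U : Filter (ℝ × Finset V)), 0 ≤ ev p (fun i => XX (φ i.1.1) i ^ 2) := by
    refine Eventually.of_forall fun p => ?_
    unfold ev avg
    exact div_nonneg (Finset.sum_nonneg fun g _ => sq_nonneg _) (Nat.cast_nonneg _)
  have hlim : Tendsto (fun p => ev p (fun i => XX (φ i.1.1) i ^ 2)) U (𝓝 0) :=
    tendsto_of_tendsto_of_tendsto_of_le_of_le' tendsto_const_nhds hsum hge hle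
  refine ⟨okU_of_second hU φ (|B| + 1) ?_ ?_, LU_eq hlim⟩
  · filter_upwards [h.int, hB, hlt, hpos] with δ hi h2 h3 h4
    refine ⟨hi, h2.trans ?_⟩
    have h5 : B * δ ≤ |B| * δ := mul_le_mul_of_nonneg_right (le_abs_self B) h4.le
    have h6 : |B| * δ ≤ |B| * 1 := mul_le_mul_of_nonneg_left h3.le (abs_nonneg B)
    linarith
  · have h1 : (0 : ℝ) < |B| + 1 := by positivity
    exact (hlim.eventually (eventually_lt_nhds h1)).mono fun p hp => hp.le

/-- closeness of products: `|P cos Q - P' cos Q'| ≤ |P - P'| + |P'| |Q - Q'|` and Cauchy-Schwarz -/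
theorem LU_close2 {U : Ultrafilter (ℝ × Finset V)} (hU : (U : Filter (ℝ × Finset V)) ≤ itf)
    {B P P' Q Q' : Ix → ℝ} (hB : OkU U B) (hP : OkU U P) (hP' : OkU U P') (hQ : OkU U Q) (hQ' : OkU U Q')
    (h1 : LU U (fun i => (P i - P' i) ^ 2) = 0) (h2 : LU U (fun i => (Q i - Q' i) ^ 2) = 0) :
    LU U (fun i => B i * P i * Real.cos (Q i)) = LU U (fun i => B i * P' i * Real.cos (Q' i)) := by
  have hcos : ∀ S : Ix → ℝ, OkU U (fun i => Real.cos (S i)) := fun S =>
    OkU.of_abs_le (B := fun _ => 1) (fun i => by rw [abs_one]; exact Real.abs_cos_le_one _)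
      (OkU.const hU 1)
  have hsub : ∀ S T : Ix → ℝ, OkU U S → OkU U T → OkU U (fun i => (S i - T i) ^ 2) := by
    intro S T hS hT
    have h3 : OkU U (fun i => S i + (-1) * T i) := hS.add ((OkU.const hU (-1)).mul hT)
    have h4 := h3.mul h3
    have h5 : (fun i => (S i - T i) ^ 2) = fun i => (S i + (-1) * T i) * (S i + (-1) * T i) := by
      funext i
      ring
    rw [h5]
    exact h4
  -- first step: replace `P` by `P'`
  have e1 := LU_close hP hP' (hB.mul (hcos Q)) h1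
  -- second step: replace `cos Q` by `cos Q'`
  have h3 : LU U (fun i => (Real.cos (Q i) - Real.cos (Q' i)) ^ 2) = 0 := by
    refine le_antisymm ?_ ?_
    · rw [← h2]
      refine LU_mono (hsub _ _ (hcos Q) (hcos Q')) (hsub _ _ hQ hQ') fun i => ?_
      have h4 : |Real.cos (Q i) - Real.cos (Q' i)| ≤ |Q i - Q' i| := by
        have h5 := Real.lipschitzWith_cos.dist_le_mul (Q i) (Q' i)
        rw [Real.dist_eq, Real.dist_eq, NNReal.coe_one, one_mul] at h5
        exact h5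
      rw [← sq_abs (Real.cos (Q i) - Real.cos (Q' i)), ← sq_abs (Q i - Q' i)]
      exact pow_le_pow_left₀ (abs_nonneg _) h4 2
    · have h6 : LU U (fun _ => (0 : ℝ)) = 0 := by
        refine LU_eq ?_
        have h7 : (fun p : ℝ × Finset V => ev p (fun _ => (0 : ℝ))) = fun _ => 0 := by
          funext p
          unfold ev avg
          simp
        rw [h7]
        exact tendsto_const_nhds
      rw [← h6]
      exact LU_mono (OkU.const hU 0) (hsub _ _ (hcos Q) (hcos Q')) fun i => sq_nonneg _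
  have e2 := LU_close (hcos Q) (hcos Q') (hB.mul hP') h3
  calc LU U (fun i => B i * P i * Real.cos (Q i))
      = LU U (fun i => P i * (B i * Real.cos (Q i))) := by
        congr 1
        funext i
        ring
    _ = LU U (fun i => P' i * (B i * Real.cos (Q i))) := e1
    _ = LU U (fun i => Real.cos (Q i) * (B i * P' i)) := by
        congr 1
        funext i
        ring
    _ = LU U (fun i => Real.cos (Q' i) * (B i * P' i)) := e2
    _ = LU U (fun i => B i * P' i * Real.cos (Q' i)) := by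
        congr 1
        funext i
        ring

end GF.Lat
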