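import Pool.Agent.Helper75.GF.L3a
import Pool.Agent.Helper43.GF.Calc

/-!
# Project GF, lattice part L5a: reflected test functions
-/

open MeasureTheory Filter Topology

namespace GF.Lat

open RP4 (V)

private lemma L5a_bd {d : ℤ × ℤ} (hd : DirZ d) : |(dr d).1| ≤ 1 ∧ |(dr d).2| ≤ 1 ∧
    1 ≤ (dr d).1 ^ 2 + (dr d).2 ^ 2 := by
  rcases hd with h | h | h | h | h | h | h | h <;> subst h <;> unfold dr <;> norm_num

private lemma L5a_smooth (d : Pl) (s : ℝ) : ContDiff ℝ (⊤ : ℕ∞) (refl d s) := by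
  unfold refl ell
  refine ContDiff.prodMk ?_ ?_
  · refine contDiff_fst.sub ?_
    refine ContDiff.mul ?_ contDiff_const
    refine ContDiff.div_const ?_ _
    refine contDiff_const.mul ?_
    refine ContDiff.sub ?_ contDiff_const
    exact (contDiff_const.mul contDiff_fst).add (contDiff_const.mul contDiff_snd)
  · refine contDiff_snd.sub ?_
    refine ContDiff.mul ?_ contDiff_const
    refine ContDiff.div_const ?_ _
    refine contDiff_const.mul ?_
    refine ContDiff.sub ?_ contDiff_const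
    exact (contDiff_const.mul contDiff_fst).add (contDiff_const.mul contDiff_snd)

/-- the reflection as a homeomorphism -/
private noncomputable def L5a_homeo {d : ℤ × ℤ} (hd : DirZ d) (s : ℝ) : Pl ≃ₜ Pl where
  toFun := refl (dr d) s
  invFun := refl (dr d) s
  left_inv := refl_refl hd s
  right_inv := refl_refl hd s
  continuous_toFun := (L5a_smooth (dr d) s).continuous
  continuous_invFun := (L5a_smooth (dr d) s).continuous

lemma cc_rf {d : ℤ × ℤ} (hd : DirZ d) (s : ℝ) {f : Pl → ℝ} (hf : Cc f) : Cc (rf (dr d) s f) := by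
  refine ⟨hf.smooth.comp (L5a_smooth (dr d) s), ?_⟩
  exact hf.supp.comp_homeomorph (L5a_homeo hd s)

lemma int_rf {d : ℤ × ℤ} (hd : DirZ d) (s : ℝ) (f : Pl → ℝ) : ∫ z, rf (dr d) s f z = ∫ z, f z := by
  have h1 := refl_measurePreserving hd s
  exact h1.integral_comp (L5a_homeo hd s).measurableEmbedding f

lemma int_abs_rf {d : ℤ × ℤ} (hd : DirZ d) (s : ℝ) (f : Pl → ℝ) : ∫ z, |rf (dr d) s f z| = ∫ z, |f z| :=
  int_rf hd s (fun z => |f z|)

lemma ne_rf {d : ℤ × ℤ} (hd : DirZ d) (s : ℝ) {f : Pl → ℝ} (hf : Ne f) : Ne (rf (dr d) s f) := by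
  refine ⟨cc_rf hd s hf.toCc, ?_⟩
  rw [int_rf hd s f, hf.zero]

lemma ne_sub_rf {d : ℤ × ℤ} (hd : DirZ d) (s : ℝ) {g : Pl → ℝ} (hg : Cc g) :
    Ne (fun z => g z - rf (dr d) s g z) := by
  have h1 := cc_rf hd s hg
  refine ⟨⟨hg.smooth.sub h1.smooth, ?_⟩, ?_⟩
  · exact hg.supp.sub h1.supp
  · rw [integral_sub hg.integrable h1.integrable, int_rf hd s g, sub_self]

private lemma L5a_abs_refl {d : ℤ × ℤ} (hd : DirZ d) (s R : ℝ) (w : Pl) (h1 : |w.1| ≤ R) (h2 : |w.2| ≤ R) :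
    |(refl (dr d) s w).1| ≤ R + 2 * (2 * R + |s|) ∧ |(refl (dr d) s w).2| ≤ R + 2 * (2 * R + |s|) := by
  obtain ⟨b1, b2, b3⟩ := L5a_bd hd
  have hR : 0 ≤ R := (abs_nonneg _).trans h1
  have h3 : |ell (dr d) w - s| ≤ 2 * R + |s| := by
    unfold ell
    have e1 : |(dr d).1 * w.1| ≤ 1 * R := by
      rw [abs_mul]
      exact mul_le_mul b1 h1 (abs_nonneg _) zero_le_one
    have e2 : |(dr d).2 * w.2| ≤ 1 * R := by
      rw [abs_mul]
      exact mul_le_mul b2 h2 (abs_nonneg _) zero_le_one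
    rw [abs_le] at e1 e2 ⊢
    have e3 := neg_abs_le s
    have e4 := le_abs_self s
    constructor <;> linarith
  have h4 : |2 * (ell (dr d) w - s) / ((dr d).1 ^ 2 + (dr d).2 ^ 2)| ≤ 2 * (2 * R + |s|) := by
    rw [abs_div, abs_mul, abs_two, abs_of_pos (by linarith : (0 : ℝ) < (dr d).1 ^ 2 + (dr d).2 ^ 2)]
    rw [div_le_iff₀ (by linarith)]
    have h5 : 0 ≤ 2 * R + |s| := by positivity
    nlinarith
  have h5 : ∀ c : ℝ, |c| ≤ 1 →
      |2 * (ell (dr d) w - s) / ((dr d).1 ^ 2 + (dr d).2 ^ 2) * c| ≤ 2 * (2 * R + |s|) := by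
    intro c hc
    rw [abs_mul]
    calc _ ≤ 2 * (2 * R + |s|) * 1 := mul_le_mul h4 hc (abs_nonneg _) (by positivity)
      _ = _ := by ring
  have h6 := abs_le.1 (h5 _ b1)
  have h7 := abs_le.1 (h5 _ b2)
  have h8 := abs_le.1 h1
  have h9 := abs_le.1 h2
  unfold refl
  simp only
  rw [abs_le, abs_le]
  refine ⟨⟨?_, ?_⟩, ?_, ?_⟩ <;> linarith

/-- the supports of the reflected functions stay in a fixed square for `|s' - s| ≤ 1` -/
lemma supp_rf {d : ℤ × ℤ} (hd : DirZ d) (s : ℝ) {f : Pl → ℝ} (hf : Cc f) :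
    ∃ R : ℝ, 0 < R ∧ ∀ s' : ℝ, |s' - s| ≤ 1 → ∀ z, rf (dr d) s' f z ≠ 0 → |z.1| ≤ R ∧ |z.2| ≤ R := by
  obtain ⟨R, hR, h⟩ := cc_box hf
  refine ⟨R + 2 * (2 * R + (|s| + 1)), by positivity, fun s' hs' z hz => ?_⟩
  unfold rf at hz
  obtain ⟨h1, h2⟩ := h _ hz
  obtain ⟨h3, h4⟩ := L5a_abs_refl hd s' R _ h1 h2
  rw [refl_refl hd s' z] at h3 h4
  have h5 : |s'| ≤ |s| + 1 := by
    have := abs_sub_abs_le_abs_sub s' s
    linarith
  constructor <;> linarith

/-- Lipschitz dependence on the position of the line, in `L¹` -/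
lemma int_abs_rf_sub {d : ℤ × ℤ} (hd : DirZ d) (s : ℝ) {f : Pl → ℝ} (hf : Cc f) :
    ∃ B : ℝ, 0 ≤ B ∧ ∀ s' : ℝ, |s' - s| ≤ 1 → ∫ z, |rf (dr d) s f z - rf (dr d) s' f z| ≤ B * |s' - s| := by
  obtain ⟨R, hR, h⟩ := supp_rf hd s hf
  obtain ⟨L, hL⟩ := (hf.smooth.of_le (by simp) : ContDiff ℝ 1 f).lipschitzWith_of_hasCompactSupport hf.supp one_ne_zero
  set S : Set Pl := Set.Icc (-R) R ×ˢ Set.Icc (-R) R with hS
  have hSm : MeasurableSet S := measurableSet_Icc.prod measurableSet_Icc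
  have hSc : IsCompact S := isCompact_Icc.prod isCompact_Icc
  refine ⟨L * 2 * (volume S).toReal, by positivity, fun s' hs' => ?_⟩
  obtain ⟨b1, b2, b3⟩ := L5a_bd hd
  have h1 : ∀ z, |rf (dr d) s f z - rf (dr d) s' f z| ≤ L * 2 * |s' - s| := by
    intro z
    have h2 := hL.dist_le_mul (refl (dr d) s z) (refl (dr d) s' z)
    rw [Real.dist_eq] at h2
    unfold rf
    refine h2.trans ?_
    rw [mul_assoc]
    refine mul_le_mul_of_nonneg_left ?_ L.coe_nonneg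
    have h3 : ∀ c : ℝ, |c| ≤ 1 → |2 * (s - s') / ((dr d).1 ^ 2 + (dr d).2 ^ 2) * c| ≤ 2 * |s' - s| := by
      intro c hc
      rw [abs_mul, abs_div, abs_mul, abs_two,
        abs_of_pos (by linarith : (0 : ℝ) < (dr d).1 ^ 2 + (dr d).2 ^ 2), abs_sub_comm]
      calc 2 * |s' - s| / ((dr d).1 ^ 2 + (dr d).2 ^ 2) * |c| ≤ 2 * |s' - s| * 1 := by
            refine mul_le_mul ?_ hc (abs_nonneg _) (by positivity)
            exact div_le_self (by positivity) b3
        _ = _ := by ring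
    rw [Prod.dist_eq, Real.dist_eq, Real.dist_eq, max_le_iff]
    constructor
    · have e : (refl (dr d) s z).1 - (refl (dr d) s' z).1 =
          2 * (s - s') / ((dr d).1 ^ 2 + (dr d).2 ^ 2) * (dr d).1 := by
        unfold refl
        ring
      rw [e]
      exact h3 _ b1
    · have e : (refl (dr d) s z).2 - (refl (dr d) s' z).2 =
          2 * (s - s') / ((dr d).1 ^ 2 + (dr d).2 ^ 2) * (dr d).2 := by
        unfold refl
        ring
      rw [e]
      exact h3 _ b2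
  have h2 : ∀ z, z ∉ S → |rf (dr d) s f z - rf (dr d) s' f z| = 0 := by
    intro z hz
    have h3 : ∀ s'' : ℝ, |s'' - s| ≤ 1 → rf (dr d) s'' f z = 0 := by
      intro s'' hs''
      by_contra hc
      obtain ⟨h4, h5⟩ := h s'' hs'' z hc
      exact hz ⟨abs_le.1 h4, abs_le.1 h5⟩
    rw [h3 s' hs', h3 s (by simp), sub_zero, abs_zero]
  rw [← setIntegral_eq_integral_of_forall_compl_eq_zero h2]
  have h3 := norm_setIntegral_le_of_norm_le_const (μ := (volume : Measure Pl)) (s := S)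
    (f := fun z => |rf (dr d) s f z - rf (dr d) s' f z|) (C := L * 2 * |s' - s|)
    hSc.measure_lt_top (fun z _ => by rw [Real.norm_eq_abs, abs_abs]; exact h1 z)
  refine (le_abs_self _).trans (h3.trans (le_of_eq ?_))
  unfold Measure.real
  ring

private lemma L5a_cell {δ : ℝ} {x : V} {d : ℤ × ℤ} (hd : DirZ d) {z : Pl} (hz : z ∈ RP4.cell δ x) :
    |ell (dr d) z - δ * (ld d x : ℝ)| ≤ δ := by
  obtain ⟨b1, b2, b3⟩ := L5a_bd hd
  obtain ⟨⟨h1, h2⟩, h3, h4⟩ := hz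
  have e1 : |z.1 - δ * x.1| ≤ δ / 2 := by
    rw [abs_le]
    constructor <;> linarith
  have e2 : |z.2 - δ * x.2| ≤ δ / 2 := by
    rw [abs_le]
    constructor <;> linarith
  have e3 : ell (dr d) z - δ * (ld d x : ℝ) = (dr d).1 * (z.1 - δ * x.1) + (dr d).2 * (z.2 - δ * x.2) := by
    unfold ell ld dr
    push_cast
    ring
  rw [e3]
  have e4 : |(dr d).1 * (z.1 - δ * x.1)| ≤ 1 * (δ / 2) := by
    rw [abs_mul]
    exact mul_le_mul b1 e1 (abs_nonneg _) zero_le_one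
  have e5 : |(dr d).2 * (z.2 - δ * x.2)| ≤ 1 * (δ / 2) := by
    rw [abs_mul]
    exact mul_le_mul b2 e2 (abs_nonneg _) zero_le_one
  refine (abs_add_le _ _).trans ?_
  linarith

private lemma L5a_exists {δ : ℝ} {x : V} {g : Pl → ℝ} (h : RP4.mass δ g x ≠ 0) :
    ∃ z ∈ RP4.cell δ x, g z ≠ 0 := by
  by_contra hc
  push Not at hc
  exact h (setIntegral_eq_zero_of_forall_eq_zero hc)

private lemma L5a_gap {s : ℝ} {d : Pl} {g : Pl → ℝ} (hg : Cc g) (hs : tsupport g ⊆ {z | ell d z < s}) :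
    ∃ ε > 0, ∀ z, g z ≠ 0 → ell d z ≤ s - ε := by
  rcases (tsupport g).eq_empty_or_nonempty with he | hne
  · refine ⟨1, one_pos, fun z hz => ?_⟩
    have := subset_tsupport g hz
    rw [he] at this
    exact absurd this (Set.notMem_empty z)
  · have hc : Continuous (fun z : Pl => ell d z) := by
      unfold ell
      fun_prop
    obtain ⟨z₀, hz₀, hm⟩ := hg.supp.isCompact.exists_isMaxOn hne hc.continuousOn
    refine ⟨s - ell d z₀, sub_pos.2 (hs hz₀), fun z hz => ?_⟩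
    have := hm (subset_tsupport g hz)
    simp only [Set.mem_ofPred_eq] at this
    linarith

/-- sites with positive mass lie behind the lattice line -/
lemma mass_behind {d : ℤ × ℤ} (hd : DirZ d) {s : ℝ} {g : Pl → ℝ} (hg : Cc g)
    (hs : tsupport g ⊆ {z | ell (dr d) z < s}) :
    ∀ᶠ δ in 𝓝[>] (0 : ℝ), ∀ x : V, RP4.mass δ g x ≠ 0 → ld d x ≤ ⌊s / δ⌋ := by
  obtain ⟨ε, hε, h⟩ := L5a_gap hg hs
  filter_upwards [Ioo_mem_nhdsGT hε] with δ hδ x hx
  obtain ⟨z, hz, hgz⟩ := L5a_exists hx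
  have h1 := abs_le.1 (L5a_cell hd hz)
  have h2 := h z hgz
  rw [Int.le_floor, le_div_iff₀ hδ.1]
  linarith [hδ.2, h1.1]

lemma mass_ahead {d : ℤ × ℤ} (hd : DirZ d) {s : ℝ} {g : Pl → ℝ} (hg : Cc g)
    (hs : tsupport g ⊆ {z | s < ell (dr d) z}) :
    ∀ᶠ δ in 𝓝[>] (0 : ℝ), ∀ x : V, RP4.mass δ g x ≠ 0 → ⌊s / δ⌋ ≤ ld d x := by
  have hneg : ∀ z : Pl, ell (-(dr d)) z = -ell (dr d) z := by
    intro z
    unfold ell
    simp only [Prod.fst_neg, Prod.snd_neg]
    ring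
  have hs' : tsupport g ⊆ {z | ell (-(dr d)) z < -s} := by
    intro z hz
    have := hs hz
    change ell (-(dr d)) z < -s
    rw [hneg]
    exact neg_lt_neg this
  obtain ⟨ε, hε, h⟩ := L5a_gap hg hs'
  filter_upwards [Ioo_mem_nhdsGT hε] with δ hδ x hx
  obtain ⟨z, hz, hgz⟩ := L5a_exists hx
  have h1 := abs_le.1 (L5a_cell hd hz)
  have h2 := h z hgz
  rw [hneg] at h2
  have h3 : s / δ ≤ ld d x := by
    rw [div_le_iff₀ hδ.1]
    linarith [hδ.2, h1.2]
  have h4 : (⌊s / δ⌋ : ℝ) ≤ ld d x := (Int.floor_le _).trans h3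
  exact_mod_cast h4

end GF.Lat
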