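import Pool.Agent.Helper75.GF.L3
import Pool.Agent.Helper75.GF.L4c
import Pool.Agent.Helper75.GF.L5a

/-!
# Project GF, lattice part L5: the observables of the axioms `rp1`, `rp2`
-/

open MeasureTheory Filter Topology

namespace GF.Lat

open RP4 (V avg Om dom cell mass mu Loc Deloc BdryPar)

/-- the two point limit -/
def TwoPt (K : ℝ) : Prop := ∀ f g : Pl → ℝ, Ne f → Ne g →
  Tendsto (fun δ => mu (fun h => Xd δ f h * Xd δ g h)) (𝓝[>] 0) (𝓝 (K * energy2 f g))

private lemma L5_fst : Tendsto (fun p : ℝ × Finset V => p.1) itf (𝓝[>] (0 : ℝ)) := fun _ hS =>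
  itf_eventually.2 (Filter.Eventually.mono hS fun _ hδ => Eventually.of_forall fun _ => hδ)

private lemma L5_int {f : Pl → ℝ} (hf : Cc f) : Integrable f :=
  hf.smooth.continuous.integrable_of_hasCompactSupport hf.supp

/-- the field is an observable: `okU_of_second`, the second moments converge (`Rep.tendsto`, `TwoPt`) -/
theorem okU_XX (hdl : Deloc) {K : ℝ} (htwo : TwoPt K) {U : Filter (ℝ × Finset V)} (hU : U ≤ itf)
    {f : Pl → ℝ} (hf : Ne f) : OkU U (XX f) := by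
  have hi : Integrable f := L5_int hf.toCc
  have h0 : Tendsto (fun p : ℝ × Finset V => mu (fun h => Xd p.1 f h * Xd p.1 f h)) itf
      (𝓝 (K * energy2 f f)) := (htwo f f hf hf).comp L5_fst
  have h1 := (Rep.tendsto hdl ((rep_XX hf).mul (rep_XX hf))).add h0
  have h2 : Tendsto (fun p : ℝ × Finset V => ev p (fun i => XX f i ^ 2)) itf
      (𝓝 (K * energy2 f f)) := by
    rw [zero_add] at h1
    refine h1.congr fun p => ?_
    rw [sub_add_cancel]
    congr 1
    funext i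
    ring
  have h3 : ∀ᶠ p in itf, ev p (fun i => XX f i ^ 2) ≤ K * energy2 f f + 1 :=
    h2.eventually (eventually_le_nhds (lt_add_one _))
  exact okU_of_second hU (fun _ => f) (max (K * energy2 f f + 1) (∫ z, |f z|))
    (Eventually.of_forall fun _ => ⟨hi, le_max_right _ _⟩)
    (hU (h3.mono fun p hp => hp.trans (le_max_left _ _)))

/-- the two point function of the limit -/
theorem LU_two (hdl : Deloc) {K : ℝ} (htwo : TwoPt K) {U : Ultrafilter (ℝ × Finset V)}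
    (hU : (U : Filter (ℝ × Finset V)) ≤ itf) {f g : Pl → ℝ} (hf : Ne f) (hg : Ne g) :
    LU U (fun i => XX f i * XX g i) = K * energy2 f g :=
  tendsto_nhds_unique
    (Rep.lim hdl hU ((rep_XX hf).mul (rep_XX hg)) ((okU_XX hdl htwo hU hf).mul (okU_XX hdl htwo hU hg)))
    ((htwo f g hf hg).comp (L5_fst.mono_left hU))

/-- the observable with the line at `r δ` -/
noncomputable def AA (d : ℤ × ℤ) (f g : Pl → ℝ) (r : ℝ → ℝ) (i : Ix) : ℝ :=
  XX (lap f) i * XX (rf (dr d) (r i.1.1) (lap f)) i *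
    Real.cos (XX (fun z => g z - rf (dr d) (r i.1.1) g z) i)

private lemma L5_sub {f g : Pl → ℝ} (hf : Integrable f) (hg : Integrable g) (i : Ix) :
    XX (fun z => f z - g z) i = XX f i - XX g i := by
  have h1 := XX_add hf (hg.const_mul (-1)) i
  rw [XX_smul] at h1
  have h2 : (fun z => f z + -1 * g z) = fun z => f z - g z := by
    funext z
    ring
  rw [h2] at h1
  rw [h1]
  ring

/-- the difference of the fields of two reflections of a function, for lines at distance `O(δ)` -/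
private lemma L5_small (hdl : Deloc) (hlog : LogBd) {d : ℤ × ℤ} (hd : DirZ d) {f : Pl → ℝ}
    (hf : Cc f) (r : ℝ → ℝ) (r₀ : ℝ) (hr : ∀ᶠ δ in 𝓝[>] (0 : ℝ), |r δ - r₀| ≤ 2 * δ)
    {U : Ultrafilter (ℝ × Finset V)} (hU : (U : Filter (ℝ × Finset V)) ≤ itf) :
    OkU U (fun i => XX (fun z => rf (dr d) r₀ f z - rf (dr d) (r i.1.1) f z) i) ∧
      LU U (fun i => XX (fun z => rf (dr d) r₀ f z - rf (dr d) (r i.1.1) f z) i ^ 2) = 0 := by
  obtain ⟨R, hR, hRs⟩ := supp_rf hd r₀ hf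
  obtain ⟨B, hB, hBs⟩ := int_abs_rf_sub hd r₀ hf
  have h1 : ∀ᶠ δ in 𝓝[>] (0 : ℝ), |r δ - r₀| ≤ 1 := by
    have h2 : ∀ᶠ δ in 𝓝[>] (0 : ℝ), δ < 1 / 2 :=
      mem_nhdsWithin_of_mem_nhds (Iio_mem_nhds (by norm_num))
    filter_upwards [hr, h2] with δ h3 h4
    linarith
  have hC : Chg R (fun δ z => rf (dr d) r₀ f z - rf (dr d) (r δ) f z) := by
    refine ⟨Eventually.of_forall fun δ => (L5_int (cc_rf hd _ hf)).sub (L5_int (cc_rf hd _ hf)),
      Eventually.of_forall fun δ => ?_, ?_⟩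
    · rw [integral_sub (L5_int (cc_rf hd _ hf)) (L5_int (cc_rf hd _ hf)), int_rf hd, int_rf hd, sub_self]
    · filter_upwards [h1] with δ h2 z hz
      by_cases h3 : rf (dr d) r₀ f z = 0
      · refine hRs (r δ) h2 z fun h4 => hz ?_
        rw [h3, h4, sub_self]
      · exact hRs r₀ (by rw [sub_self, abs_zero]; exact zero_le_one) z h3
  refine small_field hdl hlog hR hC (2 * B) ?_ hU
  filter_upwards [h1, hr] with δ h2 h3
  calc ∫ z, |rf (dr d) r₀ f z - rf (dr d) (r δ) f z| ≤ B * |r δ - r₀| := hBs _ h2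
    _ ≤ B * (2 * δ) := mul_le_mul_of_nonneg_left h3 hB
    _ = 2 * B * δ := by ring

/-
`LU_close2` with `B = X(lap f)`, `P = X(rf (r δ) (lap f))`, `P' = X(rf r₀ (lap f))`, `Q, Q'` the arguments of the cosine;
`P - P'` and `Q - Q'` are fields of small charges (`small_field`, `int_abs_rf_sub`, `supp_rf`, linearity `XX_add`,
`XX_smul`), `P'`, `Q'` are observables by `okU_XX`, so `P = P' + small` too.
-/
theorem AA_close (hdl : Deloc) (hlog : LogBd) {K : ℝ} (htwo : TwoPt K) {d : ℤ × ℤ} (hd : DirZ d) {f g : Pl → ℝ}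
    (hf : Cc f) (hg : Cc g) (r : ℝ → ℝ) (r₀ : ℝ) (hr : ∀ᶠ δ in 𝓝[>] (0 : ℝ), |r δ - r₀| ≤ 2 * δ)
    {U : Ultrafilter (ℝ × Finset V)} (hU : (U : Filter (ℝ × Finset V)) ≤ itf) :
    OkU U (AA d f g r) ∧ LU U (AA d f g r) = LU U (AA d f g (fun _ => r₀)) := by
  have hl : Ne (lap f) := hf.ne_lap
  have hB : OkU U (XX (lap f)) := okU_XX hdl htwo hU hl
  have hP' : OkU U (XX (rf (dr d) r₀ (lap f))) := okU_XX hdl htwo hU (ne_rf hd r₀ hl)
  have hQ' : OkU U (XX (fun z => g z - rf (dr d) r₀ g z)) := okU_XX hdl htwo hU (ne_sub_rf hd r₀ hg)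
  obtain ⟨s1, s2⟩ := L5_small hdl hlog hd hl.toCc r r₀ hr hU
  obtain ⟨t1, t2⟩ := L5_small hdl hlog hd hg r r₀ hr hU
  have e1 : ∀ i : Ix, XX (fun z => rf (dr d) r₀ (lap f) z - rf (dr d) (r i.1.1) (lap f) z) i =
      XX (rf (dr d) r₀ (lap f)) i - XX (rf (dr d) (r i.1.1) (lap f)) i := fun i =>
    L5_sub (L5_int (cc_rf hd _ hl.toCc)) (L5_int (cc_rf hd _ hl.toCc)) i
  have e2 : ∀ i : Ix, XX (fun z => rf (dr d) r₀ g z - rf (dr d) (r i.1.1) g z) i =
      XX (fun z => g z - rf (dr d) (r i.1.1) g z) i - XX (fun z => g z - rf (dr d) r₀ g z) i := by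
    intro i
    rw [L5_sub (L5_int (cc_rf hd _ hg)) (L5_int (cc_rf hd _ hg)), L5_sub (L5_int hg) (L5_int (cc_rf hd _ hg)),
      L5_sub (L5_int hg) (L5_int (cc_rf hd _ hg))]
    ring
  have hP : OkU U (fun i => XX (rf (dr d) (r i.1.1) (lap f)) i) := by
    have h := hP'.add ((OkU.const hU (-1)).mul s1)
    refine OkU.of_abs_le (fun i => le_of_eq ?_) h
    rw [e1 i]
    congr 1
    ring
  have hQ : OkU U (fun i => XX (fun z => g z - rf (dr d) (r i.1.1) g z) i) := by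
    refine OkU.of_abs_le (fun i => le_of_eq ?_) (hQ'.add t1)
    rw [e2 i]
    congr 1
    ring
  constructor
  · refine OkU.of_abs_le (fun i => ?_) (hB.mul hP)
    unfold AA
    rw [abs_mul]
    exact mul_le_of_le_one_right (abs_nonneg _) (Real.abs_cos_le_one _)
  · refine LU_close2 hU hB hP hP' hQ hQ' ?_ ?_
    · rw [← s2]
      congr 1
      funext i
      rw [e1 i]
      ring
    · rw [← t2]
      congr 1
      funext i
      rw [e2 i]

private lemma L5_congr {A : Ix → ℝ} {F G : ℝ → (V → ℤ) → ℝ} (hA : Rep A F)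
    (h : ∀ᶠ δ in 𝓝[>] (0 : ℝ), F δ = G δ) : Rep A G := by
  filter_upwards [hA, h] with δ h1 h2
  rw [← h2]
  exact h1

/-- with the line on the lattice the observable is represented by the lattice observable of `alat`;
`R` = a square containing the supports of `f` and `g` (`Xd_rf`, `mass_rf`, `Chg.rep`) -/
theorem AA_rep {d : ℤ × ℤ} (hd : DirZ d) {f g : Pl → ℝ} (hf : Cc f) (hg : Cc g) {R : ℝ} (hR : 0 < R)
    (hRf : ∀ z, lap f z ≠ 0 → |z.1| ≤ R ∧ |z.2| ≤ R) (hRg : ∀ z, g z ≠ 0 → |z.1| ≤ R ∧ |z.2| ≤ R)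
    (j : ℝ → ℤ) (r₀ : ℝ) (hr : ∀ᶠ δ in 𝓝[>] (0 : ℝ), |δ * j δ - r₀| ≤ 2 * δ) :
    Rep (AA d f g (fun δ => δ * j δ)) (fun δ h => Xd δ (lap f) h * Xd δ (lap f) (fun v => h (lref d (j δ) v)) *
      Real.cos (∑ x ∈ win δ R, mass δ g x * ((h x : ℝ) - h (lref d (j δ) x)))) := by
  have hl : Ne (lap f) := hf.ne_lap
  have h1 : ∀ᶠ δ in 𝓝[>] (0 : ℝ), |δ * j δ - r₀| ≤ 1 := by
    have h2 : ∀ᶠ δ in 𝓝[>] (0 : ℝ), δ < 1 / 2 :=
      mem_nhdsWithin_of_mem_nhds (Iio_mem_nhds (by norm_num))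
    filter_upwards [hr, h2] with δ h3 h4
    linarith
  have hpos : ∀ᶠ δ in 𝓝[>] (0 : ℝ), 0 < δ := self_mem_nhdsWithin
  obtain ⟨R₁, hR₁, hs₁⟩ := supp_rf hd r₀ hl.toCc
  obtain ⟨R₂, hR₂, hs₂⟩ := supp_rf hd r₀ hg
  have c1 : Chg R₁ (fun δ => rf (dr d) (δ * j δ) (lap f)) := by
    refine ⟨Eventually.of_forall fun δ => L5_int (cc_rf hd _ hl.toCc),
      Eventually.of_forall fun δ => ?_, ?_⟩
    · rw [int_rf hd, hl.zero]
    · filter_upwards [h1] with δ h2 z hz
      exact hs₁ _ h2 z hz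
  have c2 : Chg (max R R₂) (fun δ z => g z - rf (dr d) (δ * j δ) g z) := by
    refine ⟨Eventually.of_forall fun δ => (L5_int hg).sub (L5_int (cc_rf hd _ hg)),
      Eventually.of_forall fun δ => ?_, ?_⟩
    · rw [integral_sub (L5_int hg) (L5_int (cc_rf hd _ hg)), int_rf hd, sub_self]
    · filter_upwards [h1] with δ h2 z hz
      by_cases h3 : g z = 0
      · have h4 : rf (dr d) (δ * j δ) g z ≠ 0 := fun h4 => hz (by rw [h3, h4, sub_self])
        obtain ⟨h5, h6⟩ := hs₂ _ h2 z h4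
        exact ⟨h5.trans (le_max_right _ _), h6.trans (le_max_right _ _)⟩
      · obtain ⟨h5, h6⟩ := hRg z h3
        exact ⟨h5.trans (le_max_left _ _), h6.trans (le_max_left _ _)⟩
  have r1 := rep_XX hl
  have r2 := Chg.rep hR₁ c1
  have r3 := (Chg.rep (lt_max_of_lt_left hR) c2).comp Real.cos
  refine L5_congr ((r1.mul r2).mul r3) ?_
  filter_upwards [hpos, h1] with δ hδ h2
  funext h
  have a1 : Xd δ (rf (dr d) (δ * j δ) (lap f)) h = Xd δ (lap f) (fun v => h (lref d (j δ) v)) :=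
    Xd_rf hd hδ (j δ) (lap f) h
  have a2 : Xd δ (fun z => g z - rf (dr d) (δ * j δ) g z) h = Xd δ g h - Xd δ (rf (dr d) (δ * j δ) g) h := by
    have hm : (0 : ℝ) ≤ max R R₂ := hR.le.trans (le_max_left _ _)
    rw [Xd_eq hδ hm (f := fun z => g z - rf (dr d) (δ * j δ) g z) ?_ (Finset.Subset.refl _),
      Xd_eq hδ hm (f := g) ?_ (Finset.Subset.refl _),
      Xd_eq hδ hm (f := rf (dr d) (δ * j δ) g) ?_ (Finset.Subset.refl _), ← Finset.sum_sub_distrib]
    · refine Finset.sum_congr rfl fun x _ => ?_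
      have h3 : mass δ (fun z => g z - rf (dr d) (δ * j δ) g z) x = mass δ g x - mass δ (rf (dr d) (δ * j δ) g) x := by
        unfold mass
        exact integral_sub (L5_int hg).integrableOn (L5_int (cc_rf hd _ hg)).integrableOn
      rw [h3]
      ring
    · intro z hz
      obtain ⟨h5, h6⟩ := hs₂ _ h2 z hz
      exact ⟨h5.trans (le_max_right _ _), h6.trans (le_max_right _ _)⟩
    · intro z hz
      obtain ⟨h5, h6⟩ := hRg z hz
      exact ⟨h5.trans (le_max_left _ _), h6.trans (le_max_left _ _)⟩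
    · intro z hz
      by_cases h3 : g z = 0
      · have h4 : rf (dr d) (δ * j δ) g z ≠ 0 := fun h4 => hz (by rw [h3, h4, sub_self])
        obtain ⟨h5, h6⟩ := hs₂ _ h2 z h4
        exact ⟨h5.trans (le_max_right _ _), h6.trans (le_max_right _ _)⟩
      · obtain ⟨h5, h6⟩ := hRg z h3
        exact ⟨h5.trans (le_max_left _ _), h6.trans (le_max_left _ _)⟩
  have a3 : Xd δ (fun z => g z - rf (dr d) (δ * j δ) g z) h =
      ∑ x ∈ win δ R, mass δ g x * ((h x : ℝ) - h (lref d (j δ) x)) := by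
    rw [a2, Xd_rf hd hδ (j δ) g h, Xd_eq hδ hR.le hRg (Finset.Subset.refl _),
      Xd_eq hδ hR.le hRg (Finset.Subset.refl _), ← Finset.sum_sub_distrib]
    exact Finset.sum_congr rfl fun x _ => by ring
  change Xd δ (lap f) h * Xd δ (rf (dr d) (δ * j δ) (lap f)) h *
    Real.cos (Xd δ (fun z => g z - rf (dr d) (δ * j δ) g z) h) = _
  rw [a1, a3]

end GF.Lat
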