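import Pool.Agent.Helper75.GF.L5

/-!
# Project GF, lattice part L6: axiom `rp1`
-/

open MeasureTheory Filter Topology

namespace GF.Lat

open RP4 (V avg Om dom cell mass mu Loc Deloc BdryPar)

private lemma L6_floor (s : ℝ) : ∀ᶠ δ in 𝓝[>] (0 : ℝ), |δ * (⌊s / δ⌋ : ℤ) - s| ≤ 2 * δ := by
  filter_upwards [self_mem_nhdsWithin] with δ hδ
  have hδ' : 0 < δ := hδ
  have h1 := Int.floor_le (s / δ)
  have h2 := Int.lt_floor_add_one (s / δ)
  rw [le_div_iff₀ hδ'] at h1
  rw [div_lt_iff₀ hδ'] at h2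
  rw [abs_le]
  constructor <;> nlinarith

/-- a linear functional relative to a site is local on every set containing the site and the sites with nonzero weight -/
private lemma L6_loc {s t : Finset V} {m : V → ℝ} {w : V} (hw : w ∈ t) (hm : ∀ x ∈ s, m x ≠ 0 → x ∈ t) :
    Loc t (fun h => ∑ x ∈ s, m x * ((h x : ℝ) - h w)) := by
  intro h h' hh
  refine Finset.sum_congr rfl fun x hx => ?_
  by_cases h0 : m x = 0
  · rw [h0, zero_mul, zero_mul]
  · have h1 := hh x (hm x hx h0) w hw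
    have h2 : ((h x : ℝ) - h w) = ((h' x : ℝ) - h' w) := by exact_mod_cast h1
    rw [h2]

/-
Let `m = ⌊s / δ⌋`, `w` a site with `ld d w = m` (`exists_line`).  For `δ` small the masses of `lap f`, `gm` live behind the
lattice line `m`, those of `gp` ahead (`mass_behind`, `mass_ahead`, `tsupport (lap f) ⊆ tsupport f`).  In `rp1_lat` take
`F = Xd δ (lap f)` (local on the sites of the window with `ld d x ≤ m`, as the masses of the others vanish),
`G h = ∑ mass δ gm x * (h x - h w)`, `H h = ∑ mass δ gp x * (h x - h w)` (sums over the window of a large square);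
`G + H = Xd δ (gm + gp)` because the total mass is zero (`sum_mass`), `G - G ∘ θ = ∑ mass δ gm x * (h x - h (lref d m x))`.
So `mu (F * sin (G + H))² ≤ mu (lattice observable of AA with j δ = ⌊s / δ⌋)`; let `δ → 0` along `U`: `Rep.lim` for
`XX (lap f) * sin (XX (gm + gp))` and `AA_rep`, `AA_close`.
-/
theorem rp1_U (hdl : Deloc) (hlog : LogBd) {K : ℝ} (htwo : TwoPt K) {U : Ultrafilter (ℝ × Finset V)}
    (hU : (U : Filter (ℝ × Finset V)) ≤ itf) {d : ℤ × ℤ} (hd : DirZ d) (s : ℝ) {f gm gp : Pl → ℝ} (hf : Cc f)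
    (hgm : Cc gm) (hgp : Cc gp) (h0 : (∫ z, gm z) + (∫ z, gp z) = 0)
    (h1 : tsupport f ⊆ {z | ell (dr d) z < s}) (h2 : tsupport gm ⊆ {z | ell (dr d) z < s})
    (h3 : tsupport gp ⊆ {z | s < ell (dr d) z}) :
    LU U (fun i => XX (lap f) i * Real.sin (XX (fun z => gm z + gp z) i)) ^ 2 ≤
      LU U (AA d f gm (fun _ => s)) := by
  classical
  have hne : Ne (lap f) := hf.ne_lap
  have hng : Ne (fun z => gm z + gp z) := by
    refine ⟨hgm.add hgp, ?_⟩
    rw [integral_add hgm.integrable hgp.integrable, h0]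
  obtain ⟨R₁, hR₁, hb₁⟩ := cc_box hne.toCc
  obtain ⟨R₂, hR₂, hb₂⟩ := cc_box hgm
  obtain ⟨R₃, hR₃, hb₃⟩ := cc_box hgp
  obtain ⟨R, hRdef⟩ : ∃ R, R = max R₁ (max R₂ R₃) := ⟨_, rfl⟩
  have hR1 : R₁ ≤ R := hRdef ▸ le_max_left _ _
  have hR2 : R₂ ≤ R := hRdef ▸ (le_max_left _ _).trans (le_max_right _ _)
  have hR3 : R₃ ≤ R := hRdef ▸ (le_max_right _ _).trans (le_max_right _ _)
  have hR : 0 < R := hR₁.trans_le hR1
  have hbf : ∀ z, lap f z ≠ 0 → |z.1| ≤ R ∧ |z.2| ≤ R := fun z hz =>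
    ⟨(hb₁ z hz).1.trans hR1, (hb₁ z hz).2.trans hR1⟩
  have hbm : ∀ z, gm z ≠ 0 → |z.1| ≤ R ∧ |z.2| ≤ R := fun z hz =>
    ⟨(hb₂ z hz).1.trans hR2, (hb₂ z hz).2.trans hR2⟩
  have hbp : ∀ z, gp z ≠ 0 → |z.1| ≤ R ∧ |z.2| ≤ R := fun z hz =>
    ⟨(hb₃ z hz).1.trans hR3, (hb₃ z hz).2.trans hR3⟩
  have hbs : ∀ z, gm z + gp z ≠ 0 → |z.1| ≤ R ∧ |z.2| ≤ R := by
    intro z hz
    by_cases h : gm z = 0
    · exact hbp z fun h' => hz (by rw [h, h', add_zero])
    · exact hbm z h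
  -- the observables
  have okA : OkU U (fun i => XX (lap f) i * Real.sin (XX (fun z => gm z + gp z) i)) :=
    OkU.of_abs_le (B := fun i => XX (lap f) i) (fun i => by
      rw [abs_mul]
      exact mul_le_of_le_one_right (abs_nonneg _) (Real.abs_sin_le_one _)) (okU_XX hdl htwo hU hne)
  have repA : Rep (fun i => XX (lap f) i * Real.sin (XX (fun z => gm z + gp z) i))
      (fun δ h => Xd δ (lap f) h * Real.sin (Xd δ (fun z => gm z + gp z) h)) :=
    (rep_XX hne).mul ((rep_XX hng).comp Real.sin)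
  obtain ⟨okB, eqB⟩ := AA_close hdl hlog htwo hd hf hgm (fun δ => δ * (⌊s / δ⌋ : ℤ)) s (L6_floor s) hU
  have repB := AA_rep hd hf hgm hR hbf hbm (fun δ => ⌊s / δ⌋) s (L6_floor s)
  rw [← eqB]
  refine le_of_tendsto_of_tendsto ((Rep.lim hdl hU repA okA).pow 2) (Rep.lim hdl hU repB okB) ?_
  refine hU ?_
  rw [← Filter.Eventually, itf_eventually]
  have e1 := mass_behind hd hne.toCc ((tsupport_lap f).trans h1)
  have e2 := mass_behind hd hgm h2
  have e3 := mass_ahead hd hgp h3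
  filter_upwards [self_mem_nhdsWithin, e1, e2, e3] with δ hδ e1 e2 e3
  refine Eventually.of_forall fun D => ?_
  have hδ' : 0 < δ := hδ
  set m : ℤ := ⌊s / δ⌋ with hm
  obtain ⟨w, hw⟩ := exists_line hd m
  set sm : Finset V := insert w ((win δ R).filter (fun x => ld d x ≤ m)) with hsm
  set sp : Finset V := insert w ((win δ R).filter (fun x => m ≤ ld d x)) with hsp
  have hsm' : ∀ x ∈ sm, ld d x ≤ m := by
    intro x hx
    rcases Finset.mem_insert.1 hx with rfl | hx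
    · exact hw.le
    · exact (Finset.mem_filter.1 hx).2
  have hsp' : ∀ x ∈ sp, m ≤ ld d x := by
    intro x hx
    rcases Finset.mem_insert.1 hx with rfl | hx
    · exact hw.ge
    · exact (Finset.mem_filter.1 hx).2
  have hwsm : w ∈ sm := Finset.mem_insert_self _ _
  have hwsp : w ∈ sp := Finset.mem_insert_self _ _
  -- the function `F`
  have hF0 : ∑ x ∈ win δ R, mass δ (lap f) x = 0 := by
    rw [sum_mass hδ' hR.le hne.toCc.integrable hbf (Finset.Subset.refl _), hne.zero]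
  have hFe : ∀ h : V → ℤ, Xd δ (lap f) h = ∑ x ∈ win δ R, mass δ (lap f) x * ((h x : ℝ) - h w) := by
    intro h
    rw [Xd_eq hδ' hR.le hbf (Finset.Subset.refl _) h]
    simp only [mul_sub]
    rw [Finset.sum_sub_distrib, ← Finset.sum_mul, hF0, zero_mul, sub_zero]
  have hF : Loc sm (Xd δ (lap f)) := by
    have h4 : Loc sm (fun h => ∑ x ∈ win δ R, mass δ (lap f) x * ((h x : ℝ) - h w)) :=
      L6_loc hwsm fun x hx h0 => Finset.mem_insert_of_mem (Finset.mem_filter.2 ⟨hx, e1 x h0⟩)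
    intro g g' hg
    rw [hFe, hFe]
    exact h4 g g' hg
  have hG : Loc sm (fun h => ∑ x ∈ win δ R, mass δ gm x * ((h x : ℝ) - h w)) :=
    L6_loc hwsm fun x hx h0 => Finset.mem_insert_of_mem (Finset.mem_filter.2 ⟨hx, e2 x h0⟩)
  have hH : Loc sp (fun h => ∑ x ∈ win δ R, mass δ gp x * ((h x : ℝ) - h w)) :=
    L6_loc hwsp fun x hx h0 => Finset.mem_insert_of_mem (Finset.mem_filter.2 ⟨hx, e3 x h0⟩)
  have key := rp1_lat hdl hd m hsm' hsp' hF hG hH
  have hs0 : ∑ x ∈ win δ R, (mass δ gm x + mass δ gp x) = 0 := by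
    rw [Finset.sum_add_distrib, sum_mass hδ' hR.le hgm.integrable hbm (Finset.Subset.refl _),
      sum_mass hδ' hR.le hgp.integrable hbp (Finset.Subset.refl _), h0]
  have hGH : ∀ h : V → ℤ, ∑ x ∈ win δ R, mass δ gm x * ((h x : ℝ) - h w) +
      ∑ x ∈ win δ R, mass δ gp x * ((h x : ℝ) - h w) = Xd δ (fun z => gm z + gp z) h := by
    intro h
    rw [Xd_eq hδ' hR.le hbs (Finset.Subset.refl _) h, ← Finset.sum_add_distrib]
    have h5 : ∀ x ∈ win δ R, mass δ gm x * ((h x : ℝ) - h w) + mass δ gp x * ((h x : ℝ) - h w) =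
        mass δ (fun z => gm z + gp z) x * (h x : ℝ) - (mass δ gm x + mass δ gp x) * (h w : ℝ) := by
      intro x _
      rw [mass_add δ hgm.integrable hgp.integrable]
      ring
    rw [Finset.sum_congr rfl h5, Finset.sum_sub_distrib, ← Finset.sum_mul, hs0, zero_mul, sub_zero]
  have hGG : ∀ h : V → ℤ, ∑ x ∈ win δ R, mass δ gm x * ((h x : ℝ) - h w) -
      ∑ x ∈ win δ R, mass δ gm x * ((h (lref d m x) : ℝ) - h (lref d m w)) =
      ∑ x ∈ win δ R, mass δ gm x * ((h x : ℝ) - h (lref d m x)) := by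
    intro h
    rw [lref_fix hd hw, ← Finset.sum_sub_distrib]
    refine Finset.sum_congr rfl fun x _ => ?_
    ring
  simp only [hGH, hGG] at key
  exact key

end GF.Lat
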